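import Mathlib

set_option autoImplicit false

/-!
Seymour's question on traces of products of tournament-like matrices: three and four matrices.
The main inequality is `key` (sharper form: `key_fine`); `no_three`, `no_four` and the sharper
`no_four_fine` are the statements for oriented graphs.
-/

namespace Pool.Agent.Lib.MP_323cd4_co.Exact

open Finset

set_option linter.unusedSectionVars false

variable {V : Type*} [Fintype V] [DecidableEq V]

/-- indicator of `y ∈ S x` -/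
def ind (S : V → Finset V) (x y : V) : ℤ := if y ∈ S x then 1 else 0

/-- the in-degree -/
def indeg (S : V → Finset V) (v : V) : ℕ := (univ.filter fun u => v ∈ S u).card

theorem ind_nonneg (S : V → Finset V) (x y : V) : 0 ≤ ind S x y := by
  unfold ind
  split_ifs <;> norm_num

theorem ind_le_one (S : V → Finset V) (x y : V) : ind S x y ≤ 1 := by
  unfold ind
  split_ifs <;> norm_num

theorem card_inter (S : V → Finset V) (x : V) (Q : Finset V) :
    ((S x ∩ Q).card : ℤ) = ∑ y ∈ Q, ind S x y := by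
  unfold ind
  rw [← Finset.sum_filter, Finset.sum_const, nsmul_eq_mul, mul_one]
  congr 2
  ext y
  simp [and_comm]

theorem indeg_eq (S : V → Finset V) (v : V) : (indeg S v : ℤ) = ∑ u, ind S u v := by
  unfold indeg ind
  rw [← Finset.sum_filter, Finset.sum_const, nsmul_eq_mul, mul_one]

theorem card_eq (S : V → Finset V) (v : V) : ((S v).card : ℤ) = ∑ y, ind S v y := by
  rw [← card_inter, Finset.inter_univ]

theorem sum_indeg (S : V → Finset V) : ∑ v : V, (indeg S v : ℤ) = ∑ v : V, ((S v).card : ℤ) := by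
  simp only [indeg_eq, card_eq]
  exact Finset.sum_comm

/-- double counting with weights -/
theorem sum_weight (P : V → Finset V) (f : V → ℤ) :
    ∑ v : V, ∑ w ∈ P v, f w = ∑ w : V, (indeg P w : ℤ) * f w := by
  have e1 : ∀ v : V, ∑ w ∈ P v, f w = ∑ w : V, ind P v w * f w := by
    intro v
    unfold ind
    simp only [ite_mul, one_mul, zero_mul]
    rw [← Finset.sum_filter]
    refine Finset.sum_congr ?_ fun _ _ => rfl
    ext; simp
  simp only [e1]
  rw [Finset.sum_comm]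
  refine Finset.sum_congr rfl fun w _ => ?_
  rw [← Finset.sum_mul, ← indeg_eq]

theorem pair (S : V → Finset V) (h : ∀ x y, y ∈ S x → x ∉ S y) (x y : V) :
    ind S x y + ind S y x ≤ 1 - (if x = y then 1 else 0) := by
  have h1 := h x y
  have h2 := h y x
  unfold ind
  by_cases hxy : x = y
  · subst hxy
    have : x ∉ S x := fun hx => h x x hx hx
    simp [this]
  · by_cases ha : y ∈ S x
    · simp [ha, h1 ha, hxy]
    · by_cases hb : x ∈ S y <;> simp [ha, hb, hxy]

theorem sum_pair (S : V → Finset V) (h : ∀ x y, y ∈ S x → x ∉ S y) (Q : Finset V) {x : V}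
    (hx : x ∈ Q) : ∑ y ∈ Q, ind S x y + ∑ y ∈ Q, ind S y x ≤ (Q.card : ℤ) - 1 := by
  rw [← Finset.sum_add_distrib]
  refine (Finset.sum_le_sum fun y _ => pair S h x y).trans ?_
  rw [Finset.sum_sub_distrib, Finset.sum_const, Finset.sum_ite_eq, if_pos hx]
  simp

/-- the number of arcs of an oriented graph inside a set -/
theorem inner (S : V → Finset V) (h : ∀ x y, y ∈ S x → x ∉ S y) (Q : Finset V) :
    2 * ∑ x ∈ Q, ((S x ∩ Q).card : ℤ) ≤ Q.card * ((Q.card : ℤ) - 1) := by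
  have h1 : ∑ x ∈ Q, ((S x ∩ Q).card : ℤ) = ∑ x ∈ Q, ∑ y ∈ Q, ind S x y :=
    Finset.sum_congr rfl fun x _ => card_inter S x Q
  have h2 : ∑ x ∈ Q, ∑ y ∈ Q, ind S x y = ∑ x ∈ Q, ∑ y ∈ Q, ind S y x := Finset.sum_comm
  have h3 : ∑ x ∈ Q, (∑ y ∈ Q, ind S x y + ∑ y ∈ Q, ind S y x) ≤
      ∑ _x ∈ Q, ((Q.card : ℤ) - 1) := Finset.sum_le_sum fun x hx => sum_pair S h Q hx
  rw [Finset.sum_add_distrib, Finset.sum_const, nsmul_eq_mul] at h3
  rw [h1]
  linarith

/-- some vertex of a nonempty set has few out-neighbours in it -/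
theorem exists_few (S : V → Finset V) (h : ∀ x y, y ∈ S x → x ∉ S y) {Q : Finset V}
    (hQ : Q.Nonempty) : ∃ x ∈ Q, 2 * (S x ∩ Q).card + 1 ≤ Q.card := by
  by_contra hcon
  push Not at hcon
  have h1 := inner S h Q
  have h2 : ∀ x ∈ Q, (Q.card : ℤ) ≤ 2 * ((S x ∩ Q).card : ℤ) := by
    intro x hx
    have := hcon x hx
    omega
  have h3 := Finset.sum_le_sum h2
  rw [Finset.sum_const, nsmul_eq_mul, ← Finset.mul_sum] at h3
  have h4 : (1 : ℤ) ≤ Q.card := by exact_mod_cast hQ.card_pos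
  nlinarith

/-- three oriented graphs of out-degree `r` without opposite arcs -/
structure Tri (P Q S : V → Finset V) (r : ℕ) : Prop where
  cP : ∀ v, (P v).card = r
  cQ : ∀ v, (Q v).card = r
  cS : ∀ v, (S v).card = r
  o : ∀ x y, y ∈ P x ∪ Q x ∪ S x → x ∉ P y ∪ Q y ∪ S y

/-- the second step: new vertices reached by a `P`-arc and then a `Q`-arc -/
def new (P Q : V → Finset V) (v : V) : Finset V := (P v).biUnion Q \ P v

section Main

variable {P Q S : V → Finset V} {r : ℕ}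

theorem Tri.rot (h : Tri P Q S r) : Tri Q S P r where
  cP := h.cQ
  cQ := h.cS
  cS := h.cP
  o := by
    intro x y hy hx
    refine h.o x y ?_ ?_
    · simp only [Finset.mem_union] at hy ⊢
      tauto
    · simp only [Finset.mem_union] at hx ⊢
      tauto

theorem Tri.oP (h : Tri P Q S r) : ∀ x y, y ∈ P x → x ∉ P y := by
  intro x y hy hx
  exact h.o x y (by simp [hy]) (by simp [hx])

theorem disj_new (v : V) : Disjoint (P v) (new P Q v) := Finset.disjoint_sdiff

theorem sub_new {v w : V} (hw : w ∈ P v) : Q w ⊆ P v ∪ new P Q v := by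
  intro y hy
  unfold new
  rw [Finset.mem_union, Finset.mem_sdiff, Finset.mem_biUnion]
  by_cases h : y ∈ P v
  · exact Or.inl h
  · exact Or.inr ⟨⟨w, hw, hy⟩, h⟩

/-- number of `Q`-arcs from `w` to the new vertices -/
def qq (P Q : V → Finset V) (v w : V) : ℤ := ((Q w ∩ new P Q v).card : ℤ)

theorem qq_eq (v w : V) : qq P Q v w = ∑ x ∈ new P Q v, ind Q w x := by
  unfold qq
  rw [card_inter]

theorem qq_add (h : Tri P Q S r) {v w : V} (hw : w ∈ P v) :
    (∑ p ∈ P v, ind Q w p) + qq P Q v w = r := by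
  unfold qq
  rw [← card_inter]
  have h1 : Q w ∩ P v ∪ Q w ∩ new P Q v = Q w := by
    rw [← Finset.inter_union_distrib_left, Finset.inter_eq_left]
    exact sub_new hw
  have h2 : Disjoint (Q w ∩ P v) (Q w ∩ new P Q v) :=
    (disj_new (P := P) (Q := Q) v).mono Finset.inter_subset_right Finset.inter_subset_right
  have h3 := Finset.card_union_of_disjoint h2
  rw [h1, h.cQ] at h3
  exact_mod_cast h3.symm

theorem qq_le (v w : V) : qq P Q v w ≤ (new P Q v).card := by
  unfold qq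
  exact_mod_cast Finset.card_le_card Finset.inter_subset_right

theorem qq_le_r (h : Tri P Q S r) {v w : V} (hw : w ∈ P v) : qq P Q v w ≤ r := by
  have := qq_add h hw
  have h5 : 0 ≤ ∑ p ∈ P v, ind Q w p := Finset.sum_nonneg fun p _ => ind_nonneg Q w p
  linarith

/-- there are at least `(r + 1) / 2` new vertices -/
theorem new_ge (h : Tri P Q S r) (hr : 1 ≤ r) (v : V) : r + 1 ≤ 2 * (new P Q v).card := by
  have hne : (P v).Nonempty := by
    rw [← Finset.card_pos, h.cP]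
    omega
  obtain ⟨w, hw, h1⟩ := exists_few Q h.rot.oP hne
  rw [h.cP] at h1
  have h2 := qq_add h hw
  rw [← card_inter] at h2
  have h3 := qq_le (P := P) (Q := Q) v w
  omega

/-- the inequality for one vertex `w` -/
theorem one (h : Tri P Q S r) {v w : V} (hw : w ∈ P v) :
    2 * qq P Q v w * (r - (new Q S w).card) +
      2 * ∑ p ∈ P v, ind Q w p * qq P Q v p ≤
    qq P Q v w * (qq P Q v w - 1) + 2 * (r - qq P Q v w) * (new P Q v).card := by
  set X : Finset V := Q w ∩ new P Q v with hX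
  set Y : Finset V := Q w ∩ P v with hY
  have hq : (X.card : ℤ) = qq P Q v w := rfl
  have hsub : Q w ⊆ X ∪ Y := by
    intro y hy
    have := sub_new hw hy
    rw [Finset.mem_union] at this ⊢
    rcases this with h1 | h1
    · exact Or.inr (Finset.mem_inter.2 ⟨hy, h1⟩)
    · exact Or.inl (Finset.mem_inter.2 ⟨hy, h1⟩)
  -- lower bound
  have h1 : ∀ x ∈ X, (r - (new Q S w).card : ℤ) ≤
      ((S x ∩ X).card : ℤ) + ((S x ∩ Y).card : ℤ) := by
    intro x hx
    have hx1 : x ∈ Q w := (Finset.mem_inter.1 hx).1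
    have h2 := qq_add h.rot hx1
    rw [← card_inter] at h2
    have h2' := qq_le (P := Q) (Q := S) w x
    have h3 : (S x ∩ Q w).card ≤ (S x ∩ X).card + (S x ∩ Y).card := by
      refine (Finset.card_le_card ?_).trans (Finset.card_union_le _ _)
      rw [← Finset.inter_union_distrib_left]
      exact Finset.inter_subset_inter_left hsub
    have h5 : ((S x ∩ Q w).card : ℤ) ≤ (S x ∩ X).card + (S x ∩ Y).card := by exact_mod_cast h3
    linarith
  have h2 := Finset.sum_le_sum h1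
  rw [Finset.sum_const, nsmul_eq_mul, Finset.sum_add_distrib, hq] at h2
  have h3 := inner S h.rot.rot.oP X
  rw [hq] at h3
  -- the arcs to `Y`
  have h4 : ∑ x ∈ X, ((S x ∩ Y).card : ℤ) ≤
      ∑ p ∈ P v, ind Q w p * ((new P Q v).card - qq P Q v p) := by
    have e1 : ∑ x ∈ X, ((S x ∩ Y).card : ℤ) = ∑ p ∈ Y, ∑ x ∈ X, ind S x p := by
      rw [Finset.sum_comm]
      exact Finset.sum_congr rfl fun x _ => card_inter S x Y
    rw [e1]
    have e2 : ∀ p ∈ Y, ∑ x ∈ X, ind S x p ≤ ((new P Q v).card - qq P Q v p : ℤ) := by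
      intro p _
      have e3 : ∀ x ∈ X, ind S x p ≤ 1 - ind Q p x := by
        intro x _
        unfold ind
        by_cases ha : p ∈ S x
        · have hb : x ∉ Q p := by
            intro hb
            exact h.o x p (by simp [ha]) (by simp [hb])
          simp [ha, hb]
        · simp only [ha, if_false]
          split_ifs <;> norm_num
      refine (Finset.sum_le_sum e3).trans ?_
      have e4 : ∑ x ∈ X, (1 - ind Q p x) ≤ ∑ x ∈ new P Q v, (1 - ind Q p x) := by
        refine Finset.sum_le_sum_of_subset_of_nonneg Finset.inter_subset_right ?_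
        intro x _ _
        have := ind_le_one Q p x
        linarith
      refine e4.trans (le_of_eq ?_)
      rw [Finset.sum_sub_distrib, Finset.sum_const, nsmul_eq_mul, mul_one, qq_eq]
    refine (Finset.sum_le_sum e2).trans (le_of_eq ?_)
    rw [hY]
    unfold ind
    rw [Finset.inter_comm, ← Finset.filter_mem_eq_inter, Finset.sum_filter]
    refine Finset.sum_congr rfl fun p _ => ?_
    split_ifs <;> simp
  have h5 : ∑ p ∈ P v, ind Q w p * ((new P Q v).card - qq P Q v p) =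
      (new P Q v).card * ∑ p ∈ P v, ind Q w p - ∑ p ∈ P v, ind Q w p * qq P Q v p := by
    rw [Finset.mul_sum, ← Finset.sum_sub_distrib]
    refine Finset.sum_congr rfl fun p _ => ?_
    ring
  have h6 := qq_add h hw
  have h7 : ∑ p ∈ P v, ind Q w p = r - qq P Q v w := by linarith
  rw [h5, h7] at h4
  nlinarith

/-- number of `Q`-arcs from `P v` to `p` -/
def bb (P Q : V → Finset V) (v p : V) : ℤ := ∑ w ∈ P v, ind Q w p

theorem bb_le (h : Tri P Q S r) {v p : V} (hp : p ∈ P v) : bb P Q v p + 1 ≤ qq P Q v p := by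
  have h1 := sum_pair Q h.rot.oP (P v) hp
  rw [h.cP] at h1
  have h2 := qq_add h hp
  unfold bb
  linarith

theorem sum_bb (h : Tri P Q S r) (v : V) :
    ∑ p ∈ P v, bb P Q v p = ∑ w ∈ P v, (r - qq P Q v w) := by
  unfold bb
  rw [Finset.sum_comm]
  refine Finset.sum_congr rfl fun w hw => ?_
  have := qq_add h hw
  linarith

theorem sum_one (h : Tri P Q S r) (v : V) :
    ∑ w ∈ P v, (2 * qq P Q v w * (r - (new Q S w).card) +
      2 * (qq P Q v w * bb P Q v w) - qq P Q v w * (qq P Q v w - 1) -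
      2 * (r - qq P Q v w) * (new P Q v).card) ≤ 0 := by
  have h1 := Finset.sum_le_sum fun w (hw : w ∈ P v) => one h hw
  have h2 : ∑ w ∈ P v, ∑ p ∈ P v, ind Q w p * qq P Q v p =
      ∑ w ∈ P v, qq P Q v w * bb P Q v w := by
    rw [Finset.sum_comm]
    refine Finset.sum_congr rfl fun p _ => ?_
    unfold bb
    rw [Finset.mul_sum]
    exact Finset.sum_congr rfl fun w _ => mul_comm _ _
  rw [Finset.sum_add_distrib, Finset.sum_add_distrib, ← Finset.mul_sum, h2] at h1
  rw [Finset.sum_sub_distrib, Finset.sum_sub_distrib, Finset.sum_add_distrib, ← Finset.mul_sum]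
  linarith

/-- The main inequality: for oriented graphs `P, Q, S` of out-degree `r` without opposite arcs, the
number of new vertices at `v` times the average number of new vertices at the `P`-out-neighbours
of `v` is at least `3 r ^ 2 / 8`. -/
theorem key (h : Tri P Q S r) (hr : 1 ≤ r) (v : V) :
    3 * (r : ℤ) ^ 3 ≤ (new P Q v).card * (8 * ∑ w ∈ P v, ((new Q S w).card : ℤ) - 4 * r) := by
  set ρ : ℤ := ((new P Q v).card : ℤ) with hρ
  have hρ0 : 0 ≤ ρ := Int.natCast_nonneg _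
  have hpt : ∀ w ∈ P v, (3 * (r : ℤ) ^ 2 + 4 * ρ - 8 * ρ * (new Q S w).card +
      4 * (bb P Q v w - (r - qq P Q v w)) * (ρ + r)) ≤
      4 * (2 * qq P Q v w * (r - (new Q S w).card) +
      2 * (qq P Q v w * bb P Q v w) - qq P Q v w * (qq P Q v w - 1) -
      2 * (r - qq P Q v w) * ρ) := by
    intro w hw
    have h1 := bb_le h hw
    have h2 : ((r : ℤ) + 1) ≤ 2 * ((new Q S w).card : ℤ) := by
      exact_mod_cast new_ge h.rot hr w
    have h3 : qq P Q v w ≤ ρ := qq_le v w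
    have h4 : qq P Q v w ≤ r := qq_le_r h hw
    set q := qq P Q v w with hq
    set b := bb P Q v w with hb
    set d : ℤ := ((new Q S w).card : ℤ) with hd
    have e1 : 0 ≤ (ρ - q) * (2 * d - (r + 1)) :=
      mul_nonneg (by linarith) (by linarith)
    have e2 : 0 ≤ (q - b) * ((ρ - q) + (r - q)) :=
      mul_nonneg (by linarith) (by linarith)
    have e3 : 0 ≤ (2 * q - r) ^ 2 := sq_nonneg _
    nlinarith
  have h1 := Finset.sum_le_sum hpt
  have e4 : ∑ w ∈ P v, 4 * (bb P Q v w - (r - qq P Q v w)) * (ρ + r) = 0 := by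
    rw [← Finset.sum_mul, ← Finset.mul_sum, Finset.sum_sub_distrib, sum_bb h v, sub_self,
      mul_zero, zero_mul]
  rw [← Finset.mul_sum, Finset.sum_add_distrib, Finset.sum_sub_distrib, e4, add_zero,
    Finset.sum_const, h.cP, nsmul_eq_mul, ← Finset.mul_sum] at h1
  have h2 := sum_one h v
  rw [← hρ] at h2
  nlinarith


/-- the inequality for one vertex `w`, with the non-arcs counted exactly -/
theorem one_fine (h : Tri P Q S r) {v w : V} (hw : w ∈ P v) :
    2 * qq P Q v w * (r - (new Q S w).card) ≤ qq P Q v w * (qq P Q v w - 1) +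
      2 * ∑ p ∈ P v, ind Q w p * ∑ z ∈ new P Q v, ind Q w z * (1 - ind Q p z) := by
  set X : Finset V := Q w ∩ new P Q v with hX
  set Y : Finset V := Q w ∩ P v with hY
  have hq : (X.card : ℤ) = qq P Q v w := rfl
  have hsub : Q w ⊆ X ∪ Y := by
    intro y hy
    have := sub_new hw hy
    rw [Finset.mem_union] at this ⊢
    rcases this with h1 | h1
    · exact Or.inr (Finset.mem_inter.2 ⟨hy, h1⟩)
    · exact Or.inl (Finset.mem_inter.2 ⟨hy, h1⟩)
  have h1 : ∀ x ∈ X, (r - (new Q S w).card : ℤ) ≤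
      ((S x ∩ X).card : ℤ) + ((S x ∩ Y).card : ℤ) := by
    intro x hx
    have hx1 : x ∈ Q w := (Finset.mem_inter.1 hx).1
    have h2 := qq_add h.rot hx1
    rw [← card_inter] at h2
    have h2' := qq_le (P := Q) (Q := S) w x
    have h3 : (S x ∩ Q w).card ≤ (S x ∩ X).card + (S x ∩ Y).card := by
      refine (Finset.card_le_card ?_).trans (Finset.card_union_le _ _)
      rw [← Finset.inter_union_distrib_left]
      exact Finset.inter_subset_inter_left hsub
    have h5 : ((S x ∩ Q w).card : ℤ) ≤ (S x ∩ X).card + (S x ∩ Y).card := by exact_mod_cast h3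
    linarith
  have h2 := Finset.sum_le_sum h1
  rw [Finset.sum_const, nsmul_eq_mul, Finset.sum_add_distrib, hq] at h2
  have h3 := inner S h.rot.rot.oP X
  rw [hq] at h3
  have h4 : ∑ x ∈ X, ((S x ∩ Y).card : ℤ) ≤
      ∑ p ∈ P v, ind Q w p * ∑ z ∈ new P Q v, ind Q w z * (1 - ind Q p z) := by
    have e1 : ∑ x ∈ X, ((S x ∩ Y).card : ℤ) = ∑ p ∈ Y, ∑ x ∈ X, ind S x p := by
      rw [Finset.sum_comm]
      exact Finset.sum_congr rfl fun x _ => card_inter S x Y
    rw [e1]
    have e2 : ∀ p ∈ Y, ∑ x ∈ X, ind S x p ≤ ∑ z ∈ new P Q v, ind Q w z * (1 - ind Q p z) := by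
      intro p _
      have e3 : ∀ x ∈ X, ind S x p ≤ 1 - ind Q p x := by
        intro x _
        unfold ind
        by_cases ha : p ∈ S x
        · have hb : x ∉ Q p := by
            intro hb
            exact h.o x p (by simp [ha]) (by simp [hb])
          simp [ha, hb]
        · simp only [ha, if_false]
          split_ifs <;> norm_num
      refine (Finset.sum_le_sum e3).trans (le_of_eq ?_)
      rw [hX, Finset.inter_comm, ← Finset.filter_mem_eq_inter, Finset.sum_filter]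
      refine Finset.sum_congr rfl fun z _ => ?_
      unfold ind
      split_ifs <;> simp
    refine (Finset.sum_le_sum e2).trans (le_of_eq ?_)
    rw [hY, Finset.inter_comm, ← Finset.filter_mem_eq_inter, Finset.sum_filter]
    refine Finset.sum_congr rfl fun p _ => ?_
    conv_rhs => rw [ind]
    split_ifs <;> simp
  linarith

/-- the pairs counted in `one_fine`, for one new vertex `z` -/
theorem sum_z (h : Tri P Q S r) (v z : V) :
    2 * ∑ p ∈ P v, (1 - ind Q p z) * ∑ w ∈ P v, ind Q w z * ind Q w p ≤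
      2 * ∑ p ∈ P v, (1 - ind Q p z) * qq P Q v p -
        ((∑ p ∈ P v, (1 - ind Q p z)) ^ 2 + ∑ p ∈ P v, (1 - ind Q p z)) := by
  set M : Finset V := (P v).filter fun p => z ∉ Q p with hM
  have hc : ∀ p : V, (1 - ind Q p z) = if z ∉ Q p then (1 : ℤ) else 0 := by
    intro p
    unfold ind
    by_cases hz : z ∈ Q p <;> simp [hz]
  have hm : ∑ p ∈ P v, (1 - ind Q p z) = (M.card : ℤ) := by
    simp only [hc]
    rw [hM, ← Finset.sum_filter, Finset.sum_const, nsmul_eq_mul, mul_one]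
  have hsum : ∀ g : V → ℤ, ∑ p ∈ P v, (1 - ind Q p z) * g p = ∑ p ∈ M, g p := by
    intro g
    simp only [hc, ite_mul, one_mul, zero_mul]
    rw [hM, ← Finset.sum_filter]
  rw [hm, hsum, hsum]
  -- one vertex `p` of `M`
  have h1 : ∀ p ∈ M, ∑ w ∈ P v, ind Q w z * ind Q w p ≤
      qq P Q v p - ∑ w ∈ M, (1 - ind Q p w) := by
    intro p hp
    have hpA : p ∈ P v := (Finset.mem_filter.1 hp).1
    have e1 : ∑ w ∈ M, (1 - ind Q p w) = ∑ w ∈ P v, (1 - ind Q w z) * (1 - ind Q p w) :=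
      (hsum fun w => 1 - ind Q p w).symm
    have e2 := qq_add h hpA
    have e3 : ∑ w ∈ P v, (ind Q w z * ind Q w p + ind Q p w +
        (1 - ind Q w z) * (1 - ind Q p w)) ≤ ∑ _w ∈ P v, (1 : ℤ) := by
      refine Finset.sum_le_sum fun w _ => ?_
      have e4 := pair Q h.rot.oP w p
      have e5 : ind Q w z = 0 ∨ ind Q w z = 1 := by
        unfold ind
        split_ifs
        · exact Or.inr rfl
        · exact Or.inl rfl
      have e6 : (0 : ℤ) ≤ if w = p then 1 else 0 := by split_ifs <;> norm_num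
      rcases e5 with e5 | e5 <;> rw [e5] <;> linarith
    rw [Finset.sum_const, h.cP, nsmul_eq_mul, mul_one, Finset.sum_add_distrib,
      Finset.sum_add_distrib] at e3
    rw [e1]
    linarith
  have h2 := Finset.sum_le_sum h1
  rw [Finset.sum_sub_distrib] at h2
  have h3 : ∑ p ∈ M, ∑ w ∈ M, (1 - ind Q p w) = (M.card : ℤ) * M.card -
      ∑ p ∈ M, ((Q p ∩ M).card : ℤ) := by
    have e1 : ∀ p ∈ M, ∑ w ∈ M, (1 - ind Q p w) = (M.card : ℤ) - ((Q p ∩ M).card : ℤ) := by
      intro p _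
      rw [Finset.sum_sub_distrib, Finset.sum_const, nsmul_eq_mul, mul_one, card_inter]
    rw [Finset.sum_congr rfl e1, Finset.sum_sub_distrib, Finset.sum_const, nsmul_eq_mul]
  have h4 := inner Q h.rot.oP M
  rw [h3] at h2
  nlinarith

/-- The main inequality, sharper form. -/
theorem key_fine (h : Tri P Q S r) (hr : 1 ≤ r) (v : V) :
    240 * (r : ℤ) ^ 3 + 111 * r ^ 2 * (new P Q v).card ≤
      800 * (new P Q v).card * ∑ w ∈ P v, ((new Q S w).card : ℤ) := by
  set ρ : ℤ := ((new P Q v).card : ℤ) with hρ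
  set U : Finset V := new P Q v with hU
  have hr0 : (1 : ℤ) ≤ r := by exact_mod_cast hr
  have hρ1 : (r : ℤ) + 1 ≤ 2 * ρ := by
    rw [hρ, hU]
    exact_mod_cast new_ge h hr v
  have hg : ∀ w ∈ P v, ((r : ℤ) + 1) ≤ 2 * ((new Q S w).card : ℤ) := fun w _ => by
    exact_mod_cast new_ge h.rot hr w
  set G : ℤ := ∑ w ∈ P v, ((new Q S w).card : ℤ) with hG
  have hGr : (r : ℤ) * (r + 1) ≤ 2 * G := by
    have := Finset.sum_le_sum hg
    rw [Finset.sum_const, h.cP, nsmul_eq_mul, ← Finset.mul_sum] at this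
    exact this
  rcases le_or_gt (800 * ρ) (680 * r - 400) with hc | hc
  swap
  · -- the trivial bound suffices
    have e1 : ρ * (r * (r + 1)) ≤ ρ * (2 * G) := mul_le_mul_of_nonneg_left hGr (by linarith)
    have e2 : (680 * r - 399 : ℤ) ≤ 800 * ρ := by linarith
    have e3 : (289 * (r : ℤ) ^ 2 + 400 * r) * (680 * r - 399) ≤
        (289 * (r : ℤ) ^ 2 + 400 * r) * (800 * ρ) :=
      mul_le_mul_of_nonneg_left e2 (by positivity)
    have e4 : 0 ≤ ((r : ℤ) - 1) * r := mul_nonneg (by linarith) (by linarith)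
    have e5 : 0 ≤ ((r : ℤ) - 1) * r * r := mul_nonneg e4 (by linarith)
    nlinarith
  · have h1 := Finset.sum_le_sum fun w (hw : w ∈ P v) => one_fine h hw
    rw [Finset.sum_add_distrib, ← Finset.mul_sum] at h1
    -- the exchange of sums
    have h2 : ∑ w ∈ P v, ∑ p ∈ P v, ind Q w p * ∑ z ∈ U, ind Q w z * (1 - ind Q p z) =
        ∑ z ∈ U, ∑ p ∈ P v, (1 - ind Q p z) * ∑ w ∈ P v, ind Q w z * ind Q w p := by
      have e1 : ∀ w ∈ P v, ∑ p ∈ P v, ind Q w p * ∑ z ∈ U, ind Q w z * (1 - ind Q p z) =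
          ∑ z ∈ U, ∑ p ∈ P v, (1 - ind Q p z) * (ind Q w z * ind Q w p) := by
        intro w _
        rw [Finset.sum_comm]
        refine Finset.sum_congr rfl fun p _ => ?_
        rw [Finset.mul_sum]
        refine Finset.sum_congr rfl fun z _ => ?_
        ring
      rw [Finset.sum_congr rfl e1, Finset.sum_comm]
      refine Finset.sum_congr rfl fun z _ => ?_
      rw [Finset.sum_comm]
      refine Finset.sum_congr rfl fun p _ => ?_
      rw [Finset.mul_sum]
    rw [h2] at h1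
    have h3 := Finset.sum_le_sum fun z (_ : z ∈ U) => sum_z h v z
    rw [← Finset.mul_sum, Finset.sum_sub_distrib, ← Finset.mul_sum] at h3
    have h4 : ∑ z ∈ U, ∑ p ∈ P v, (1 - ind Q p z) * qq P Q v p =
        ∑ p ∈ P v, (ρ - qq P Q v p) * qq P Q v p := by
      rw [Finset.sum_comm]
      refine Finset.sum_congr rfl fun p _ => ?_
      rw [← Finset.sum_mul, Finset.sum_sub_distrib, Finset.sum_const, nsmul_eq_mul, mul_one,
        ← qq_eq]
    have h5 : ∑ z ∈ U, ∑ p ∈ P v, (1 - ind Q p z) = ∑ p ∈ P v, (ρ - qq P Q v p) := by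
      rw [Finset.sum_comm]
      refine Finset.sum_congr rfl fun p _ => ?_
      rw [Finset.sum_sub_distrib, Finset.sum_const, nsmul_eq_mul, mul_one, ← qq_eq]
    have h6 : ∑ z ∈ U, (120 * (r : ℤ) * (∑ p ∈ P v, (1 - ind Q p z)) - 9 * r ^ 2) ≤
        ∑ z ∈ U, 400 * (∑ p ∈ P v, (1 - ind Q p z)) ^ 2 := by
      refine Finset.sum_le_sum fun z _ => ?_
      nlinarith [sq_nonneg (20 * (∑ p ∈ P v, (1 - ind Q p z)) - 3 * (r : ℤ))]
    rw [Finset.sum_sub_distrib, ← Finset.mul_sum, h5, Finset.sum_const, nsmul_eq_mul,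
      ← Finset.mul_sum] at h6
    rw [Finset.sum_add_distrib, h4, h5] at h3
    -- pointwise
    have h7 : ∑ w ∈ P v, (400 * qq P Q v w * (r - 1) - 800 * ρ * (new Q S w).card +
        400 * ρ * (r + 1)) ≤ ∑ w ∈ P v, 400 * (2 * qq P Q v w * (r - (new Q S w).card)) := by
      refine Finset.sum_le_sum fun w hw => ?_
      have e1 : qq P Q v w ≤ ρ := qq_le v w
      have e2 : 0 ≤ (ρ - qq P Q v w) * (2 * ((new Q S w).card : ℤ) - (r + 1)) :=
        mul_nonneg (by linarith) (by linarith [hg w hw])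
      nlinarith
    rw [← Finset.mul_sum] at h7
    have h8 : ∑ w ∈ P v, (400 * (qq P Q v w * (qq P Q v w - 1)) +
        800 * ((ρ - qq P Q v w) * qq P Q v w) - (120 * r + 400) * (ρ - qq P Q v w)) ≤
        ∑ w ∈ P v, (qq P Q v w * (800 * ρ - 280 * r) - ρ * (120 * r + 400) + 100 * r ^ 2) := by
      refine Finset.sum_le_sum fun w _ => ?_
      nlinarith [sq_nonneg (2 * qq P Q v w - (r : ℤ))]
    have hZ : (r : ℤ) * (r + 1) ≤ 2 * ∑ w ∈ P v, qq P Q v w := by
      have e1 := inner Q h.rot.oP (P v)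
      have e2 : ∑ p ∈ P v, ((r : ℤ) - qq P Q v p) = ∑ p ∈ P v, ((Q p ∩ P v).card : ℤ) := by
        refine Finset.sum_congr rfl fun p hp => ?_
        have := qq_add h hp
        rw [card_inter]
        linarith
      rw [h.cP, ← e2, Finset.sum_sub_distrib, Finset.sum_const, h.cP, nsmul_eq_mul] at e1
      linarith
    set Z : ℤ := ∑ w ∈ P v, qq P Q v w with hZd
    have h9 : ∑ w ∈ P v, (400 * qq P Q v w * (r - 1) - 800 * ρ * (new Q S w).card +
        400 * ρ * (r + 1)) = 400 * (r - 1) * Z - 800 * ρ * G + r * (400 * ρ * (r + 1)) := by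
      rw [Finset.sum_add_distrib, Finset.sum_sub_distrib, Finset.sum_const, h.cP, nsmul_eq_mul,
        ← Finset.mul_sum, ← Finset.sum_mul, ← Finset.mul_sum]
      ring
    have h10 : ∑ w ∈ P v, (qq P Q v w * (800 * ρ - 280 * r) - ρ * (120 * r + 400) +
        100 * r ^ 2) = Z * (800 * ρ - 280 * r) - r * (ρ * (120 * r + 400)) + r * (100 * r ^ 2) := by
      rw [Finset.sum_add_distrib, Finset.sum_sub_distrib, Finset.sum_const, Finset.sum_const,
        h.cP, nsmul_eq_mul, nsmul_eq_mul, ← Finset.sum_mul]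
    have h11 : ∑ w ∈ P v, (400 * (qq P Q v w * (qq P Q v w - 1)) +
        800 * ((ρ - qq P Q v w) * qq P Q v w) - (120 * r + 400) * (ρ - qq P Q v w)) =
        400 * ∑ w ∈ P v, qq P Q v w * (qq P Q v w - 1) +
        800 * ∑ w ∈ P v, (ρ - qq P Q v w) * qq P Q v w -
        (120 * r + 400) * ∑ w ∈ P v, (ρ - qq P Q v w) := by
      rw [Finset.sum_sub_distrib, Finset.sum_add_distrib, ← Finset.mul_sum, ← Finset.mul_sum,
        ← Finset.mul_sum]
    rw [h9] at h7
    rw [h10, h11] at h8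
    have h12 : 0 ≤ (680 * r - 400 - 800 * ρ) * (2 * Z - r * (r + 1)) :=
      mul_nonneg (by linarith) (by linarith)
    have h13 : 0 ≤ (r : ℤ) * (2 * ρ - (r + 1)) := mul_nonneg (by linarith) (by linarith)
    have h14 : 0 ≤ (r : ℤ) ^ 2 := sq_nonneg _
    nlinarith

/-- a vertex with large in-degrees -/
theorem exists_vertex [Nonempty V] (h : Tri P Q S r) :
    ∃ v : V, 2 * (r : ℤ) ^ 2 ≤ r * indeg S v + ∑ w ∈ P v, (indeg P w : ℤ) := by
  by_contra hcon
  push Not at hcon
  have h1 : ∑ v : V, ((r : ℤ) * indeg S v + ∑ w ∈ P v, (indeg P w : ℤ)) <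
      ∑ _v : V, 2 * (r : ℤ) ^ 2 :=
    Finset.sum_lt_sum_of_nonempty Finset.univ_nonempty fun v _ => hcon v
  have hS : ∑ v : V, (indeg S v : ℤ) = Fintype.card V * r := by
    rw [sum_indeg]
    simp [h.cS]
  have hP : ∑ v : V, (indeg P v : ℤ) = Fintype.card V * r := by
    rw [sum_indeg]
    simp [h.cP]
  have h2 : ∑ v : V, ∑ w ∈ P v, (indeg P w : ℤ) = ∑ w : V, (indeg P w : ℤ) * indeg P w :=
    sum_weight P fun w => (indeg P w : ℤ)
  have h3 : ∑ w : V, (2 * (r : ℤ) * indeg P w - (r : ℤ) ^ 2) ≤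
      ∑ w : V, (indeg P w : ℤ) * indeg P w := by
    refine Finset.sum_le_sum fun w _ => ?_
    nlinarith [sq_nonneg ((indeg P w : ℤ) - r)]
  rw [Finset.sum_sub_distrib, ← Finset.mul_sum, hP, Finset.sum_const, nsmul_eq_mul,
    Finset.card_univ] at h3
  rw [Finset.sum_add_distrib, ← Finset.mul_sum, hS, h2, Finset.sum_const, nsmul_eq_mul,
    Finset.card_univ] at h1
  nlinarith

theorem not_mem_new (h : Tri P Q S r) (v : V) : v ∉ P v ∪ new P Q v := by
  intro hv
  unfold new at hv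
  rw [Finset.mem_union, Finset.mem_sdiff, Finset.mem_biUnion] at hv
  rcases hv with hv | ⟨⟨w, hw, hv⟩, _⟩
  · exact h.oP v v hv hv
  · exact h.o v w (by simp [hw]) (by simp [hv])

theorem card_two (h : Tri P Q S r) (v : V) :
    (P v ∪ new P Q v).card = r + (new P Q v).card := by
  rw [Finset.card_union_of_disjoint (disj_new v), h.cP]

/-- `v`, its out-neighbours, the new vertices and the in-neighbours in `S` are disjoint -/
theorem star (h : Tri P Q S r) (ht : ∀ x y z, y ∈ P x → z ∈ Q y → x ∉ S z) (v : V) :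
    (new P Q v).card + r + 1 + indeg S v ≤ Fintype.card V := by
  have hd : Disjoint (insert v (P v ∪ new P Q v)) (univ.filter fun u => v ∈ S u) := by
    rw [Finset.disjoint_left]
    intro u hu hu2
    rw [Finset.mem_filter] at hu2
    have hu3 := hu2.2
    unfold new at hu
    rw [Finset.mem_insert, Finset.mem_union, Finset.mem_sdiff, Finset.mem_biUnion] at hu
    rcases hu with rfl | hu | ⟨⟨w, hw, hu⟩, _⟩
    · exact h.o u u (by simp [hu3]) (by simp [hu3])
    · exact h.o v u (by simp [hu]) (by simp [hu3])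
    · exact ht v w u hw hu hu3
  have h1 := Finset.card_union_of_disjoint hd
  have h2 : (insert v (P v ∪ new P Q v) ∪ (univ.filter fun u => v ∈ S u)).card ≤
    Fintype.card V := Finset.card_le_univ _
  rw [h1, Finset.card_insert_of_notMem (not_mem_new h v), card_two h] at h2
  unfold indeg
  omega

/-- three graphs -/
theorem no_three [Nonempty V] (h : Tri P Q S r) (hr : 1 ≤ r)
    (ht : ∀ x y z, y ∈ P x → z ∈ Q y → x ∉ S z)
    (hn : (4 * Fintype.card V : ℤ) ≤ 8 * r + 5 ∨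
      (4 * (Fintype.card V : ℤ) - 8 * r - 5) ^ 2 < 6 * r ^ 2) : False := by
  obtain ⟨v, hv⟩ := exists_vertex h
  have h1 := key h hr v
  have h2 := star h ht v
  have h3 : ∀ w ∈ P v, ((new Q S w).card : ℤ) ≤ (Fintype.card V : ℤ) - r - 1 - indeg P w := by
    intro w _
    have h4 := star h.rot (fun x y z hy hz hx => ht z x y hx hy hz) w
    have h5 : ((new Q S w).card + r + 1 + indeg P w : ℤ) ≤ Fintype.card V := by
      exact_mod_cast h4
    linarith
  have h4 := Finset.sum_le_sum h3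
  rw [Finset.sum_sub_distrib, Finset.sum_const, h.cP, nsmul_eq_mul] at h4
  have h5 : ((new P Q v).card + r + 1 + indeg S v : ℤ) ≤ Fintype.card V := by
    exact_mod_cast h2
  set n : ℤ := (Fintype.card V : ℤ) with hn'
  set ρ : ℤ := ((new P Q v).card : ℤ) with hρ
  set T : ℤ := ∑ w ∈ P v, ((new Q S w).card : ℤ) with hT
  obtain ⟨a, ha⟩ : ∃ a : ℤ, a = n - 1 - r - indeg S v := ⟨_, rfl⟩
  have hρ0 : 0 ≤ ρ := Int.natCast_nonneg _
  have hr0 : (1 : ℤ) ≤ r := by exact_mod_cast hr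
  have hρa : ρ ≤ a := by linarith
  have h6 : 8 * T - 4 * r ≤ r * (8 * (2 * n - 4 * r - 2 - a) - 4) := by
    have h7 : (indeg S v : ℤ) = n - 1 - r - a := by linarith
    rw [h7] at hv
    nlinarith
  have h8 : 0 < (r : ℤ) ^ 3 := by positivity
  have h9 : 0 < 8 * T - 4 * r := by
    by_contra hc
    push Not at hc
    have := mul_nonpos_of_nonneg_of_nonpos hρ0 hc
    linarith
  have h10 : 3 * (r : ℤ) ^ 3 ≤ a * (r * (8 * (2 * n - 4 * r - 2 - a) - 4)) := by
    calc 3 * (r : ℤ) ^ 3 ≤ ρ * (8 * T - 4 * r) := h1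
      _ ≤ a * (8 * T - 4 * r) := mul_le_mul_of_nonneg_right hρa h9.le
      _ ≤ _ := mul_le_mul_of_nonneg_left h6 (by linarith)
  have h11 : 3 * (r : ℤ) ^ 2 ≤ a * (8 * (2 * n - 4 * r - 2 - a) - 4) := by
    by_contra hc
    push Not at hc
    have h12 := mul_lt_mul_of_pos_left hc (show (0 : ℤ) < r by linarith)
    have e1 : (r : ℤ) * (3 * r ^ 2) = 3 * r ^ 3 := by ring
    have e2 : (r : ℤ) * (a * (8 * (2 * n - 4 * r - 2 - a) - 4)) =
      a * (r * (8 * (2 * n - 4 * r - 2 - a) - 4)) := by ring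
    linarith
  have ha0 : 0 ≤ a := by linarith
  have hr2 : 0 < (r : ℤ) ^ 2 := by positivity
  rcases hn with hn | hn
  · have h12 : 0 ≤ a * (8 * r + 5 - 4 * n) := mul_nonneg ha0 (by linarith)
    nlinarith
  · nlinarith [sq_nonneg (4 * n - 8 * r - 5 - 4 * a)]

end Main

section Four

/-- lazy arcs -/
def lz (P : V → Finset V) (x y : V) : Prop := y = x ∨ y ∈ P x

/-- four graphs without a nontrivial lazy closed walk -/
structure Quad (P Q S T : V → Finset V) (r : ℕ) : Prop where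
  cP : ∀ v, (P v).card = r
  cQ : ∀ v, (Q v).card = r
  cS : ∀ v, (S v).card = r
  cT : ∀ v, (T v).card = r
  oP : ∀ x y, y ∈ P x → x ∉ P y
  oQ : ∀ x y, y ∈ Q x → x ∉ Q y
  oS : ∀ x y, y ∈ S x → x ∉ S y
  oT : ∀ x y, y ∈ T x → x ∉ T y
  c : ∀ x y z u, lz P x y → lz Q y z → lz S z u → lz T u x → x = y ∧ x = z ∧ x = u

variable {P Q S T : V → Finset V} {r : ℕ}

theorem Quad.rot (h : Quad P Q S T r) : Quad Q S T P r where
  cP := h.cQ
  cQ := h.cS
  cS := h.cT
  cT := h.cP
  oP := h.oQ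
  oQ := h.oS
  oS := h.oT
  oT := h.oP
  c := by
    intro x y z u h1 h2 h3 h4
    obtain ⟨e1, e2, e3⟩ := h.c u x y z h4 h1 h2 h3
    exact ⟨by rw [← e1, ← e2], by rw [← e1, ← e3], e1.symm⟩

theorem lz_refl (P : V → Finset V) (x : V) : lz P x x := Or.inl rfl

theorem Quad.ne (h : Quad P Q S T r) {x y : V} (hy : y ∈ P x) : x ≠ y := by
  rintro rfl
  exact h.oP x x hy hy

theorem Quad.tri (h : Quad P Q S T r) : Tri P Q S r where
  cP := h.cP
  cQ := h.cQ
  cS := h.cS
  o := by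
    intro x y hy hx
    rw [Finset.mem_union, Finset.mem_union] at hy hx
    rcases hy with (hy | hy) | hy <;> rcases hx with (hx | hx) | hx
    · exact h.oP x y hy hx
    · exact h.ne hy (h.c x y x x (Or.inr hy) (Or.inr hx) (lz_refl _ _) (lz_refl _ _)).1
    · exact h.ne hy (h.c x y y x (Or.inr hy) (lz_refl _ _) (Or.inr hx) (lz_refl _ _)).1
    · exact h.ne hx (h.c y x y y (Or.inr hx) (Or.inr hy) (lz_refl _ _) (lz_refl _ _)).1
    · exact h.oQ x y hy hx
    · exact h.rot.ne hy (h.c x x y x (lz_refl _ _) (Or.inr hy) (Or.inr hx) (lz_refl _ _)).2.1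
    · exact h.ne hx (h.c y x x y (Or.inr hx) (lz_refl _ _) (Or.inr hy) (lz_refl _ _)).1
    · exact h.rot.ne hx (h.c y y x y (lz_refl _ _) (Or.inr hx) (Or.inr hy) (lz_refl _ _)).2.1
    · exact h.oS x y hy hx

/-- reach in two lazy steps -/
theorem lz_two {v u : V} (hu : u ∈ P v ∪ new P Q v) : ∃ w, lz P v w ∧ lz Q w u := by
  unfold new at hu
  rw [Finset.mem_union, Finset.mem_sdiff, Finset.mem_biUnion] at hu
  rcases hu with hu | ⟨⟨w, hw, hu⟩, _⟩
  · exact ⟨u, Or.inr hu, lz_refl _ _⟩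
  · exact ⟨w, Or.inr hw, Or.inr hu⟩

/-- the three-step set and the in-neighbours are disjoint -/
theorem Quad.star (h : Quad P Q S T r) (v : V) {x : V} (hx : x ∈ P v ∪ new P Q v) :
    1 + indeg T v + (P v ∪ new P Q v).card + r ≤
      Fintype.card V + (S x ∩ (P v ∪ new P Q v)).card := by
  set F : Finset V := P v ∪ new P Q v with hF
  obtain ⟨w, hw1, hw2⟩ := lz_two hx
  have hvF : v ∉ F := not_mem_new h.tri v
  have hxv : v ≠ x := fun e => hvF (e ▸ hx)
  have hv : v ∉ F ∪ S x := by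
    intro hv
    rw [Finset.mem_union] at hv
    rcases hv with hv | hv
    · exact hvF hv
    · exact hxv (h.c v w x v hw1 hw2 (Or.inr hv) (lz_refl _ _)).2.1
  have hd : Disjoint (insert v (F ∪ S x)) (univ.filter fun u => v ∈ T u) := by
    rw [Finset.disjoint_left]
    intro u hu hu2
    rw [Finset.mem_filter] at hu2
    have hu3 := hu2.2
    rw [Finset.mem_insert, Finset.mem_union] at hu
    rcases hu with rfl | hu | hu
    · exact h.oT u u hu3 hu3
    · obtain ⟨w', h3, h4⟩ := lz_two hu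
      have := (h.c v w' u u h3 h4 (lz_refl _ _) (Or.inr hu3)).2.1
      exact hvF (this ▸ hu)
    · exact hxv (h.c v w x u hw1 hw2 (Or.inr hu) (Or.inr hu3)).2.1
  have h3 := Finset.card_union_of_disjoint hd
  have h4 : (insert v (F ∪ S x) ∪ (univ.filter fun u => v ∈ T u)).card ≤ Fintype.card V :=
    Finset.card_le_univ _
  rw [h3, Finset.card_insert_of_notMem hv] at h4
  have h5 := Finset.card_union_add_card_inter F (S x)
  rw [h.cS, Finset.inter_comm] at h5
  unfold indeg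
  omega

/-- in-degrees and three-step sets -/
theorem Quad.indeg_quad (h : Quad P Q S T r) (v : V) :
    2 * ((new P Q v).card : ℤ) * (1 + indeg T v + 2 * r + (new P Q v).card - Fintype.card V) ≤
      (new P Q v).card * ((new P Q v).card - 1) + 2 * r * (new P Q v).card - r * (r + 1) := by
  set U : Finset V := new P Q v with hU
  have hFc : (P v ∪ U).card = r + U.card := card_two h.tri v
  -- lower bound for the inner arcs
  have h1 : ∀ y ∈ U, (1 + indeg T v + 2 * r + U.card - Fintype.card V : ℤ) ≤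
      ((S y ∩ U).card : ℤ) + ((S y ∩ P v).card : ℤ) := by
    intro y hy
    have h2 := h.star v (x := y) (Finset.mem_union_right _ hy)
    rw [← hU, hFc] at h2
    have h3 : (S y ∩ (P v ∪ U)).card ≤ (S y ∩ U).card + (S y ∩ P v).card := by
      rw [Finset.inter_union_distrib_left, Finset.union_comm]
      exact Finset.card_union_le _ _
    omega
  have h2 := Finset.sum_le_sum h1
  rw [Finset.sum_const, nsmul_eq_mul, Finset.sum_add_distrib] at h2
  have h3 := inner S h.oS U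
  have h4 : ∑ y ∈ U, ((S y ∩ P v).card : ℤ) ≤ ∑ p ∈ P v, ((U.card : ℤ) - qq P Q v p) := by
    have e1 : ∑ y ∈ U, ((S y ∩ P v).card : ℤ) = ∑ p ∈ P v, ∑ y ∈ U, ind S y p := by
      rw [Finset.sum_comm]
      exact Finset.sum_congr rfl fun x _ => card_inter S x (P v)
    rw [e1]
    refine Finset.sum_le_sum fun p _ => ?_
    have e3 : ∀ y ∈ U, ind S y p ≤ 1 - ind Q p y := by
      intro y _
      unfold ind
      by_cases ha : p ∈ S y
      · have hb : y ∉ Q p := by
          intro hb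
          exact h.tri.o y p (by simp [ha]) (by simp [hb])
        simp [ha, hb]
      · simp only [ha, if_false]
        split_ifs <;> norm_num
    refine (Finset.sum_le_sum e3).trans (le_of_eq ?_)
    rw [Finset.sum_sub_distrib, Finset.sum_const, nsmul_eq_mul, mul_one, qq_eq]
  have h5 : ∑ p ∈ P v, ((r : ℤ) - qq P Q v p) = ∑ p ∈ P v, ((Q p ∩ P v).card : ℤ) := by
    refine Finset.sum_congr rfl fun p hp => ?_
    have := qq_add h.tri hp
    rw [card_inter]
    linarith
  have h6 := inner Q h.oQ (P v)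
  rw [h.cP, ← h5, Finset.sum_sub_distrib, Finset.sum_const, h.cP, nsmul_eq_mul] at h6
  rw [Finset.sum_sub_distrib, Finset.sum_const, h.cP, nsmul_eq_mul] at h4
  linarith

/-- the in-degrees are at most `n - 2 r - 2` -/
theorem Quad.indeg_le (h : Quad P Q S T r) (hr : 1 ≤ r) (v : V) :
    indeg T v + 2 * r + 2 ≤ Fintype.card V := by
  have hu1 := new_ge h.tri hr v
  have h1 := h.indeg_quad v
  set u : ℤ := ((new P Q v).card : ℤ) with hu
  have hu0 : 0 < u := by
    rw [hu]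
    exact_mod_cast (show 0 < (new P Q v).card by omega)
  have hr0 : (1 : ℤ) ≤ r := by exact_mod_cast hr
  by_contra hcon
  have h7 : (Fintype.card V : ℤ) ≤ indeg T v + 2 * r + 1 := by omega
  have h8 : u * (u - 0) ≤ u * (1 + indeg T v + 2 * r + u - Fintype.card V) :=
    mul_le_mul_of_nonneg_left (by linarith) hu0.le
  nlinarith [sq_nonneg (u - r)]

/-- the sum of the two-step numbers for two opposite windows -/
theorem Quad.sum_le (h : Quad P Q S T r) :
    ∑ v : V, ((new P Q v).card : ℤ) + ∑ v : V, ((new S T v).card : ℤ) ≤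
      Fintype.card V * ((Fintype.card V : ℤ) - 1 - 2 * r) := by
  set B : V → Finset V := fun u => S u ∪ new S T u with hB
  have h1 : ∀ v : V, (1 + (r + (new P Q v).card) + indeg B v : ℤ) ≤ Fintype.card V := by
    intro v
    have hvB : ∀ u, v ∈ B u → u ∉ insert v (P v ∪ new P Q v) := by
      intro u hu hu2
      rw [Finset.mem_insert] at hu2
      rcases hu2 with rfl | hu2
      · exact not_mem_new h.rot.rot.tri u hu
      · obtain ⟨w, h3, h4⟩ := lz_two hu2
        obtain ⟨w', h5, h6⟩ := lz_two hu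
        have := (h.c v w u w' h3 h4 h5 h6).2.1
        exact not_mem_new h.tri v (this ▸ hu2)
    have hd : Disjoint (insert v (P v ∪ new P Q v)) (univ.filter fun u => v ∈ B u) := by
      rw [Finset.disjoint_left]
      intro u hu hu2
      rw [Finset.mem_filter] at hu2
      exact hvB u hu2.2 hu
    have h3 := Finset.card_union_of_disjoint hd
    have h4 : (insert v (P v ∪ new P Q v) ∪ (univ.filter fun u => v ∈ B u)).card ≤
      Fintype.card V := Finset.card_le_univ _
    rw [h3, Finset.card_insert_of_notMem (not_mem_new h.tri v), card_two h.tri] at h4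
    have h5 : (1 + (r + (new P Q v).card) + indeg B v) ≤ Fintype.card V := by
      unfold indeg
      omega
    exact_mod_cast h5
  have h2 := Finset.sum_le_sum fun v (_ : v ∈ (univ : Finset V)) => h1 v
  have h3 : ∑ v : V, (indeg B v : ℤ) = ∑ v : V, ((r : ℤ) + (new S T v).card) := by
    rw [sum_indeg]
    refine Finset.sum_congr rfl fun v _ => ?_
    have := card_two h.rot.rot.tri v
    rw [hB]
    exact_mod_cast this
  rw [Finset.sum_add_distrib, h3, Finset.sum_add_distrib, Finset.sum_add_distrib,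
    Finset.sum_add_distrib, Finset.sum_const, Finset.sum_const, Finset.sum_const,
    nsmul_eq_mul, nsmul_eq_mul, nsmul_eq_mul, Finset.card_univ] at h2
  nlinarith


theorem Quad.window (h : Quad P Q S T r) (hr : 1 ≤ r) (m : ℤ) :
    12 * (r : ℤ) ^ 3 * (m * Fintype.card V - ∑ v : V, ((new P Q v).card : ℤ)) ≤
      m ^ 2 * (4 * (Fintype.card V - 2 * r - 2) *
        (2 * ∑ v : V, ((new Q S v).card : ℤ) - Fintype.card V * (r + 1)) +
        4 * Fintype.card V * r ^ 2) := by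
  set n : ℤ := (Fintype.card V : ℤ) with hn'
  have h1 : ∀ v : V, 12 * (r : ℤ) ^ 3 * (m - (new P Q v).card) ≤
      m ^ 2 * (8 * ∑ w ∈ P v, ((new Q S w).card : ℤ) - 4 * r) := by
    intro v
    have h2 := key h.tri hr v
    have h3 : ((r : ℤ) + 1) ≤ 2 * ((new P Q v).card : ℤ) := by exact_mod_cast new_ge h.tri hr v
    set ρ : ℤ := ((new P Q v).card : ℤ) with hρ
    set Y : ℤ := 8 * ∑ w ∈ P v, ((new Q S w).card : ℤ) - 4 * r with hY
    have hr0 : (1 : ℤ) ≤ r := by exact_mod_cast hr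
    have hρ0 : 0 < ρ := by linarith
    have hr3 : 0 ≤ (r : ℤ) ^ 3 := by positivity
    have h4 : ρ * (12 * (r : ℤ) ^ 3 * (m - ρ)) ≤ ρ * (m ^ 2 * Y) := by
      have e1 : m ^ 2 * (3 * (r : ℤ) ^ 3) ≤ m ^ 2 * (ρ * Y) :=
        mul_le_mul_of_nonneg_left h2 (sq_nonneg m)
      have e2 : 0 ≤ 3 * (r : ℤ) ^ 3 * (m - 2 * ρ) ^ 2 :=
        mul_nonneg (by linarith) (sq_nonneg _)
      nlinarith
    exact le_of_mul_le_mul_left h4 hρ0
  have h2 := Finset.sum_le_sum fun v (_ : v ∈ (univ : Finset V)) => h1 v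
  rw [← Finset.mul_sum, ← Finset.mul_sum, Finset.sum_sub_distrib, Finset.sum_sub_distrib,
    ← Finset.mul_sum, sum_weight P fun w => ((new Q S w).card : ℤ), Finset.sum_const,
    Finset.sum_const, nsmul_eq_mul, nsmul_eq_mul, Finset.card_univ, ← hn'] at h2
  have h3 : ∀ w : V, 8 * ((indeg P w : ℤ) * ((new Q S w).card : ℤ)) ≤
      4 * (n - 2 * r - 2) * (2 * ((new Q S w).card : ℤ) - (r + 1)) +
        4 * (r + 1) * (indeg P w : ℤ) := by
    intro w
    have e1 : (indeg P w + 2 * r + 2 : ℤ) ≤ n := by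
      rw [hn']
      exact_mod_cast h.rot.indeg_le hr w
    have e2 : ((r : ℤ) + 1) ≤ 2 * ((new Q S w).card : ℤ) := by
      exact_mod_cast new_ge h.tri.rot hr w
    have e3 : 0 ≤ (n - 2 * r - 2 - (indeg P w : ℤ)) *
      (2 * ((new Q S w).card : ℤ) - (r + 1)) := mul_nonneg (by linarith) (by linarith)
    nlinarith
  have h4 := Finset.sum_le_sum fun w (_ : w ∈ (univ : Finset V)) => h3 w
  have hP : ∑ v : V, (indeg P v : ℤ) = n * r := by
    rw [sum_indeg]
    simp [h.cP, hn']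
  rw [← Finset.mul_sum, Finset.sum_add_distrib, ← Finset.mul_sum, ← Finset.mul_sum, hP,
    Finset.sum_sub_distrib, ← Finset.mul_sum, Finset.sum_const, nsmul_eq_mul,
    Finset.card_univ, ← hn'] at h4
  have h5 : 12 * (r : ℤ) ^ 3 * (m * n - ∑ v : V, ((new P Q v).card : ℤ)) =
      12 * (r : ℤ) ^ 3 * (n * m - ∑ v : V, ((new P Q v).card : ℤ)) := by ring
  rw [h5]
  refine h2.trans (mul_le_mul_of_nonneg_left ?_ (sq_nonneg m))
  linarith

/-- four graphs -/
theorem no_four [Nonempty V] (h : Quad P Q S T r) (hr : 1 ≤ r)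
    (hn : (Fintype.card V : ℤ) ≤ 3 * r + 1 ∨
      2 * ((Fintype.card V : ℤ) - 1 - 2 * r) * (((Fintype.card V : ℤ) - 2 - 2 * r) *
        ((Fintype.card V : ℤ) - 3 * r - 2) + r ^ 2) < 3 * r ^ 3) : False := by
  have s1 := h.sum_le
  have s2 := h.rot.sum_le
  have w1 := h.window hr ((Fintype.card V : ℤ) - 1 - 2 * r)
  have w2 := h.rot.window hr ((Fintype.card V : ℤ) - 1 - 2 * r)
  have w3 := h.rot.rot.window hr ((Fintype.card V : ℤ) - 1 - 2 * r)
  have w4 := h.rot.rot.rot.window hr ((Fintype.card V : ℤ) - 1 - 2 * r)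
  have hmin : ∀ {A B C : V → Finset V}, Tri A B C r →
      (Fintype.card V : ℤ) * (r + 1) ≤ 2 * ∑ v : V, ((new A B v).card : ℤ) := by
    intro A B C hT
    have h1 := Finset.sum_le_sum fun v (_ : v ∈ (univ : Finset V)) =>
      (show ((r : ℤ) + 1) ≤ 2 * ((new A B v).card : ℤ) by exact_mod_cast new_ge hT hr v)
    rw [Finset.sum_const, nsmul_eq_mul, ← Finset.mul_sum, Finset.card_univ] at h1
    exact h1
  have m1 := hmin h.tri
  have m2 := hmin h.rot.rot.tri
  have hD : (0 : ℤ) ≤ 4 * (Fintype.card V - 2 * r - 2) := by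
    obtain ⟨v⟩ := (inferInstance : Nonempty V)
    have := h.indeg_le hr v
    omega
  have hn0 : (0 : ℤ) < Fintype.card V := by exact_mod_cast Fintype.card_pos
  set n : ℤ := (Fintype.card V : ℤ) with hn'
  set a1 : ℤ := ∑ v : V, ((new P Q v).card : ℤ) with ha1
  set a2 : ℤ := ∑ v : V, ((new Q S v).card : ℤ) with ha2
  set a3 : ℤ := ∑ v : V, ((new S T v).card : ℤ) with ha3
  set a4 : ℤ := ∑ v : V, ((new T P v).card : ℤ) with ha4
  have hr0 : (1 : ℤ) ≤ r := by exact_mod_cast hr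
  have h1 : n * (r + 1) ≤ n * (n - 1 - 2 * r) := by linarith
  have h2 : (r : ℤ) + 1 ≤ n - 1 - 2 * r := le_of_mul_le_mul_left h1 hn0
  obtain ⟨m, hm⟩ : ∃ m : ℤ, m = n - 1 - 2 * r := ⟨_, rfl⟩
  obtain ⟨D, hDD⟩ : ∃ D : ℤ, D = 4 * (n - 2 * r - 2) := ⟨_, rfl⟩
  rw [← hm] at s1 s2 w1 w2 w3 w4 h2 hn
  rw [← hDD] at w1 w2 w3 w4 hD
  have e0 : n - 3 * r - 2 = m - r - 1 := by rw [hm]; ring
  have e00 : 4 * (n - 2 - 2 * r) = D := by rw [hDD]; ring
  rw [e0] at hn
  have hsum : a1 + a2 + a3 + a4 ≤ 2 * (n * m) := by linarith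
  have hw : 12 * (r : ℤ) ^ 3 * (4 * (m * n) - (a1 + a2 + a3 + a4)) ≤
      m ^ 2 * (D * (2 * (a1 + a2 + a3 + a4) - 4 * (n * (r + 1))) + 16 * n * r ^ 2) := by
    have := add_le_add (add_le_add w1 w2) (add_le_add w3 w4)
    refine le_trans (le_of_eq ?_) (this.trans (le_of_eq ?_))
    · ring
    · ring
  have hr3 : 0 < (r : ℤ) ^ 3 := by positivity
  have hm0 : 0 < m := by linarith
  have h3 : 12 * (r : ℤ) ^ 3 * (2 * (m * n)) ≤
      m ^ 2 * (D * (4 * (n * m) - 4 * (n * (r + 1))) + 16 * n * r ^ 2) := by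
    have e1 : 12 * (r : ℤ) ^ 3 * (2 * (m * n)) ≤
        12 * (r : ℤ) ^ 3 * (4 * (m * n) - (a1 + a2 + a3 + a4)) :=
      mul_le_mul_of_nonneg_left (by linarith) (by linarith)
    have e2 : D * (2 * (a1 + a2 + a3 + a4) - 4 * (n * (r + 1))) ≤
        D * (4 * (n * m) - 4 * (n * (r + 1))) := mul_le_mul_of_nonneg_left (by linarith) hD
    have e3 : m ^ 2 * (D * (2 * (a1 + a2 + a3 + a4) - 4 * (n * (r + 1))) + 16 * n * r ^ 2) ≤
        m ^ 2 * (D * (4 * (n * m) - 4 * (n * (r + 1))) + 16 * n * r ^ 2) :=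
      mul_le_mul_of_nonneg_left (by linarith) (sq_nonneg m)
    linarith
  have h4 : (4 * (m * n)) * (6 * (r : ℤ) ^ 3) ≤
      (4 * (m * n)) * (m * (D * (m - r - 1) + 4 * r ^ 2)) := by
    have e1 : (4 * (m * n)) * (6 * (r : ℤ) ^ 3) = 12 * (r : ℤ) ^ 3 * (2 * (m * n)) := by ring
    have e2 : (4 * (m * n)) * (m * (D * (m - r - 1) + 4 * r ^ 2)) =
        m ^ 2 * (D * (4 * (n * m) - 4 * (n * (r + 1))) + 16 * n * r ^ 2) := by ring
    rw [e1, e2]
    exact h3
  have h5 : 6 * (r : ℤ) ^ 3 ≤ m * (D * (m - r - 1) + 4 * r ^ 2) :=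
    le_of_mul_le_mul_left h4 (by positivity)
  rcases hn with hn | hn
  · linarith
  · have e1 : m * (D * (m - r - 1) + 4 * (r : ℤ) ^ 2) =
        2 * (2 * m * ((n - 2 - 2 * r) * (m - r - 1) + r ^ 2)) := by
      rw [← e00]; ring
    linarith


/-- the pointwise inequality for the sharper bound -/
theorem pointwise {r f d m : ℝ} (hr : 1 ≤ r) (hf : r ≤ 2 * f) (hd : 0 ≤ d) (hm : m ≤ 1.23 * r)
    (hD : 2 * (f * d) ≤ 2 * f * (m + r) - f ^ 2 - r ^ 2) :
    800 * (d * f) < 240 * r ^ 3 / f + 111 * r ^ 2 + 1576 * r * (f - m / 2) +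
      409.6 * r * (d - r) := by
  have hf0 : 0 < f := by linarith
  have hr0 : 0 < r := by linarith
  have hrf : 0 < r * f := mul_pos hr0 hf0
  have hm1 : 0 ≤ r * f * (1.23 * r - m) := mul_nonneg hrf.le (by linarith)
  have hfd : 0 ≤ f * d := mul_nonneg hf0.le hd
  have key : 0 < 240 * r ^ 3 + f * (111 * r ^ 2 + 1576 * r * (f - m / 2) +
      409.6 * r * (d - r) - 800 * (d * f)) := by
    rcases le_or_gt (800 * f) (409.6 * r) with hc | hc
    · have e1 : 0 ≤ f * d * (409.6 * r - 800 * f) := mul_nonneg hfd (by linarith)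
      have e2 : 0 ≤ r * ((2 * f - r) * (1576 * (f + r / 2) - 1267.84 * r)) := by
        refine mul_nonneg hr0.le (mul_nonneg (by linarith) ?_)
        nlinarith
      have e3 : 0 < r ^ 3 := by positivity
      nlinarith
    · have e1 : 0 ≤ (800 * f - 409.6 * r) * (2 * f * (m + r) - f ^ 2 - r ^ 2 - 2 * (f * d)) :=
        mul_nonneg (by linarith) (by linarith)
      have e2 : 0 ≤ (800 * f - 409.6 * r) * (f * (1.23 * r - m)) :=
        mul_nonneg (by linarith) (mul_nonneg hf0.le (by linarith))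
      have e3 : 0 ≤ (f - 0.6275 * r) ^ 2 * (400 * f + 89.2 * r) :=
        mul_nonneg (sq_nonneg _) (by positivity)
      have e4 : 0 < r ^ 3 := by positivity
      have e5 : 0 < r ^ 2 * f := by positivity
      nlinarith
  have h1 : -(111 * r ^ 2 + 1576 * r * (f - m / 2) + 409.6 * r * (d - r) - 800 * (d * f)) <
      240 * r ^ 3 / f := by
    rw [lt_div_iff₀ hf0]
    linarith
  linarith

/-- one window of the sharper bound -/
theorem Quad.window_fine [Nonempty V] (h : Quad P Q S T r) (hr : 1 ≤ r) (m : ℝ)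
    (hm : m ≤ 1.23 * r) (hnm : (Fintype.card V : ℝ) ≤ m + 1 + 2 * r) :
    ∑ v : V, (240 * (r : ℝ) ^ 3 / ((new P Q v).card : ℝ)) <
      ∑ v : V, (240 * (r : ℝ) ^ 3 / ((new Q S v).card : ℝ)) +
        1576 * r * (∑ v : V, ((new Q S v).card : ℝ) - Fintype.card V * (m / 2)) := by
  have hr0 : (1 : ℝ) ≤ r := by exact_mod_cast hr
  have h1 : ∀ v : V, 240 * (r : ℝ) ^ 3 / ((new P Q v).card : ℝ) + 111 * (r : ℝ) ^ 2 ≤
      800 * ∑ w ∈ P v, ((new Q S w).card : ℝ) := by
    intro v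
    have e1 := key_fine h.tri hr v
    have e2 := new_ge h.tri hr v
    have e3 : (240 * (r : ℝ) ^ 3 + 111 * r ^ 2 * (new P Q v).card : ℝ) ≤
        800 * (new P Q v).card * ∑ w ∈ P v, ((new Q S w).card : ℝ) := by exact_mod_cast e1
    have e4 : (0 : ℝ) < (new P Q v).card := by
      exact_mod_cast (show 0 < (new P Q v).card by omega)
    rw [div_add' _ _ _ e4.ne', div_le_iff₀ e4]
    linarith
  have h2 := Finset.sum_le_sum fun v (_ : v ∈ (univ : Finset V)) => h1 v
  have h3 : ∑ v : V, ∑ w ∈ P v, ((new Q S w).card : ℝ) =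
      ∑ w : V, (indeg P w : ℝ) * ((new Q S w).card : ℝ) := by
    have := sum_weight P fun w => ((new Q S w).card : ℤ)
    exact_mod_cast this
  have h4 : ∀ w : V, 800 * ((indeg P w : ℝ) * ((new Q S w).card : ℝ)) <
      240 * (r : ℝ) ^ 3 / ((new Q S w).card : ℝ) + 111 * (r : ℝ) ^ 2 +
        1576 * r * (((new Q S w).card : ℝ) - m / 2) + 409.6 * r * ((indeg P w : ℝ) - r) := by
    intro w
    have e1 := h.rot.indeg_quad w
    have e2 := new_ge h.tri.rot hr w
    have e3 : (2 * ((new Q S w).card : ℝ) *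
        (1 + indeg P w + 2 * r + (new Q S w).card - Fintype.card V) : ℝ) ≤
        (new Q S w).card * ((new Q S w).card - 1) + 2 * r * (new Q S w).card -
          r * (r + 1) := by exact_mod_cast e1
    have e4 : ((r : ℝ) + 1) ≤ 2 * ((new Q S w).card : ℝ) := by exact_mod_cast e2
    set f : ℝ := ((new Q S w).card : ℝ) with hf
    set d : ℝ := (indeg P w : ℝ) with hd
    have hf0 : 0 < f := by linarith
    have e5 : 0 ≤ f * (m + 1 + 2 * r - Fintype.card V) := mul_nonneg hf0.le (by linarith)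
    refine pointwise hr0 (by linarith) (Nat.cast_nonneg _) hm ?_
    nlinarith
  have h5 : ∑ w : V, 800 * ((indeg P w : ℝ) * ((new Q S w).card : ℝ)) <
      ∑ w : V, (240 * (r : ℝ) ^ 3 / ((new Q S w).card : ℝ) + 111 * (r : ℝ) ^ 2 +
        1576 * r * (((new Q S w).card : ℝ) - m / 2) + 409.6 * r * ((indeg P w : ℝ) - r)) :=
    Finset.sum_lt_sum_of_nonempty Finset.univ_nonempty fun w _ => h4 w
  have hP : ∑ v : V, (indeg P v : ℝ) = Fintype.card V * r := by
    have e1 : ∑ v : V, (indeg P v : ℤ) = Fintype.card V * r := by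
      rw [sum_indeg]
      simp [h.cP]
    exact_mod_cast e1
  have h6 : ∑ w : V, (240 * (r : ℝ) ^ 3 / ((new Q S w).card : ℝ) + 111 * (r : ℝ) ^ 2 +
        1576 * r * (((new Q S w).card : ℝ) - m / 2) + 409.6 * r * ((indeg P w : ℝ) - r)) =
      ∑ v : V, (240 * (r : ℝ) ^ 3 / ((new Q S v).card : ℝ)) +
        Fintype.card V * (111 * (r : ℝ) ^ 2) +
        1576 * r * (∑ v : V, ((new Q S v).card : ℝ) - Fintype.card V * (m / 2)) +
        409.6 * r * (∑ v : V, (indeg P v : ℝ) - Fintype.card V * r) := by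
    rw [Finset.sum_add_distrib, Finset.sum_add_distrib, Finset.sum_add_distrib]
    congr 1
    · congr 1
      · congr 1
        rw [Finset.sum_const, nsmul_eq_mul, Finset.card_univ]
      · rw [← Finset.mul_sum, Finset.sum_sub_distrib, Finset.sum_const, nsmul_eq_mul,
          Finset.card_univ]
    · rw [← Finset.mul_sum, Finset.sum_sub_distrib, Finset.sum_const, nsmul_eq_mul,
        Finset.card_univ]
  have h7 : ∑ v : V, (240 * (r : ℝ) ^ 3 / ((new P Q v).card : ℝ) + 111 * (r : ℝ) ^ 2) =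
      ∑ v : V, (240 * (r : ℝ) ^ 3 / ((new P Q v).card : ℝ)) +
        Fintype.card V * (111 * (r : ℝ) ^ 2) := by
    rw [Finset.sum_add_distrib, Finset.sum_const, nsmul_eq_mul, Finset.card_univ]
  rw [← Finset.mul_sum, h6, hP, sub_self, mul_zero, add_zero] at h5
  rw [← Finset.mul_sum, h3, h7] at h2
  linarith

/-- four graphs, sharper bound -/
theorem no_four_fine [Nonempty V] (h : Quad P Q S T r) (hr : 1 ≤ r)
    (hn : (100 * Fintype.card V : ℝ) ≤ 323 * r + 100) : False := by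
  obtain ⟨m, hm⟩ : ∃ m : ℝ, m = (Fintype.card V : ℝ) - 1 - 2 * r := ⟨_, rfl⟩
  have hm1 : m ≤ 1.23 * r := by linarith
  have hm2 : (Fintype.card V : ℝ) ≤ m + 1 + 2 * r := by linarith
  have w1 := h.window_fine hr m hm1 hm2
  have w2 := h.rot.window_fine hr m hm1 hm2
  have w3 := h.rot.rot.window_fine hr m hm1 hm2
  have w4 := h.rot.rot.rot.window_fine hr m hm1 hm2
  have s1 : (∑ v : V, ((new P Q v).card : ℝ) + ∑ v : V, ((new S T v).card : ℝ) : ℝ) ≤
      Fintype.card V * ((Fintype.card V : ℝ) - 1 - 2 * r) := by exact_mod_cast h.sum_le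
  have s2 : (∑ v : V, ((new Q S v).card : ℝ) + ∑ v : V, ((new T P v).card : ℝ) : ℝ) ≤
      Fintype.card V * ((Fintype.card V : ℝ) - 1 - 2 * r) := by exact_mod_cast h.rot.sum_le
  rw [← hm] at s1 s2
  have hr0 : (1 : ℝ) ≤ r := by exact_mod_cast hr
  have h1 : 0 ≤ (r : ℝ) * (2 * (Fintype.card V * m) - (∑ v : V, ((new P Q v).card : ℝ) +
      ∑ v : V, ((new S T v).card : ℝ) + ∑ v : V, ((new Q S v).card : ℝ) +
      ∑ v : V, ((new T P v).card : ℝ))) := mul_nonneg (by linarith) (by linarith)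
  linarith

/-- three graphs without a nontrivial lazy closed walk -/
theorem tri_of (cP : ∀ v, (P v).card = r) (cQ : ∀ v, (Q v).card = r) (cS : ∀ v, (S v).card = r)
    (oP : ∀ x y, y ∈ P x → x ∉ P y) (oQ : ∀ x y, y ∈ Q x → x ∉ Q y)
    (oS : ∀ x y, y ∈ S x → x ∉ S y)
    (c : ∀ x y z, lz P x y → lz Q y z → lz S z x → x = y ∧ x = z) :
    Tri P Q S r ∧ ∀ x y z, y ∈ P x → z ∈ Q y → x ∉ S z := by
  have nP : ∀ {x y : V}, y ∈ P x → x ≠ y := by
    rintro x y hy rfl
    exact oP x x hy hy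
  have nQ : ∀ {x y : V}, y ∈ Q x → x ≠ y := by
    rintro x y hy rfl
    exact oQ x x hy hy
  refine ⟨⟨cP, cQ, cS, ?_⟩, ?_⟩
  · intro x y hy hx
    rw [Finset.mem_union, Finset.mem_union] at hy hx
    rcases hy with (hy | hy) | hy <;> rcases hx with (hx | hx) | hx
    · exact oP x y hy hx
    · exact nP hy (c x y x (Or.inr hy) (Or.inr hx) (lz_refl _ _)).1
    · exact nP hy (c x y y (Or.inr hy) (lz_refl _ _) (Or.inr hx)).1
    · exact nP hx (c y x y (Or.inr hx) (Or.inr hy) (lz_refl _ _)).1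
    · exact oQ x y hy hx
    · exact nQ hy (c x x y (lz_refl _ _) (Or.inr hy) (Or.inr hx)).2
    · exact nP hx (c y x x (Or.inr hx) (lz_refl _ _) (Or.inr hy)).1
    · exact nQ hx (c y y x (lz_refl _ _) (Or.inr hx) (Or.inr hy)).2
    · exact oS x y hy hx
  · intro x y z hy hz hx
    exact nP hy (c x y z (Or.inr hy) (Or.inr hz) (Or.inr hx)).1

end Four

section Matrices

open Matrix

variable {n r : ℕ}

/-- only trivial closed walks contribute to a trace that is at most `n` -/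
theorem closed (A B C D : Matrix (Fin n) (Fin n) ℕ) (hA : ∀ i, A i i = 1) (hB : ∀ i, B i i = 1)
    (hC : ∀ i, C i i = 1) (hD : ∀ i, D i i = 1) (ht : Matrix.trace (A * B * C * D) ≤ n)
    (x y z u : Fin n) (h1 : A x y = 1) (h2 : B y z = 1) (h3 : C z u = 1) (h4 : D u x = 1) :
    x = y ∧ x = z ∧ x = u := by
  by_contra hcon
  have hex : ∀ i, (A * B * C * D) i i = ∑ p : Fin n × Fin n × Fin n,
      A i p.2.2 * B p.2.2 p.2.1 * C p.2.1 p.1 * D p.1 i := by
    intro i
    simp only [Matrix.mul_apply, Finset.sum_mul, Fintype.sum_prod_type]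
  have hge : ∀ i, 1 ≤ (A * B * C * D) i i := by
    intro i
    rw [hex]
    refine le_trans ?_ (Finset.single_le_sum
      (f := fun p : Fin n × Fin n × Fin n =>
        A i p.2.2 * B p.2.2 p.2.1 * C p.2.1 p.1 * D p.1 i)
      (fun _ _ => Nat.zero_le _) (Finset.mem_univ (i, i, i)))
    simp [hA, hB, hC, hD]
  have hgt : 1 < (A * B * C * D) x x := by
    rw [hex]
    have hne : (x, x, x) ≠ (u, z, y) := by
      intro he
      simp only [Prod.mk.injEq] at he
      exact hcon ⟨he.2.2, he.2.1, he.1⟩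
    have h5 : ∑ p ∈ {(x, x, x), (u, z, y)}, A x p.2.2 * B p.2.2 p.2.1 * C p.2.1 p.1 * D p.1 x ≤
        ∑ p : Fin n × Fin n × Fin n, A x p.2.2 * B p.2.2 p.2.1 * C p.2.1 p.1 * D p.1 x :=
      Finset.sum_le_sum_of_subset (Finset.subset_univ _)
    rw [Finset.sum_pair hne] at h5
    simp only [hA, hB, hC, hD, h1, h2, h3, h4, mul_one] at h5
    omega
  have hsum : ∑ _i : Fin n, 1 < ∑ i : Fin n, (A * B * C * D) i i :=
    Finset.sum_lt_sum (fun i _ => hge i) ⟨x, Finset.mem_univ _, hgt⟩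
  have ht' : ∑ i : Fin n, (A * B * C * D) i i ≤ n := ht
  simp only [Finset.sum_const, Finset.card_univ, Fintype.card_fin, smul_eq_mul, mul_one] at hsum
  omega

/-- exactly `r` out-neighbours for every vertex -/
theorem sel (M : Matrix (Fin n) (Fin n) ℕ) (h01 : ∀ i j, M i j = 0 ∨ M i j = 1)
    (hd : ∀ i, M i i = 1) (ha : ∀ i j, i ≠ j → M i j = 1 → M j i ≠ 1)
    (hrow : ∀ i, r + 1 ≤ ∑ j, M i j) :
    ∃ P : Fin n → Finset (Fin n), (∀ v, (P v).card = r) ∧ (∀ v j, j ∈ P v → M v j = 1) ∧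
      ∀ x y, y ∈ P x → x ∉ P y := by
  have h1 : ∀ v, r ≤ (Finset.univ.filter fun j => j ≠ v ∧ M v j = 1).card := by
    intro v
    have e1 : ∑ j, M v j = (Finset.univ.filter fun j => M v j = 1).card := by
      rw [Finset.card_filter]
      refine Finset.sum_congr rfl fun j _ => ?_
      rcases h01 v j with h | h <;> simp [h]
    have e2 : (Finset.univ.filter fun j => j ≠ v ∧ M v j = 1) =
        (Finset.univ.filter fun j => M v j = 1).erase v := by
      ext j
      simp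
    have e3 : v ∈ Finset.univ.filter fun j => M v j = 1 := by simp [hd]
    rw [e2, Finset.card_erase_of_mem e3, ← e1]
    have := hrow v
    omega
  have h2 : ∀ v, ∃ T ⊆ Finset.univ.filter (fun j => j ≠ v ∧ M v j = 1), T.card = r :=
    fun v => Finset.exists_subset_card_eq (h1 v)
  choose P hP hPc using h2
  have h3 : ∀ v j, j ∈ P v → j ≠ v ∧ M v j = 1 := by
    intro v j hj
    have := hP v hj
    simpa using this
  refine ⟨P, hPc, fun v j hj => (h3 v j hj).2, fun x y hy hx => ?_⟩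
  exact ha x y (h3 x y hy).1.symm (h3 x y hy).2 (h3 y x hx).2

theorem lz_one {M : Matrix (Fin n) (Fin n) ℕ} (hd : ∀ i, M i i = 1)
    {P : Fin n → Finset (Fin n)} (hP : ∀ v j, j ∈ P v → M v j = 1) {x y : Fin n}
    (h : lz P x y) : M x y = 1 := by
  rcases h with rfl | h
  · exact hd _
  · exact hP _ _ h

/-- one matrix: `n ≥ 2 r + 1` -/
theorem two_lt (hn : 1 ≤ n) (M : Matrix (Fin n) (Fin n) ℕ) (h01 : ∀ i j, M i j = 0 ∨ M i j = 1)
    (hd : ∀ i, M i i = 1) (ha : ∀ i j, i ≠ j → M i j = 1 → M j i ≠ 1)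
    (hrow : ∀ i, r + 1 ≤ ∑ j, M i j) : 2 * r + 1 ≤ n := by
  obtain ⟨P, hPc, _, hPo⟩ := sel M h01 hd ha hrow
  have hne : (Finset.univ : Finset (Fin n)).Nonempty := ⟨⟨0, hn⟩, Finset.mem_univ _⟩
  obtain ⟨x, _, hx⟩ := exists_few P hPo hne
  rw [Finset.inter_univ, hPc, Finset.card_univ, Fintype.card_fin] at hx
  exact hx

/-- the admissible matrices with row sums at least `r + 1` -/
structure Adm (M : Matrix (Fin n) (Fin n) ℕ) (r : ℕ) : Prop where
  h01 : ∀ i j, M i j = 0 ∨ M i j = 1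
  hd : ∀ i, M i i = 1
  ha : ∀ i j, i ≠ j → M i j = 1 → M j i ≠ 1
  hrow : ∀ i, r + 1 ≤ ∑ j, M i j

theorem three (hn : 1 ≤ n) (hr : 1 ≤ r) (A B C : Matrix (Fin n) (Fin n) ℕ) (hA : Adm A r)
    (hB : Adm B r) (hC : Adm C r)
    (h : (4 * n : ℤ) ≤ 8 * r + 5 ∨ (4 * (n : ℤ) - 8 * r - 5) ^ 2 < 6 * r ^ 2) :
    n < Matrix.trace (A * B * C) := by
  by_contra hcon
  push Not at hcon
  obtain ⟨P, cP, mP, oP⟩ := sel A hA.h01 hA.hd hA.ha hA.hrow
  obtain ⟨Q, cQ, mQ, oQ⟩ := sel B hB.h01 hB.hd hB.ha hB.hrow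
  obtain ⟨S, cS, mS, oS⟩ := sel C hC.h01 hC.hd hC.ha hC.hrow
  have hc := closed A B C 1 hA.hd hB.hd hC.hd (fun i => Matrix.one_apply_eq i)
    (by rw [Matrix.mul_one]; exact hcon)
  obtain ⟨hT, ht⟩ := tri_of cP cQ cS oP oQ oS (fun x y z h1 h2 h3 => by
    have := hc x y z x (lz_one hA.hd mP h1) (lz_one hB.hd mQ h2) (lz_one hC.hd mS h3)
      (Matrix.one_apply_eq x)
    exact ⟨this.1, this.2.1⟩)
  have : Nonempty (Fin n) := ⟨⟨0, hn⟩⟩
  refine no_three hT hr ht ?_
  rw [Fintype.card_fin]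
  exact h

theorem four (hn : 1 ≤ n) (hr : 1 ≤ r) (A B C D : Matrix (Fin n) (Fin n) ℕ) (hA : Adm A r)
    (hB : Adm B r) (hC : Adm C r) (hD : Adm D r)
    (h : (n : ℤ) ≤ 3 * r + 1 ∨ 2 * ((n : ℤ) - 1 - 2 * r) * (((n : ℤ) - 2 - 2 * r) *
        ((n : ℤ) - 3 * r - 2) + r ^ 2) < 3 * r ^ 3) :
    n < Matrix.trace (A * B * C * D) := by
  by_contra hcon
  push Not at hcon
  obtain ⟨P, cP, mP, oP⟩ := sel A hA.h01 hA.hd hA.ha hA.hrow
  obtain ⟨Q, cQ, mQ, oQ⟩ := sel B hB.h01 hB.hd hB.ha hB.hrow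
  obtain ⟨S, cS, mS, oS⟩ := sel C hC.h01 hC.hd hC.ha hC.hrow
  obtain ⟨T, cT, mT, oT⟩ := sel D hD.h01 hD.hd hD.ha hD.hrow
  have hc := closed A B C D hA.hd hB.hd hC.hd hD.hd hcon
  have hQ : Quad P Q S T r := ⟨cP, cQ, cS, cT, oP, oQ, oS, oT, fun x y z u h1 h2 h3 h4 =>
    hc x y z u (lz_one hA.hd mP h1) (lz_one hB.hd mQ h2) (lz_one hC.hd mS h3)
      (lz_one hD.hd mT h4)⟩
  have : Nonempty (Fin n) := ⟨⟨0, hn⟩⟩
  refine no_four hQ hr ?_
  rw [Fintype.card_fin]
  exact h

/-- four matrices, `n ≤ 3.23 r + 1` -/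
theorem four_fine (hn : 1 ≤ n) (hr : 1 ≤ r) (A B C D : Matrix (Fin n) (Fin n) ℕ) (hA : Adm A r)
    (hB : Adm B r) (hC : Adm C r) (hD : Adm D r) (h : 100 * n ≤ 323 * r + 100) :
    n < Matrix.trace (A * B * C * D) := by
  by_contra hcon
  push Not at hcon
  obtain ⟨P, cP, mP, oP⟩ := sel A hA.h01 hA.hd hA.ha hA.hrow
  obtain ⟨Q, cQ, mQ, oQ⟩ := sel B hB.h01 hB.hd hB.ha hB.hrow
  obtain ⟨S, cS, mS, oS⟩ := sel C hC.h01 hC.hd hC.ha hC.hrow
  obtain ⟨T, cT, mT, oT⟩ := sel D hD.h01 hD.hd hD.ha hD.hrow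
  have hc := closed A B C D hA.hd hB.hd hC.hd hD.hd hcon
  have hQ : Quad P Q S T r := ⟨cP, cQ, cS, cT, oP, oQ, oS, oT, fun x y z u h1 h2 h3 h4 =>
    hc x y z u (lz_one hA.hd mP h1) (lz_one hB.hd mQ h2) (lz_one hC.hd mS h3)
      (lz_one hD.hd mT h4)⟩
  have : Nonempty (Fin n) := ⟨⟨0, hn⟩⟩
  refine no_four_fine hQ hr ?_
  rw [Fintype.card_fin]
  exact_mod_cast h

theorem cond_three (h : (n : ℝ) < (2 + Real.sqrt 6 / 4) * r + 5 / 4) :
    (4 * n : ℤ) ≤ 8 * r + 5 ∨ (4 * (n : ℤ) - 8 * r - 5) ^ 2 < 6 * r ^ 2 := by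
  by_cases h1 : (4 * n : ℤ) ≤ 8 * r + 5
  · exact Or.inl h1
  · refine Or.inr ?_
    push Not at h1
    have h2 : (8 * r + 5 : ℝ) < 4 * n := by exact_mod_cast h1
    have h3 : (4 * (n : ℝ) - 8 * r - 5) < Real.sqrt 6 * r := by linarith
    have h4 : (4 * (n : ℝ) - 8 * r - 5) ^ 2 < (Real.sqrt 6 * r) ^ 2 :=
      pow_lt_pow_left₀ h3 (by linarith) (by norm_num)
    rw [mul_pow, Real.sq_sqrt (by norm_num)] at h4
    exact_mod_cast h4

theorem cond_four (h : (n : ℝ) ≤ 3.204 * r + 1) :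
    (n : ℤ) ≤ 3 * r + 1 ∨ 2 * ((n : ℤ) - 1 - 2 * r) * (((n : ℤ) - 2 - 2 * r) *
        ((n : ℤ) - 3 * r - 2) + r ^ 2) < 3 * r ^ 3 := by
  by_cases h1 : (n : ℤ) ≤ 3 * r + 1
  · exact Or.inl h1
  · refine Or.inr ?_
    push Not at h1
    have h2 : (1000 * n : ℤ) ≤ 3204 * r + 1000 := by
      have : (1000 * n : ℝ) ≤ 3204 * r + 1000 := by
        norm_num at h ⊢
        linarith
      exact_mod_cast this
    obtain ⟨x, hx⟩ : ∃ x : ℤ, x = n - 1 - 3 * r := ⟨_, rfl⟩
    have hn : (n : ℤ) = x + 1 + 3 * r := by linarith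
    have hx1 : 1 ≤ x := by omega
    have hx2 : 1000 * x ≤ 204 * r := by omega
    rw [hn]
    have hr0 : (0 : ℤ) < r := by linarith
    have e1 : 2 * (x + 1 + 3 * (r : ℤ) - 1 - 2 * r) * ((x + 1 + 3 * r - 2 - 2 * r) *
        (x + 1 + 3 * r - 3 * r - 2) + r ^ 2) =
        2 * (r + x) * ((r + x - 1) * (x - 1) + r ^ 2) := by ring
    rw [e1]
    have e2 : ((r : ℤ) + x - 1) * (x - 1) ≤ r * x + x ^ 2 := by nlinarith
    have e3 : 2 * (r + x) * ((r + x - 1) * (x - 1) + (r : ℤ) ^ 2) ≤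
        2 * (r + x) * (r * x + x ^ 2 + r ^ 2) :=
      mul_le_mul_of_nonneg_left (by linarith) (by linarith)
    refine lt_of_le_of_lt e3 ?_
    have e4 : (1000 * x) ^ 2 ≤ (204 * (r : ℤ)) ^ 2 := pow_le_pow_left₀ (by linarith) hx2 2
    have e5 : 1000 * x * r ≤ 204 * (r : ℤ) * r := mul_le_mul_of_nonneg_right hx2 hr0.le
    have e6 : 1000000 * (r * x + x ^ 2 + (r : ℤ) ^ 2) ≤ 1245616 * r ^ 2 := by
      nlinarith
    have e7 : 1000 * (2 * (r + x)) ≤ 2408 * (r : ℤ) := by linarith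
    have e8 : (1000 * (2 * (r + x))) * (1000000 * (r * x + x ^ 2 + (r : ℤ) ^ 2)) ≤
        (2408 * (r : ℤ)) * (1245616 * r ^ 2) :=
      mul_le_mul e7 e6 (by positivity) (by positivity)
    have e9 : 0 < (r : ℤ) ^ 3 := by positivity
    nlinarith

theorem diag_list (l : List (Matrix (Fin n) (Fin n) ℕ)) (h : ∀ M ∈ l, ∀ i, M i i = 1) :
    ∀ i, 1 ≤ l.prod i i := by
  induction l with
  | nil => intro i; simp
  | cons M l ih =>
    intro i
    rw [List.prod_cons, Matrix.mul_apply]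
    refine le_trans ?_ (Finset.single_le_sum (f := fun j => M i j * l.prod j i)
      (fun _ _ => Nat.zero_le _) (Finset.mem_univ i))
    have h1 := h M (by simp) i
    have h2 := ih (fun M' hM' => h M' (by simp [hM'])) i
    rw [h1, one_mul]
    exact h2

theorem trace_le (X Y : Matrix (Fin n) (Fin n) ℕ) (hY : ∀ i, 1 ≤ Y i i) :
    Matrix.trace X ≤ Matrix.trace (X * Y) := by
  unfold Matrix.trace
  refine Finset.sum_le_sum fun i _ => ?_
  rw [Matrix.diag_apply, Matrix.diag_apply, Matrix.mul_apply]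
  refine le_trans ?_ (Finset.single_le_sum (f := fun j => X i j * Y j i)
    (fun _ _ => Nat.zero_le _) (Finset.mem_univ i))
  exact Nat.le_mul_of_pos_right _ (hY i)

/-- Seymour's assertion for `n < (2 + √6 / 4) r + 5 / 4` and, for at least four matrices, for
`n ≤ 3.204 r + 1`. -/
theorem exact_length (hn : 1 ≤ n) (hr : 1 ≤ r) (K : ℕ) (hK : n ≤ K * r)
    (h : (n : ℝ) < (2 + Real.sqrt 6 / 4) * r + 5 / 4 ∨ (4 ≤ K ∧ (n : ℝ) ≤ 3.204 * r + 1))
    (A : Fin K → Matrix (Fin n) (Fin n) ℕ) (hA : ∀ k, Adm (A k) r) :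
    n < Matrix.trace (List.ofFn A).prod := by
  have hsmall : ∀ M : Matrix (Fin n) (Fin n) ℕ, Adm M r → 2 * r + 1 ≤ n :=
    fun M hM => two_lt hn M hM.h01 hM.hd hM.ha hM.hrow
  have hdl : ∀ {a b : ℕ} (f : Fin (a + b) → Matrix (Fin n) (Fin n) ℕ), (∀ k, Adm (f k) r) →
      ∀ i, 1 ≤ (List.ofFn fun j => f (Fin.natAdd a j)).prod i i := by
    intro a b f hf
    refine diag_list _ ?_
    intro M hM
    rw [List.mem_ofFn] at hM
    obtain ⟨j, rfl⟩ := hM
    exact (hf _).hd
  rcases h with h | ⟨h1, h2⟩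
  · have hK0 : 0 < K := by
      rcases Nat.eq_zero_or_pos K with h0 | h0
      · rw [h0, zero_mul] at hK
        omega
      · exact h0
    have hfirst := hsmall (A ⟨0, hK0⟩) (hA _)
    have hK3 : 3 ≤ K := by
      by_contra hc
      have : K * r ≤ 2 * r := Nat.mul_le_mul_right r (by omega)
      omega
    obtain ⟨m, rfl⟩ := Nat.exists_eq_add_of_le hK3
    rw [List.ofFn_add, List.prod_append]
    refine lt_of_lt_of_le ?_ (trace_le _ _ (hdl A hA))
    have h5 := three hn hr _ _ _ (hA (Fin.castAdd m 0)) (hA (Fin.castAdd m 1))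
      (hA (Fin.castAdd m 2)) (cond_three h)
    have h6 : (List.ofFn fun i : Fin 3 => A (Fin.castAdd m i)).prod =
        A (Fin.castAdd m 0) * A (Fin.castAdd m 1) * A (Fin.castAdd m 2) := by
      simp [List.ofFn_succ, Matrix.mul_assoc]
    exact lt_of_lt_of_eq h5 (congrArg Matrix.trace h6.symm)
  · obtain ⟨m, rfl⟩ := Nat.exists_eq_add_of_le h1
    rw [List.ofFn_add, List.prod_append]
    refine lt_of_lt_of_le ?_ (trace_le _ _ (hdl A hA))
    have h5 := four hn hr _ _ _ _ (hA (Fin.castAdd m 0)) (hA (Fin.castAdd m 1))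
      (hA (Fin.castAdd m 2)) (hA (Fin.castAdd m 3)) (cond_four h2)
    have h6 : (List.ofFn fun i : Fin 4 => A (Fin.castAdd m i)).prod =
        A (Fin.castAdd m 0) * A (Fin.castAdd m 1) * A (Fin.castAdd m 2) *
          A (Fin.castAdd m 3) := by
      simp [List.ofFn_succ, Matrix.mul_assoc]
    exact lt_of_lt_of_eq h5 (congrArg Matrix.trace h6.symm)

end Matrices

end Pool.Agent.Lib.MP_323cd4_co.Exact
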