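import Mathlib

/-!
A linear bound for Seymour's question on traces of products of tournament-like matrices.

`pr B a s` is the product `B a * B (a + 1) * ⋯ * B (a + s - 1)`.
-/

set_option autoImplicit false

namespace Pool.Agent.Lib.MP_323cd4_co

open Finset Matrix

/-- the product of `s` consecutive matrices, starting with `B a` -/
def pr {n : ℕ} (B : ℕ → Matrix (Fin n) (Fin n) ℕ) (a : ℕ) : ℕ → Matrix (Fin n) (Fin n) ℕ
  | 0 => 1
  | s + 1 => pr B a s * B (a + s)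

theorem pr_add {n : ℕ} (B : ℕ → Matrix (Fin n) (Fin n) ℕ) (a s t : ℕ) :
    pr B a (s + t) = pr B a s * pr B (a + s) t := by
  induction t with
  | zero => simp [pr]
  | succ t ih =>
    rw [← add_assoc, pr, ih, pr, Matrix.mul_assoc, add_assoc]

theorem pr_one {n : ℕ} (B : ℕ → Matrix (Fin n) (Fin n) ℕ) (a : ℕ) : pr B a 1 = B a := by
  simp [pr]

/-- The standing assumptions: `A t` are 0-1 matrices with unit diagonal without opposite arcs,
and the trace of the product of the first `K` ones is `n`. -/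
structure Bad {n : ℕ} (A : ℕ → Matrix (Fin n) (Fin n) ℕ) (K : ℕ) : Prop where
  h01 : ∀ t i j, A t i j = 0 ∨ A t i j = 1
  diag : ∀ t i, A t i i = 1
  anti : ∀ t i j, i ≠ j → A t i j = 1 → A t j i ≠ 1
  tr : ∀ i, pr A 0 K i i = 1

/-- the off-diagonal part -/
def off {n : ℕ} (A : ℕ → Matrix (Fin n) (Fin n) ℕ) (t : ℕ) : Matrix (Fin n) (Fin n) ℕ :=
  fun i j => if i = j then 0 else A t i j

variable {n : ℕ} {A : ℕ → Matrix (Fin n) (Fin n) ℕ} {K : ℕ}

theorem off_le (A : ℕ → Matrix (Fin n) (Fin n) ℕ) (t : ℕ) (i j : Fin n) :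
    off A t i j ≤ A t i j := by
  unfold off
  split_ifs <;> omega

theorem pr_off_le (A : ℕ → Matrix (Fin n) (Fin n) ℕ) (a s : ℕ) (i j : Fin n) :
    pr (off A) a s i j ≤ pr A a s i j := by
  induction s generalizing j with
  | zero => exact le_rfl
  | succ s ih =>
    simp only [pr, Matrix.mul_apply]
    exact sum_le_sum (fun x _ => Nat.mul_le_mul (ih x) (off_le A _ _ _))

theorem Bad.diag_pos (h : Bad A K) (a s : ℕ) (i : Fin n) : 1 ≤ pr A a s i i := by
  induction s with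
  | zero => simp [pr]
  | succ s ih =>
    simp only [pr, Matrix.mul_apply]
    calc 1 ≤ pr A a s i i * A (a + s) i i := by rw [h.diag, mul_one]; exact ih
      _ ≤ _ := single_le_sum (f := fun x => pr A a s i x * A (a + s) x i)
          (fun _ _ => Nat.zero_le _) (mem_univ i)

/-- lazy reachability extends to the left and to the right -/
theorem Bad.extend (h : Bad A K) {a s b t : ℕ} {i j : Fin n} (hr : 1 ≤ pr A a s i j) (hb : b ≤ a)
    (ht : a + s ≤ b + t) : 1 ≤ pr A b t i j := by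
  obtain ⟨p, rfl⟩ := Nat.exists_eq_add_of_le hb
  obtain ⟨q, hq⟩ := Nat.exists_eq_add_of_le ht
  have hte : t = p + (s + q) := by omega
  rw [hte, pr_add, pr_add, Matrix.mul_apply]
  have h1 : 1 ≤ (pr A (b + p) s * pr A (b + p + s) q) i j := by
    rw [Matrix.mul_apply]
    calc 1 ≤ pr A (b + p) s i j * pr A (b + p + s) q j j :=
          Nat.mul_le_mul hr (h.diag_pos _ _ _)
      _ ≤ _ := single_le_sum (f := fun x => pr A (b + p) s i x * pr A (b + p + s) q x j)
          (fun _ _ => Nat.zero_le _) (mem_univ j)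
  calc 1 ≤ pr A b p i i * (pr A (b + p) s * pr A (b + p + s) q) i j :=
        Nat.mul_le_mul (h.diag_pos _ _ _) h1
    _ ≤ _ := single_le_sum (f := fun x => pr A b p i x * (pr A (b + p) s * pr A (b + p + s) q) x j)
        (fun _ _ => Nat.zero_le _) (mem_univ i)

/-- there is no closed walk -/
theorem Bad.no_closed (h : Bad A K) {a s b t : ℕ} {i j : Fin n} (h1 : 1 ≤ pr A a s i j)
    (h2 : 1 ≤ pr A b t j i) (hab : a + s ≤ b) (hbt : b + t ≤ K) : i = j := by
  by_contra hne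
  have e1 : 1 ≤ pr A 0 b i j := h.extend h1 (Nat.zero_le _) (by omega)
  have e2 : 1 ≤ pr A b (K - b) j i := h.extend h2 le_rfl (by omega)
  have hK : K = b + (K - b) := by omega
  have e3 : pr A 0 K i i = ∑ x, pr A 0 b i x * pr A b (K - b) x i := by
    conv_lhs => rw [hK, pr_add, zero_add]
    rw [Matrix.mul_apply]
  have e4 : ∑ x ∈ ({i, j} : Finset (Fin n)), pr A 0 b i x * pr A b (K - b) x i ≤
      ∑ x, pr A 0 b i x * pr A b (K - b) x i :=
    sum_le_sum_of_subset (subset_univ _)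
  rw [← e3, h.tr, sum_pair hne] at e4
  have e5 : 1 ≤ pr A 0 b i i * pr A b (K - b) i i :=
    Nat.mul_le_mul (h.diag_pos _ _ _) (h.diag_pos _ _ _)
  have e6 : 1 ≤ pr A 0 b i j * pr A b (K - b) j i := Nat.mul_le_mul e1 e2
  omega

theorem Bad.off_diag (h : Bad A K) {a s : ℕ} (hs : 0 < s) (hK : a + s ≤ K) (i : Fin n) :
    pr (off A) a s i i = 0 := by
  obtain ⟨s, rfl⟩ := Nat.exists_eq_succ_of_ne_zero hs.ne'
  rw [Nat.succ_eq_add_one, pr, Matrix.mul_apply]
  refine sum_eq_zero (fun x _ => ?_)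
  by_contra hne
  obtain ⟨h1, h2⟩ := Nat.mul_ne_zero_iff.1 hne
  have hxi : x ≠ i := by
    rintro rfl
    exact h2 (by simp [off])
  have h3 : 1 ≤ pr A a s i x := (Nat.one_le_iff_ne_zero.2 h1).trans (pr_off_le A a s i x)
  have h4 : 1 ≤ pr A (a + s) 1 x i := by
    rw [pr_one]
    exact (Nat.one_le_iff_ne_zero.2 h2).trans (off_le A _ _ _)
  exact hxi (h.no_closed h3 h4 le_rfl (by omega)).symm

open Classical in
/-- the vertices strictly inside a moving walk from `z` to `y` in the window `[a, a + s]` -/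
noncomputable def J (A : ℕ → Matrix (Fin n) (Fin n) ℕ) (a s : ℕ) (z y : Fin n) :
    Finset (Fin n) :=
  univ.filter fun u => ∃ p q, p + q = s ∧ 0 < p ∧ 0 < q ∧ pr (off A) a p z u ≠ 0 ∧
    pr (off A) (a + p) q u y ≠ 0

theorem mem_J {a s : ℕ} {z y u : Fin n} : u ∈ J A a s z y ↔ ∃ p q, p + q = s ∧ 0 < p ∧ 0 < q ∧
    pr (off A) a p z u ≠ 0 ∧ pr (off A) (a + p) q u y ≠ 0 := by
  simp [J]

theorem pr_ne_zero_trans {B : ℕ → Matrix (Fin n) (Fin n) ℕ} {a s t : ℕ} {z u y : Fin n}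
    (h1 : pr B a s z u ≠ 0) (h2 : pr B (a + s) t u y ≠ 0) : pr B a (s + t) z y ≠ 0 := by
  rw [pr_add, Matrix.mul_apply]
  have h3 : pr B a s z u * pr B (a + s) t u y ≤ ∑ x, pr B a s z x * pr B (a + s) t x y :=
    single_le_sum (f := fun x => pr B a s z x * pr B (a + s) t x y)
      (fun _ _ => Nat.zero_le _) (mem_univ u)
  have h4 : 0 < pr B a s z u * pr B (a + s) t u y :=
    Nat.mul_pos (Nat.pos_of_ne_zero h1) (Nat.pos_of_ne_zero h2)
  omega

/-- the key disjointness -/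
theorem Bad.card_J (h : Bad A K) {a s t : ℕ} {z y u : Fin n} (hs : 0 < s) (ht : 0 < t)
    (hK : a + s + t ≤ K) (h1 : pr (off A) a s z u ≠ 0) (h2 : pr (off A) (a + s) t u y ≠ 0) :
    u ∈ J A a (s + t) z y ∧
      (J A a s z u).card + (J A (a + s) t u y).card + 1 ≤ (J A a (s + t) z y).card := by
  classical
  have hu : u ∈ J A a (s + t) z y := mem_J.2 ⟨s, t, rfl, hs, ht, h1, h2⟩
  refine ⟨hu, ?_⟩
  have hsub1 : J A a s z u ⊆ J A a (s + t) z y := by
    intro x hx
    obtain ⟨p, q, hpq, hp, hq, e1, e2⟩ := mem_J.1 hx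
    refine mem_J.2 ⟨p, q + t, by omega, hp, by omega, e1, ?_⟩
    apply pr_ne_zero_trans e2
    rw [add_assoc, hpq]
    exact h2
  have hsub2 : J A (a + s) t u y ⊆ J A a (s + t) z y := by
    intro x hx
    obtain ⟨p, q, hpq, hp, hq, e1, e2⟩ := mem_J.1 hx
    refine mem_J.2 ⟨s + p, q, by omega, by omega, hq, pr_ne_zero_trans h1 e1, ?_⟩
    rw [← add_assoc]
    exact e2
  have hn1 : u ∉ J A a s z u := by
    intro hx
    obtain ⟨p, q, hpq, hp, hq, e1, e2⟩ := mem_J.1 hx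
    exact e2 (h.off_diag hq (by omega) u)
  have hn2 : u ∉ J A (a + s) t u y := by
    intro hx
    obtain ⟨p, q, hpq, hp, hq, e1, e2⟩ := mem_J.1 hx
    exact e1 (h.off_diag hp (by omega) u)
  have hdis : Disjoint (J A a s z u) (J A (a + s) t u y) := by
    rw [disjoint_left]
    intro x hx hx'
    obtain ⟨p, q, hpq, hp, hq, e1, e2⟩ := mem_J.1 hx
    obtain ⟨p', q', hpq', hp', hq', e1', e2'⟩ := mem_J.1 hx'
    have f1 : 1 ≤ pr A (a + p) q x u := (Nat.one_le_iff_ne_zero.2 e2).trans (pr_off_le A _ _ _ _)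
    have f2 : 1 ≤ pr A (a + s) p' u x := (Nat.one_le_iff_ne_zero.2 e1').trans (pr_off_le A _ _ _ _)
    have : x = u := h.no_closed f1 f2 (by omega) (by omega)
    rw [this] at hx
    exact hn1 hx
  have hins : insert u (J A a s z u ∪ J A (a + s) t u y) ⊆ J A a (s + t) z y := by
    intro x hx
    rw [mem_insert, mem_union] at hx
    rcases hx with rfl | hx | hx
    · exact hu
    · exact hsub1 hx
    · exact hsub2 hx
  have := card_le_card hins
  rw [card_insert_of_notMem (by rw [mem_union]; tauto), card_union_of_disjoint hdis] at this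
  omega

/-- splitting a window -/
theorem Bad.split_le (h : Bad A K) {a s t : ℕ} (hs : 0 < s) (ht : 0 < t)
    (hK : a + s + t ≤ K) (z y : Fin n) (C : ℝ) (hC0 : 0 ≤ C)
    (hC : ∀ u, pr (off A) a s z u ≠ 0 → pr (off A) (a + s) t u y ≠ 0 →
      (pr (off A) a s z u : ℝ) * (pr (off A) (a + s) t u y : ℝ) ≤ C) :
    (pr (off A) a (s + t) z y : ℝ) ≤ (J A a (s + t) z y).card * C := by
  classical
  have e1 : (pr (off A) a (s + t) z y : ℝ) =
      ∑ u, (pr (off A) a s z u : ℝ) * (pr (off A) (a + s) t u y : ℝ) := by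
    rw [pr_add, Matrix.mul_apply]
    push_cast
    rfl
  rw [e1, ← sum_subset (subset_univ (J A a (s + t) z y))]
  · rw [← nsmul_eq_mul]
    apply sum_le_card_nsmul
    intro u _
    by_cases h1 : pr (off A) a s z u = 0
    · rw [h1, Nat.cast_zero, zero_mul]
      exact hC0
    by_cases h2 : pr (off A) (a + s) t u y = 0
    · rw [h2, Nat.cast_zero, mul_zero]
      exact hC0
    exact hC u h1 h2
  · intro u _ hu
    by_contra hne
    apply hu
    have h3 : pr (off A) a s z u ≠ 0 := fun e => hne (by rw [e]; simp)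
    have h4 : pr (off A) (a + s) t u y ≠ 0 := fun e => hne (by rw [e]; simp)
    exact (h.card_J hs ht hK h3 h4).1

/-- `W A a s β G`: the number of moving walks in the window `[a, a + s]` from `z` to `y` is at most
`G * exp (β * |J| - (s - 1))` -/
def W (A : ℕ → Matrix (Fin n) (Fin n) ℕ) (a s : ℕ) (β G : ℝ) : Prop :=
  ∀ z y : Fin n, (pr (off A) a s z y : ℝ) ≤
    G * Real.exp (β * (J A a s z y).card - ((s : ℝ) - 1))

theorem le_mul_exp (c x : ℝ) (hc : 0 < c) : x ≤ c * Real.exp (x / c - 1) := by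
  have h := Real.add_one_le_exp (x / c - 1)
  have h2 : x / c ≤ Real.exp (x / c - 1) := by linarith
  calc x = c * (x / c) := by field_simp
    _ ≤ _ := mul_le_mul_of_nonneg_left h2 hc.le

theorem Bad.W_add (h : Bad A K) {a s t : ℕ} (hs : 0 < s) (ht : 0 < t) (hK : a + s + t ≤ K)
    {β G₁ G₂ c : ℝ} (hβ : 0 ≤ β) (hG₁ : 0 ≤ G₁) (hG₂ : 0 ≤ G₂) (hc : 0 < c)
    (h1 : W A a s β G₁) (h2 : W A (a + s) t β G₂) :
    W A a (s + t) (β + 1 / c) (c * (G₁ * G₂)) := by
  intro z y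
  set ι : ℝ := ((J A a (s + t) z y).card : ℝ) with hι
  have hι0 : 0 ≤ ι := Nat.cast_nonneg _
  have h3 : (pr (off A) a (s + t) z y : ℝ) ≤
      ι * (G₁ * G₂ * Real.exp (β * ι - ((s : ℝ) - 1) - ((t : ℝ) - 1))) := by
    apply h.split_le hs ht hK z y _ (by positivity)
    intro u e1 e2
    obtain ⟨-, hcard⟩ := h.card_J hs ht hK e1 e2
    have hcard' : ((J A a s z u).card : ℝ) + ((J A (a + s) t u y).card : ℝ) ≤ ι := by
      rw [hι]
      exact_mod_cast (by omega : (J A a s z u).card + (J A (a + s) t u y).card ≤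
        (J A a (s + t) z y).card)
    calc (pr (off A) a s z u : ℝ) * (pr (off A) (a + s) t u y : ℝ)
        ≤ (G₁ * Real.exp (β * (J A a s z u).card - ((s : ℝ) - 1))) *
          (G₂ * Real.exp (β * (J A (a + s) t u y).card - ((t : ℝ) - 1))) :=
          mul_le_mul (h1 z u) (h2 u y) (Nat.cast_nonneg _) (by positivity)
      _ = G₁ * G₂ * Real.exp (β * (((J A a s z u).card : ℝ) + ((J A (a + s) t u y).card : ℝ)) -
          ((s : ℝ) - 1) - ((t : ℝ) - 1)) := by
          rw [mul_mul_mul_comm, ← Real.exp_add]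
          congr 2
          ring
      _ ≤ _ := by
          apply mul_le_mul_of_nonneg_left _ (by positivity)
          apply Real.exp_le_exp.2
          have := mul_le_mul_of_nonneg_left hcard' hβ
          linarith
  refine h3.trans ?_
  calc ι * (G₁ * G₂ * Real.exp (β * ι - ((s : ℝ) - 1) - ((t : ℝ) - 1)))
      ≤ (c * Real.exp (ι / c - 1)) *
        (G₁ * G₂ * Real.exp (β * ι - ((s : ℝ) - 1) - ((t : ℝ) - 1))) :=
        mul_le_mul_of_nonneg_right (le_mul_exp c ι hc) (by positivity)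
    _ = c * (G₁ * G₂) * (Real.exp (ι / c - 1) *
        Real.exp (β * ι - ((s : ℝ) - 1) - ((t : ℝ) - 1))) := by ring
    _ = _ := by
        rw [← Real.exp_add]
        congr 2
        push_cast
        ring

theorem Bad.W_one (h : Bad A K) (a : ℕ) : W A a 1 0 1 := by
  intro z y
  rw [pr_one]
  simp only [zero_mul, Nat.cast_one, sub_self, Real.exp_zero, mul_one]
  have : off A a z y ≤ 1 := (off_le A a z y).trans (by rcases h.h01 a z y with e | e <;> omega)
  exact_mod_cast this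

theorem Bad.W_two (h : Bad A K) {a : ℕ} (hK : a + 2 ≤ K) {β : ℝ} (hβ : 0 < β) :
    W A a 2 β (1 / β) := by
  have := h.W_add (s := 1) (t := 1) one_pos one_pos (by omega) le_rfl zero_le_one zero_le_one
    (show 0 < 1 / β by positivity) (h.W_one a) (h.W_one (a + 1))
  simpa using this

theorem Bad.W_four (h : Bad A K) {a : ℕ} (hK : a + 4 ≤ K) {β : ℝ} (hβ : 0 < β) :
    W A a 4 β (27 / (4 * β ^ 3)) := by
  have := h.W_add (s := 2) (t := 2) two_pos two_pos (by omega)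
    (show 0 ≤ 2 * β / 3 by positivity) (show 0 ≤ 1 / (2 * β / 3) by positivity)
    (show 0 ≤ 1 / (2 * β / 3) by positivity)
    (show 0 < 3 / β by positivity) (h.W_two (by omega) (by positivity))
    (h.W_two (by omega) (by positivity))
  have e1 : 2 * β / 3 + 1 / (3 / β) = β := by field_simp; ring
  have e2 : 3 / β * (1 / (2 * β / 3) * (1 / (2 * β / 3))) = 27 / (4 * β ^ 3) := by
    field_simp
    norm_num
  rw [e1, e2] at this
  exact this

/-- windows of length three: here the orientation is used -/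
theorem Bad.W_three (h : Bad A K) (a : ℕ) {β : ℝ} (hβ : 0 < β) :
    W A a 3 β (2 / β ^ 2) := by
  classical
  intro z y
  set S := J A a 3 z y with hS
  have hle1 : ∀ t i j, off A t i j ≤ 1 := fun t i j =>
    (off_le A t i j).trans (by rcases h.h01 t i j with e | e <;> omega)
  have h1 : pr (off A) a 3 z y = ∑ x, ∑ w, off A a z x * off A (a + 1) x w * off A (a + 2) w y := by
    simp only [pr, Matrix.one_mul, Matrix.mul_apply, add_zero]
    rw [sum_comm]
    refine sum_congr rfl (fun w _ => ?_)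
    rw [sum_mul]
  have h2 : pr (off A) a 3 z y ≤ ∑ x ∈ S, ∑ w ∈ S, off A (a + 1) x w := by
    have g1 : ∑ x, ∑ w, off A a z x * off A (a + 1) x w * off A (a + 2) w y =
        ∑ q : Fin n × Fin n, off A a z q.1 * off A (a + 1) q.1 q.2 * off A (a + 2) q.2 y := by
      rw [Fintype.sum_prod_type]
    have g2 : ∑ x ∈ S, ∑ w ∈ S, off A (a + 1) x w = ∑ q ∈ S ×ˢ S, off A (a + 1) q.1 q.2 :=
      (sum_product S S (fun q : Fin n × Fin n => off A (a + 1) q.1 q.2)).symm
    rw [h1, g1, g2, ← sum_subset (subset_univ (S ×ˢ S))]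
    · refine sum_le_sum (fun q _ => ?_)
      calc off A a z q.1 * off A (a + 1) q.1 q.2 * off A (a + 2) q.2 y
          ≤ 1 * off A (a + 1) q.1 q.2 * 1 :=
            Nat.mul_le_mul (Nat.mul_le_mul (hle1 _ _ _) le_rfl) (hle1 _ _ _)
        _ = _ := by ring
    · intro q _ hq
      by_contra hne
      apply hq
      obtain ⟨e1, e2⟩ := Nat.mul_ne_zero_iff.1 hne
      obtain ⟨e3, e4⟩ := Nat.mul_ne_zero_iff.1 e1
      have f1 : pr (off A) a 1 z q.1 ≠ 0 := by rwa [pr_one]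
      have f2 : pr (off A) (a + 1) 1 q.1 q.2 ≠ 0 := by rwa [pr_one]
      have f3 : pr (off A) (a + 2) 1 q.2 y ≠ 0 := by rwa [pr_one]
      rw [mem_product]
      constructor
      · exact mem_J.2 ⟨1, 2, rfl, one_pos, two_pos, f1, pr_ne_zero_trans (s := 1) (t := 1) f2 f3⟩
      · exact mem_J.2 ⟨2, 1, rfl, two_pos, one_pos, pr_ne_zero_trans (s := 1) (t := 1) f1 f2, f3⟩
  have h3 : 2 * (∑ x ∈ S, ∑ w ∈ S, off A (a + 1) x w) ≤ S.card * S.card := by
    have e1 : ∑ x ∈ S, ∑ w ∈ S, off A (a + 1) x w = ∑ x ∈ S, ∑ w ∈ S, off A (a + 1) w x := sum_comm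
    have e2 : 2 * (∑ x ∈ S, ∑ w ∈ S, off A (a + 1) x w) =
        ∑ x ∈ S, ∑ w ∈ S, (off A (a + 1) x w + off A (a + 1) w x) := by
      rw [two_mul]
      nth_rewrite 2 [e1]
      rw [← sum_add_distrib]
      exact sum_congr rfl (fun x _ => sum_add_distrib.symm)
    rw [e2]
    have e3 : ∀ x w, off A (a + 1) x w + off A (a + 1) w x ≤ 1 := by
      intro x w
      by_cases hxw : x = w
      · simp [off, hxw]
      · have := h.anti (a + 1) x w hxw
        simp only [off, if_neg hxw, if_neg (Ne.symm hxw)]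
        rcases h.h01 (a + 1) x w with e | e <;> rcases h.h01 (a + 1) w x with e' | e' <;>
          simp_all
    calc _ ≤ ∑ x ∈ S, ∑ w ∈ S, 1 := sum_le_sum (fun x _ => sum_le_sum (fun w _ => e3 x w))
      _ = _ := by simp
  have h4 : 2 * (pr (off A) a 3 z y : ℝ) ≤ (S.card : ℝ) ^ 2 := by
    have : 2 * pr (off A) a 3 z y ≤ S.card ^ 2 := by
      rw [sq]
      omega
    exact_mod_cast this
  have h5 : (S.card : ℝ) ≤ 2 / β * Real.exp ((S.card : ℝ) / (2 / β) - 1) :=
    le_mul_exp (2 / β) _ (by positivity)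
  have h6 : (S.card : ℝ) ^ 2 ≤ (2 / β * Real.exp ((S.card : ℝ) / (2 / β) - 1)) ^ 2 :=
    pow_le_pow_left₀ (Nat.cast_nonneg _) h5 2
  rw [mul_pow, ← Real.exp_nat_mul] at h6
  have e7 : ((2 : ℕ) : ℝ) * ((S.card : ℝ) / (2 / β) - 1) = β * S.card - (((3 : ℕ) : ℝ) - 1) := by
    push_cast
    field_simp
    ring
  rw [e7] at h6
  calc (pr (off A) a 3 z y : ℝ) ≤ (S.card : ℝ) ^ 2 / 2 := by linarith
    _ ≤ ((2 / β) ^ 2 * Real.exp (β * S.card - (((3 : ℕ) : ℝ) - 1))) / 2 := by linarith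
    _ = _ := by
      field_simp

/-- the binary tree of windows -/
theorem Bad.W_tree (h : Bad A K) {β x : ℝ} (hβ : 0 ≤ β) (hx : 0 < x) (len : ℕ → ℕ)
    (hlen : ∀ i, 0 < len i) (κ : ℕ → ℝ) (hκ : ∀ i, 0 ≤ κ i) (P : ℕ)
    (hP : ∑ i ∈ range P, len i ≤ K)
    (hW : ∀ i < P, W A (∑ i' ∈ range i, len i') (len i) β (κ i)) (j : ℕ) :
    ∀ o, o + 2 ^ j ≤ P → W A (∑ i' ∈ range o, len i') (∑ i ∈ range (2 ^ j), len (o + i))
      (β + 1 / x * (1 - 1 / 2 ^ j))
      ((4 * x) ^ (2 ^ j - 1) / 2 ^ j * ∏ i ∈ range (2 ^ j), κ (o + i)) := by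
  induction j with
  | zero =>
    intro o ho
    have := hW o (by simpa using ho)
    simpa using this
  | succ j ih =>
    intro o ho
    have h2 : (2 : ℕ) ^ (j + 1) = 2 ^ j + 2 ^ j := by rw [pow_succ]; ring
    rw [h2] at ho
    have h2j : 0 < 2 ^ j := by positivity
    have i1 := ih o (by omega)
    have i2 := ih (o + 2 ^ j) (by omega)
    rw [sum_range_add] at i2
    have hpos : ∀ o', 0 < ∑ i ∈ range (2 ^ j), len (o' + i) := fun o' =>
      sum_pos (fun i _ => hlen _) ⟨0, by simp⟩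
    have htot : ∑ i' ∈ range o, len i' + ∑ i ∈ range (2 ^ j), len (o + i) +
        ∑ i ∈ range (2 ^ j), len (o + 2 ^ j + i) ≤ K := by
      rw [← sum_range_add, ← sum_range_add]
      refine le_trans (sum_le_sum_of_subset ?_) hP
      exact range_subset_range.2 (by omega)
    have hβj : 0 ≤ β + 1 / x * (1 - 1 / 2 ^ j) := by
      have h3 : (1 : ℝ) / 2 ^ j ≤ 1 := by
        rw [div_le_one (by positivity)]
        exact one_le_pow₀ (by norm_num)
      have h4 : 0 ≤ 1 / x * (1 - 1 / 2 ^ j) := mul_nonneg (by positivity) (by linarith)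
      linarith
    have i3 := h.W_add (hpos o) (hpos (o + 2 ^ j)) htot hβj
      (show 0 ≤ (4 * x) ^ (2 ^ j - 1) / 2 ^ j * ∏ i ∈ range (2 ^ j), κ (o + i) from
        mul_nonneg (by positivity) (prod_nonneg (fun i _ => hκ _)))
      (show 0 ≤ (4 * x) ^ (2 ^ j - 1) / 2 ^ j * ∏ i ∈ range (2 ^ j), κ (o + 2 ^ j + i) from
        mul_nonneg (by positivity) (prod_nonneg (fun i _ => hκ _)))
      (show 0 < x * 2 ^ (j + 1) by positivity) i1 i2
    rw [h2, sum_range_add, prod_range_add]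
    have e1 : β + 1 / x * (1 - 1 / 2 ^ j) + 1 / (x * 2 ^ (j + 1)) =
        β + 1 / x * (1 - 1 / 2 ^ (j + 1)) := by
      rw [pow_succ]
      field_simp
      ring
    have e2 : x * 2 ^ (j + 1) * ((4 * x) ^ (2 ^ j - 1) / 2 ^ j * (∏ i ∈ range (2 ^ j), κ (o + i)) *
        ((4 * x) ^ (2 ^ j - 1) / 2 ^ j * ∏ i ∈ range (2 ^ j), κ (o + 2 ^ j + i))) =
        (4 * x) ^ (2 ^ j + 2 ^ j - 1) / 2 ^ (j + 1) * ((∏ i ∈ range (2 ^ j), κ (o + i)) *
          ∏ i ∈ range (2 ^ j), κ (o + (2 ^ j + i))) := by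
      have h5 : 2 ^ j + 2 ^ j - 1 = (2 ^ j - 1) + (2 ^ j - 1) + 1 := by
        have : 0 < 2 ^ j := by positivity
        omega
      have h6 : ∏ i ∈ range (2 ^ j), κ (o + (2 ^ j + i)) = ∏ i ∈ range (2 ^ j), κ (o + 2 ^ j + i) :=
        prod_congr rfl (fun i _ => by rw [add_assoc])
      rw [h5, h6, pow_succ (4 * x), pow_add (4 * x), pow_succ (2 : ℝ) j]
      field_simp
      ring
    have e3 : ∑ i ∈ range (2 ^ j), len (o + (2 ^ j + i)) = ∑ i ∈ range (2 ^ j), len (o + 2 ^ j + i) :=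
      sum_congr rfl (fun i _ => by rw [add_assoc])
    rw [e1, e2] at i3
    rw [e3]
    exact i3

/-- the number of moving walks is large -/
theorem sum_rows (A : ℕ → Matrix (Fin n) (Fin n) ℕ) (K : ℕ) (r : ℕ → ℕ)
    (hr : ∀ t < K, ∀ i, r t ≤ ∑ j, off A t i j) (s : ℕ) (hs : s ≤ K) (z : Fin n) :
    ∏ t ∈ range s, r t ≤ ∑ y, pr (off A) 0 s z y := by
  induction s with
  | zero => simp [pr, Matrix.one_apply]
  | succ s ih =>
    rw [prod_range_succ]
    simp only [pr, Matrix.mul_apply, zero_add]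
    rw [sum_comm]
    calc (∏ t ∈ range s, r t) * r s ≤ (∑ y, pr (off A) 0 s z y) * r s :=
          Nat.mul_le_mul_right _ (ih (by omega))
      _ = ∑ x, pr (off A) 0 s z x * r s := sum_mul _ _ _
      _ ≤ ∑ x, pr (off A) 0 s z x * ∑ y, off A s x y :=
          sum_le_sum (fun x _ => Nat.mul_le_mul_left _ (hr s (by omega) x))
      _ = _ := sum_congr rfl (fun x _ => mul_sum _ _ _)

theorem Bad.final_bound (h : Bad A K) (hn : 1 ≤ n) (m : ℕ) {β : ℝ} (hβ : 0 ≤ β) (len : ℕ → ℕ)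
    (hlen : ∀ i, 0 < len i) (κ : ℕ → ℝ) (hκ : ∀ i, 0 ≤ κ i)
    (hsum : ∑ i ∈ range (2 ^ m), len i = K) (hβK : β * n + 2 ^ m ≤ K)
    (hW : ∀ i < 2 ^ m, W A (∑ i' ∈ range i, len i') (len i) β (κ i)) (r : ℕ → ℕ)
    (hr : ∀ t < K, ∀ i, r t ≤ ∑ j, off A t i j) :
    ((∏ t ∈ range K, r t : ℕ) : ℝ) ≤
      n * ((4 * (n / 2 ^ m)) ^ (2 ^ m - 1) / 2 ^ m * ∏ i ∈ range (2 ^ m), κ i) := by
  have hn0 : (0 : ℝ) < n := by exact_mod_cast (by omega : 0 < n)
  set x : ℝ := n / 2 ^ m with hx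
  have hx0 : 0 < x := by positivity
  have h1 := h.W_tree hβ hx0 len hlen κ hκ (2 ^ m) hsum.le hW m 0 (by simp)
  simp only [zero_add, range_zero, sum_empty, hsum] at h1
  set G := (4 * x) ^ (2 ^ m - 1) / 2 ^ m * ∏ i ∈ range (2 ^ m), κ i with hG
  have hG0 : 0 ≤ G := mul_nonneg (by positivity) (prod_nonneg (fun i _ => hκ _))
  have h2 : ∀ z y : Fin n, (pr (off A) 0 K z y : ℝ) ≤ G := by
    intro z y
    refine (h1 z y).trans ?_
    have h3 : Real.exp ((β + 1 / x * (1 - 1 / 2 ^ m)) * (J A 0 K z y).card - ((K : ℝ) - 1)) ≤ 1 := by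
      rw [Real.exp_le_one_iff]
      have h4 : ((J A 0 K z y).card : ℝ) ≤ n := by
        exact_mod_cast (card_le_univ _).trans (by simp)
      have h5 : (0 : ℝ) ≤ β + 1 / x * (1 - 1 / 2 ^ m) := by
        have h3 : (1 : ℝ) / 2 ^ m ≤ 1 := by
          rw [div_le_one (by positivity)]
          exact one_le_pow₀ (by norm_num)
        have h4 : 0 ≤ 1 / x * (1 - 1 / 2 ^ m) := mul_nonneg (by positivity) (by linarith)
        linarith
      have h6 := mul_le_mul_of_nonneg_left h4 h5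
      have h7 : (β + 1 / x * (1 - 1 / 2 ^ m)) * n = β * n + 2 ^ m - 1 := by
        rw [hx]
        field_simp
        ring
      rw [h7] at h6
      linarith
    calc G * _ ≤ G * 1 := mul_le_mul_of_nonneg_left h3 hG0
      _ = G := mul_one G
  obtain ⟨z⟩ : Nonempty (Fin n) := ⟨⟨0, by omega⟩⟩
  have h3 : ((∏ t ∈ range K, r t : ℕ) : ℝ) ≤ ((∑ y, pr (off A) 0 K z y : ℕ) : ℝ) := by
    exact_mod_cast sum_rows A K r hr K le_rfl z
  refine h3.trans ?_
  push_cast
  calc ∑ y, (pr (off A) 0 K z y : ℝ) ≤ ∑ y : Fin n, G := sum_le_sum (fun y _ => h2 z y)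
    _ = n * G := by simp

/-- Gibbs' inequality for two weights -/
theorem gibbs (x y : ℕ) (hx : 0 < x) (hy : 0 < y) (α : ℝ) (h0 : 0 < α) (h1 : α < 1) :
    (α * ((x : ℝ) + y)) ^ x * ((1 - α) * ((x : ℝ) + y)) ^ y ≤ (x : ℝ) ^ x * (y : ℝ) ^ y := by
  have hx' : (0 : ℝ) < x := by exact_mod_cast hx
  have hy' : (0 : ℝ) < y := by exact_mod_cast hy
  have e1 := le_mul_exp x (α * ((x : ℝ) + y)) hx'
  have e2 := le_mul_exp y ((1 - α) * ((x : ℝ) + y)) hy'
  have f1 : 0 ≤ α * ((x : ℝ) + y) := by positivity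
  have f2 : 0 ≤ (1 - α) * ((x : ℝ) + y) := mul_nonneg (by linarith) (by positivity)
  calc (α * ((x : ℝ) + y)) ^ x * ((1 - α) * ((x : ℝ) + y)) ^ y
      ≤ (x * Real.exp (α * ((x : ℝ) + y) / x - 1)) ^ x *
        (y * Real.exp ((1 - α) * ((x : ℝ) + y) / y - 1)) ^ y :=
        mul_le_mul (pow_le_pow_left₀ f1 e1 _) (pow_le_pow_left₀ f2 e2 _) (by positivity)
          (by positivity)
    _ = (x : ℝ) ^ x * (y : ℝ) ^ y * Real.exp (x * (α * ((x : ℝ) + y) / x - 1) +
        y * ((1 - α) * ((x : ℝ) + y) / y - 1)) := by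
        rw [mul_pow, mul_pow, ← Real.exp_nat_mul, ← Real.exp_nat_mul, Real.exp_add]
        ring
    _ = (x : ℝ) ^ x * (y : ℝ) ^ y := by
        have : (x : ℝ) * (α * ((x : ℝ) + y) / x - 1) + y * ((1 - α) * ((x : ℝ) + y) / y - 1) = 0 := by
          field_simp
          ring
        rw [this, Real.exp_zero, mul_one]

theorem prod_two {M : Type*} [CommMonoid M] (u v : M) (b c : ℕ) :
    ∏ i ∈ range (b + c), (if i < b then u else v) = u ^ b * v ^ c := by
  rw [prod_range_add]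
  congr 1
  · rw [prod_congr rfl (fun i hi => if_pos (mem_range.1 hi)), prod_const, card_range]
  · rw [prod_congr rfl (fun i _ => if_neg (by omega)), prod_const, card_range]

theorem sum_two (u v : ℕ) (b c : ℕ) :
    ∑ i ∈ range (b + c), (if i < b then u else v) = b * u + c * v := by
  rw [sum_range_add]
  congr 1
  · rw [sum_congr rfl (fun i hi => if_pos (mem_range.1 hi)), sum_const, card_range, smul_eq_mul]
  · rw [sum_congr rfl (fun i _ => if_neg (by omega)), sum_const, card_range, smul_eq_mul]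

theorem num_head (n P : ℕ) (hP0 : 0 < P) :
    (n : ℝ) * ((4 * ((n : ℝ) / P)) ^ (P - 1) / P) = 1 / 4 * (4 * ((n : ℝ) / P)) ^ P := by
  obtain ⟨Q, rfl⟩ := Nat.exists_eq_succ_of_ne_zero hP0.ne'
  have hQ : ((Nat.succ Q : ℕ) : ℝ) ≠ 0 := by positivity
  rw [Nat.succ_sub_one, pow_succ]
  field_simp

theorem num_kappa (κ κ' β x : ℝ) (hβ : β ≠ 0) (q q' b c : ℕ) :
    (κ / β ^ q) ^ b * (κ' / β ^ q') ^ c * (β * x) ^ (q * b + q' * c) =
      κ ^ b * κ' ^ c * x ^ (q * b + q' * c) := by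
  have h1 : κ / β ^ q * (β * x) ^ q = κ * x ^ q := by rw [mul_pow]; field_simp
  have h2 : κ' / β ^ q' * (β * x) ^ q' = κ' * x ^ q' := by rw [mul_pow]; field_simp
  rw [pow_add, pow_mul, pow_mul, pow_add x, pow_mul x, pow_mul x]
  calc _ = (κ / β ^ q * (β * x) ^ q) ^ b * (κ' / β ^ q' * (β * x) ^ q') ^ c := by
        rw [mul_pow (κ / β ^ q), mul_pow (κ' / β ^ q')]; ring
    _ = _ := by rw [h1, h2, mul_pow, mul_pow]; ring

/-- the common part of the two numerical computations -/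
theorem num_common (n : ℕ) (hn : 0 < n) (q q' b c : ℕ) (hP0 : 0 < b + c)
    (hy0 : 0 < q * b + q' * c) (κ κ' α : ℝ) (hα0 : 0 < α) (hα1 : α < 1)
    (R β : ℝ) (hR0 : 0 ≤ R) (hβ : β = ((q * b + q' * c : ℕ) : ℝ) / n)
    (hR : R ≤ n * ((4 * ((n : ℝ) / ((b + c : ℕ) : ℝ))) ^ (b + c - 1) / ((b + c : ℕ) : ℝ) *
      ((κ / β ^ q) ^ b * (κ' / β ^ q') ^ c))) :
    R * ((((b + c : ℕ) : ℝ) + ((q * b + q' * c : ℕ) : ℝ)) ^ (b + c + (q * b + q' * c)) *
      (α ^ (b + c) * (1 - α) ^ (q * b + q' * c))) ≤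
      1 / 4 * (4 * (n : ℝ)) ^ (b + c) * (κ ^ b * κ' ^ c * (n : ℝ) ^ (q * b + q' * c)) := by
  have hn0 : (0 : ℝ) < n := by exact_mod_cast hn
  have hP : (0 : ℝ) < ((b + c : ℕ) : ℝ) := by exact_mod_cast hP0
  have hy : (0 : ℝ) < ((q * b + q' * c : ℕ) : ℝ) := by exact_mod_cast hy0
  have e0 := gibbs (b + c) (q * b + q' * c) hP0 hy0 α hα0 hα1
  set P : ℝ := ((b + c : ℕ) : ℝ) with hPdef
  set y : ℝ := ((q * b + q' * c : ℕ) : ℝ) with hydef
  have hβ0 : β ≠ 0 := by rw [hβ]; positivity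
  have f1 : R ≤ 1 / 4 * (4 * ((n : ℝ) / P)) ^ (b + c) *
      ((κ / β ^ q) ^ b * (κ' / β ^ q') ^ c) := by
    refine hR.trans (le_of_eq ?_)
    rw [← mul_assoc, hPdef, num_head n (b + c) hP0]
  have f2 : 1 / 4 * (4 * ((n : ℝ) / P)) ^ (b + c) * ((κ / β ^ q) ^ b * (κ' / β ^ q') ^ c) *
      (P ^ (b + c) * y ^ (q * b + q' * c)) =
      1 / 4 * (4 * (n : ℝ)) ^ (b + c) * (κ ^ b * κ' ^ c * (n : ℝ) ^ (q * b + q' * c)) := by
    have g1 : (4 * ((n : ℝ) / P)) ^ (b + c) * P ^ (b + c) = (4 * (n : ℝ)) ^ (b + c) := by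
      rw [← mul_pow]
      congr 1
      field_simp
    have g3 : y = β * n := by rw [hβ]; field_simp
    have g2 := num_kappa κ κ' β n hβ0 q q' b c
    rw [← g3] at g2
    calc _ = 1 / 4 * ((4 * ((n : ℝ) / P)) ^ (b + c) * P ^ (b + c)) *
        ((κ / β ^ q) ^ b * (κ' / β ^ q') ^ c * y ^ (q * b + q' * c)) := by ring
      _ = _ := by rw [g1, g2]
  have e3 : R * (P ^ (b + c) * y ^ (q * b + q' * c)) ≤
      1 / 4 * (4 * (n : ℝ)) ^ (b + c) * (κ ^ b * κ' ^ c * (n : ℝ) ^ (q * b + q' * c)) := by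
    rw [← f2]
    exact mul_le_mul_of_nonneg_right f1 (by positivity)
  have e4 : (α * (P + y)) ^ (b + c) * ((1 - α) * (P + y)) ^ (q * b + q' * c) =
      (P + y) ^ (b + c + (q * b + q' * c)) * (α ^ (b + c) * (1 - α) ^ (q * b + q' * c)) := by
    rw [mul_pow, mul_pow, pow_add]
    ring
  rw [e4] at e0
  exact (mul_le_mul_of_nonneg_left e0 hR0).trans e3

theorem num1 (n b c : ℕ) (hn : 0 < n) (hP0 : 0 < b + c) (R β : ℝ) (hR0 : 0 ≤ R)
    (hβ : β = ((2 * b + c : ℕ) : ℝ) / n)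
    (hR : R ≤ n * ((4 * ((n : ℝ) / ((b + c : ℕ) : ℝ))) ^ (b + c - 1) / ((b + c : ℕ) : ℝ) *
      ((2 / β ^ 2) ^ b * (1 / β) ^ c))) :
    R * ((3 * b + 2 * c : ℕ) : ℝ) ^ (3 * b + 2 * c) ≤ (4 * (n : ℝ)) ^ (3 * b + 2 * c) / 4 := by
  have h := num_common n hn 2 1 b c hP0 (by omega) 2 1 (1 / 2) (by norm_num) (by norm_num)
    R β hR0 (by simpa using hβ) (by simpa using hR)
  have hK : (((b + c : ℕ) : ℝ)) + ((2 * b + 1 * c : ℕ) : ℝ) = ((3 * b + 2 * c : ℕ) : ℝ) := by
    push_cast; ring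
  rw [hK, show b + c + (2 * b + 1 * c) = 3 * b + 2 * c by ring] at h
  have e1 : (1 - 1 / 2 : ℝ) = 1 / 2 := by norm_num
  rw [e1, ← pow_add, show b + c + (2 * b + 1 * c) = 3 * b + 2 * c by ring, ← mul_assoc] at h
  have e5 : R * ((3 * b + 2 * c : ℕ) : ℝ) ^ (3 * b + 2 * c) =
      R * ((3 * b + 2 * c : ℕ) : ℝ) ^ (3 * b + 2 * c) * (1 / 2) ^ (3 * b + 2 * c) *
        2 ^ (3 * b + 2 * c) := by
    rw [mul_assoc _ ((1 / 2 : ℝ) ^ _), ← mul_pow]
    norm_num
  rw [e5]
  refine (mul_le_mul_of_nonneg_right h (show (0 : ℝ) ≤ 2 ^ (3 * b + 2 * c) by positivity)).trans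
    (le_of_eq ?_)
  rw [mul_pow, mul_pow, show (4 : ℝ) = 2 ^ 2 by norm_num, ← pow_mul, ← pow_mul]
  ring

theorem num2 (n b c : ℕ) (hn : 0 < n) (hP0 : 0 < b + c) (R β : ℝ) (hR0 : 0 ≤ R)
    (hβ : β = ((3 * b + 2 * c : ℕ) : ℝ) / n)
    (hR : R ≤ n * ((4 * ((n : ℝ) / ((b + c : ℕ) : ℝ))) ^ (b + c - 1) / ((b + c : ℕ) : ℝ) *
      ((27 / 4 / β ^ 3) ^ b * (2 / β ^ 2) ^ c))) :
    R * ((4 * b + 3 * c : ℕ) : ℝ) ^ (4 * b + 3 * c) ≤ (4 * (n : ℝ)) ^ (4 * b + 3 * c) / 4 := by
  have h := num_common n hn 3 2 b c hP0 (by omega) (27 / 4) 2 (1 / 4) (by norm_num) (by norm_num)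
    R β hR0 hβ hR
  have hK : (((b + c : ℕ) : ℝ)) + ((3 * b + 2 * c : ℕ) : ℝ) = ((4 * b + 3 * c : ℕ) : ℝ) := by
    push_cast; ring
  rw [hK, show b + c + (3 * b + 2 * c) = 4 * b + 3 * c by ring] at h
  set Q := R * ((4 * b + 3 * c : ℕ) : ℝ) ^ (4 * b + 3 * c) with hQ
  have hQ0 : 0 ≤ Q := by positivity
  rw [← mul_assoc, ← hQ] at h
  have e1 : (1 - 1 / 4 : ℝ) = 3 / 4 := by norm_num
  rw [e1] at h
  -- multiply by 4 ^ K / 3 ^ y
  have hn0 : (0 : ℝ) < n := by exact_mod_cast hn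
  have e2 : Q * 27 ^ b * 9 ^ c ≤ (4 * (n : ℝ)) ^ (4 * b + 3 * c) / 4 * (27 ^ b * 8 ^ c) := by
    have g1 : Q * 27 ^ b * 9 ^ c = Q * ((1 / 4 : ℝ) ^ (b + c) * (3 / 4) ^ (3 * b + 2 * c)) *
        4 ^ (4 * b + 3 * c) := by
      have g2 : ((1 / 4 : ℝ) ^ (b + c) * (3 / 4) ^ (3 * b + 2 * c)) * 4 ^ (4 * b + 3 * c) =
          27 ^ b * 9 ^ c := by
        rw [show 4 * b + 3 * c = (b + c) + (3 * b + 2 * c) by ring, pow_add (4 : ℝ)]
        rw [show ((1 / 4 : ℝ) ^ (b + c) * (3 / 4) ^ (3 * b + 2 * c)) *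
          (4 ^ (b + c) * 4 ^ (3 * b + 2 * c)) = ((1 / 4 : ℝ) ^ (b + c) * 4 ^ (b + c)) *
            ((3 / 4) ^ (3 * b + 2 * c) * 4 ^ (3 * b + 2 * c)) by ring, ← mul_pow, ← mul_pow]
        norm_num
        rw [pow_add, pow_mul, pow_mul]
        norm_num
      rw [mul_assoc Q, ← g2]
      ring
    rw [g1]
    refine (mul_le_mul_of_nonneg_right h (show (0 : ℝ) ≤ 4 ^ (4 * b + 3 * c) by positivity)).trans
      (le_of_eq ?_)
    have g3 : (27 / 4 : ℝ) ^ b * 2 ^ c * 4 ^ (b + c) = 27 ^ b * 8 ^ c := by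
      rw [pow_add, show (27 / 4 : ℝ) ^ b * 2 ^ c * (4 ^ b * 4 ^ c) =
        ((27 / 4 : ℝ) ^ b * 4 ^ b) * (2 ^ c * 4 ^ c) by ring, ← mul_pow, ← mul_pow]
      norm_num
    have g4 : (4 * (n : ℝ)) ^ (4 * b + 3 * c) = 4 ^ (4 * b + 3 * c) * ((n : ℝ) ^ (b + c) *
        (n : ℝ) ^ (3 * b + 2 * c)) := by
      rw [mul_pow, ← pow_add]
      congr 2
      ring
    rw [g4, ← g3, mul_pow]
    ring
  have e3 : (8 : ℝ) ^ c ≤ 9 ^ c := pow_le_pow_left₀ (by norm_num) (by norm_num) c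
  have e4 : Q * (27 ^ b * 9 ^ c) ≤ (4 * (n : ℝ)) ^ (4 * b + 3 * c) / 4 * (27 ^ b * 9 ^ c) := by
    rw [← mul_assoc Q]
    refine e2.trans ?_
    apply mul_le_mul_of_nonneg_left _ (by positivity)
    exact mul_le_mul_of_nonneg_left e3 (by positivity)
  exact le_of_mul_le_mul_right e4 (by positivity)

/-- The main estimate. -/
theorem Bad.main (h : Bad A K) (hn : 1 ≤ n) (hK : 2 ≤ K) (r : ℕ → ℕ)
    (hr : ∀ t < K, ∀ i, r t ≤ ∑ j, off A t i j) :
    ((∏ t ∈ range K, r t : ℕ) : ℝ) * (K : ℝ) ^ K ≤ (4 * (n : ℝ)) ^ K / 4 := by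
  have hn0 : (0 : ℝ) < n := by exact_mod_cast (by omega : 0 < n)
  obtain ⟨m, hm1, hm2⟩ : ∃ m, 2 * 2 ^ m ≤ K ∧ K < 4 * 2 ^ m := by
    refine ⟨Nat.log 2 K - 1, ?_, ?_⟩
    · have h1 := Nat.pow_log_le_self 2 (show K ≠ 0 by omega)
      have h2 : 1 ≤ Nat.log 2 K := Nat.log_pos (by norm_num) hK
      rw [← pow_succ', show Nat.log 2 K - 1 + 1 = Nat.log 2 K by omega]
      exact h1
    · have h1 := Nat.lt_pow_succ_log_self (show 1 < 2 by norm_num) K
      have h2 : 1 ≤ Nat.log 2 K := Nat.log_pos (by norm_num) hK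
      rw [show 4 = 2 ^ 2 by norm_num, ← pow_add, show 2 + (Nat.log 2 K - 1) = (Nat.log 2 K).succ by omega]
      exact h1
  have hP0 : 0 < 2 ^ m := by positivity
  rcases le_total K (3 * 2 ^ m) with hc | hc
  · -- windows of length 3 and 2
    obtain ⟨b, hb⟩ := Nat.exists_eq_add_of_le hm1
    obtain ⟨c, hc'⟩ := Nat.exists_eq_add_of_le (show b ≤ 2 ^ m by omega)
    have hKb : K = 3 * b + 2 * c := by omega
    set β : ℝ := ((2 * b + c : ℕ) : ℝ) / n with hβ
    have hy0 : (0 : ℝ) < ((2 * b + c : ℕ) : ℝ) := by exact_mod_cast (by omega : 0 < 2 * b + c)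
    have hβ0 : 0 < β := by positivity
    have hfin := h.final_bound hn m hβ0.le (fun i => if i < b then 3 else 2)
      (fun i => by split_ifs <;> norm_num)
      (fun i => if i < b then 2 / β ^ 2 else 1 / β)
      (fun i => by split_ifs <;> positivity)
      (by rw [hc', sum_two]; omega)
      (by
        rw [hβ, div_mul_cancel₀ _ hn0.ne']
        have : 2 * b + c + 2 ^ m = K := by omega
        exact_mod_cast this.le)
      (by
        intro i hi
        by_cases hib : i < b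
        · rw [if_pos hib, if_pos hib]
          exact h.W_three _ hβ0
        · rw [if_neg hib, if_neg hib]
          apply h.W_two _ hβ0
          have e1 : ∑ i' ∈ range (i + 1), (if i' < b then 3 else 2) ≤
              ∑ i' ∈ range (b + c), (if i' < b then 3 else 2) :=
            sum_le_sum_of_subset (range_subset_range.2 (by omega))
          rw [sum_two, sum_range_succ, if_neg hib] at e1
          omega) r hr
    rw [hc', prod_two] at hfin
    have hcast : (2 : ℝ) ^ m = ((b + c : ℕ) : ℝ) := by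
      rw [← hc']; push_cast; rfl
    rw [hcast] at hfin
    have := num1 n b c (by omega) (by omega) _ β (Nat.cast_nonneg _) hβ hfin
    rw [← hKb] at this
    exact this
  · -- windows of length 4 and 3
    obtain ⟨b, hb⟩ := Nat.exists_eq_add_of_le hc
    obtain ⟨c, hc'⟩ := Nat.exists_eq_add_of_le (show b ≤ 2 ^ m by omega)
    have hKb : K = 4 * b + 3 * c := by omega
    set β : ℝ := ((3 * b + 2 * c : ℕ) : ℝ) / n with hβ
    have hy0 : (0 : ℝ) < ((3 * b + 2 * c : ℕ) : ℝ) := by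
      exact_mod_cast (by omega : 0 < 3 * b + 2 * c)
    have hβ0 : 0 < β := by positivity
    have hfin := h.final_bound hn m hβ0.le (fun i => if i < b then 4 else 3)
      (fun i => by split_ifs <;> norm_num)
      (fun i => if i < b then 27 / 4 / β ^ 3 else 2 / β ^ 2)
      (fun i => by split_ifs <;> positivity)
      (by rw [hc', sum_two]; omega)
      (by
        rw [hβ, div_mul_cancel₀ _ hn0.ne']
        have : 3 * b + 2 * c + 2 ^ m = K := by omega
        exact_mod_cast this.le)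
      (by
        intro i hi
        by_cases hib : i < b
        · rw [if_pos hib, if_pos hib, div_div]
          apply h.W_four _ hβ0
          have e1 : ∑ i' ∈ range (i + 1), (if i' < b then 4 else 3) ≤
              ∑ i' ∈ range (b + c), (if i' < b then 4 else 3) :=
            sum_le_sum_of_subset (range_subset_range.2 (by omega))
          rw [sum_two, sum_range_succ, if_pos hib] at e1
          omega
        · rw [if_neg hib, if_neg hib]
          exact h.W_three _ hβ0) r hr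
    rw [hc', prod_two] at hfin
    have hcast : (2 : ℝ) ^ m = ((b + c : ℕ) : ℝ) := by
      rw [← hc']; push_cast; rfl
    rw [hcast] at hfin
    have := num2 n b c (by omega) (by omega) _ β (Nat.cast_nonneg _) hβ hfin
    rw [← hKb] at this
    exact this

/-- products indexed by `Fin K` -/
theorem pr_eq_ofFn (B : ℕ → Matrix (Fin n) (Fin n) ℕ) (K : ℕ) :
    pr B 0 K = (List.ofFn fun k : Fin K => B k).prod := by
  induction K with
  | zero => simp [pr]
  | succ K ih =>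
    rw [pr, ih, zero_add, List.ofFn_succ', List.concat_eq_append, List.prod_append]
    simp

theorem trace_bound (n K : ℕ) (hn : 1 ≤ n) (hK : 1 ≤ K) (r : Fin K → ℕ)
    (hr : (4 * n) ^ K < 4 * (K ^ K * ∏ k, r k)) (A : Fin K → Matrix (Fin n) (Fin n) ℕ)
    (h01 : ∀ k i j, A k i j = 0 ∨ A k i j = 1) (hd : ∀ k i, A k i i = 1)
    (ha : ∀ k i j, i ≠ j → A k i j = 1 → A k j i ≠ 1)
    (hrow : ∀ k i, r k + 1 ≤ ∑ j, A k i j) : n < Matrix.trace (List.ofFn A).prod := by
  classical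
  by_contra hcon
  rw [not_lt] at hcon
  have hrow2 : ∀ k i, r k ≤ ∑ j, (if i = j then 0 else A k i j) := by
    intro k i
    have h1 : ∑ j, A k i j = A k i i + ∑ j, (if i = j then 0 else A k i j) := by
      rw [← add_sum_erase _ _ (mem_univ i), ← add_sum_erase univ (fun j => if i = j then 0 else A k i j)
        (mem_univ i), if_pos rfl, zero_add]
      congr 1
      refine sum_congr rfl (fun j hj => ?_)
      rw [if_neg (fun e => (mem_erase.1 hj).1 e.symm)]
    have := hrow k i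
    rw [h1, hd] at this
    omega
  rcases Nat.lt_or_ge K 2 with hK2 | hK2
  · have hK1 : K = 1 := by omega
    subst hK1
    obtain ⟨i⟩ : Nonempty (Fin n) := ⟨⟨0, by omega⟩⟩
    have h1 := hrow 0 i
    have h2 : ∑ j, A 0 i j ≤ ∑ j : Fin n, 1 := sum_le_sum (fun j _ => by
      rcases h01 0 i j with e | e <;> omega)
    simp at h2
    simp at hr
    omega
  -- extend the sequence of matrices by identity matrices
  set A' : ℕ → Matrix (Fin n) (Fin n) ℕ := fun t => if h : t < K then A ⟨t, h⟩ else 1 with hA'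
  set r' : ℕ → ℕ := fun t => if h : t < K then r ⟨t, h⟩ else 0 with hr'
  have hprod : (List.ofFn A).prod = pr A' 0 K := by
    rw [pr_eq_ofFn]
    congr 2
    funext k
    simp [hA']
  rw [hprod] at hcon
  have hA01 : ∀ t i j, A' t i j = 0 ∨ A' t i j = 1 := by
    intro t i j
    simp only [hA']
    split_ifs with h
    · exact h01 _ _ _
    · by_cases hij : i = j
      · right; rw [hij, Matrix.one_apply_eq]
      · left; exact Matrix.one_apply_ne hij
  have hAd : ∀ t i, A' t i i = 1 := by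
    intro t i
    simp only [hA']
    split_ifs with h
    · exact hd _ _
    · exact Matrix.one_apply_eq i
  have hdiag : ∀ s i, 1 ≤ pr A' 0 s i i := by
    intro s i
    induction s with
    | zero => simp [pr]
    | succ s ih =>
      simp only [pr, Matrix.mul_apply]
      calc 1 ≤ pr A' 0 s i i * A' (0 + s) i i := by rw [hAd, mul_one]; exact ih
        _ ≤ _ := single_le_sum (f := fun x => pr A' 0 s i x * A' (0 + s) x i)
            (fun _ _ => Nat.zero_le _) (mem_univ i)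
  have hbad : Bad A' K := by
    refine ⟨hA01, hAd, ?_, ?_⟩
    · intro t i j hij
      simp only [hA']
      split_ifs with h
      · exact ha _ _ _ hij
      · intro h1
        rw [Matrix.one_apply_ne hij] at h1
        exact absurd h1 (by norm_num)
    · intro i
      have h1 : ∑ j, pr A' 0 K j j ≤ n := hcon
      have h2 : ∑ j ∈ univ.erase i, 1 ≤ ∑ j ∈ univ.erase i, pr A' 0 K j j :=
        sum_le_sum (fun j _ => hdiag K j)
      rw [← add_sum_erase _ _ (mem_univ i)] at h1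
      rw [sum_const, card_erase_of_mem (mem_univ i), card_univ, Fintype.card_fin, smul_eq_mul,
        mul_one] at h2
      have := hdiag K i
      omega
  have hr2 : ∀ t < K, ∀ i, r' t ≤ ∑ j, off A' t i j := by
    intro t ht i
    have := hrow2 ⟨t, ht⟩ i
    simp only [hr', hA', off, dif_pos ht]
    exact this
  have hmain := hbad.main hn hK2 r' hr2
  have hpr : ∏ t ∈ range K, r' t = ∏ k, r k := by
    rw [← Fin.prod_univ_eq_prod_range]
    exact Fintype.prod_congr _ _ (fun k => by simp [hr'])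
  rw [hpr] at hmain
  have hr3 : (4 * (n : ℝ)) ^ K < 4 * ((K : ℝ) ^ K * ((∏ k, r k : ℕ) : ℝ)) := by
    exact_mod_cast hr
  linarith

end Pool.Agent.Lib.MP_323cd4_co
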