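import Mathlib
import Pool.Agent.Lib.MP_323cd4_co.Linear

/-!
Seymour's question on traces of products of tournament-like matrices: products of five matrices.

If the trace of the product is `n` then all arcs of all the digraphs agree in direction, a small
second neighbourhood of a vertex forces a large third one, and the windows 3 + 2 are averaged over
the five rotations of the product.
-/

set_option autoImplicit false

namespace Pool.Agent.Lib.MP_323cd4_co

open Finset Matrix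

variable {n : ℕ} {A : ℕ → Matrix (Fin n) (Fin n) ℕ} {K : ℕ}

/-- the out-neighbours in slot `t` -/
def O (A : ℕ → Matrix (Fin n) (Fin n) ℕ) (t : ℕ) (x : Fin n) : Finset (Fin n) :=
  univ.filter fun j => x ≠ j ∧ A t x j = 1

theorem mem_O {t : ℕ} {x y : Fin n} : y ∈ O A t x ↔ x ≠ y ∧ A t x y = 1 := by
  simp [O]

/-- the vertices reached in two steps but not in one -/
def Q (A : ℕ → Matrix (Fin n) (Fin n) ℕ) (t : ℕ) (x : Fin n) : Finset (Fin n) :=
  ((O A t x).biUnion (O A (t + 1))) \ O A t x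

/-- the vertices reached in three steps through `Q` -/
def X (A : ℕ → Matrix (Fin n) (Fin n) ℕ) (t : ℕ) (x : Fin n) : Finset (Fin n) :=
  ((Q A t x).biUnion (O A (t + 2))) \ (O A t x ∪ Q A t x)

theorem pr_of_O {t : ℕ} {x y : Fin n} (h : y ∈ O A t x) : 1 ≤ pr A t 1 x y := by
  rw [pr_one, (mem_O.1 h).2]

theorem pr_trans {a s b t : ℕ} {x y z : Fin n} (h1 : 1 ≤ pr A a s x y) (h2 : 1 ≤ pr A b t y z)
    (hb : b = a + s) : 1 ≤ pr A a (s + t) x z := by
  subst hb
  rw [pr_add, Matrix.mul_apply]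
  calc 1 ≤ pr A a s x y * pr A (a + s) t y z := Nat.mul_le_mul h1 h2
    _ ≤ _ := single_le_sum (f := fun w => pr A a s x w * pr A (a + s) t w z)
        (fun _ _ => Nat.zero_le _) (mem_univ y)

theorem pr_of_Q {t : ℕ} {x y : Fin n} (h : y ∈ Q A t x) : 1 ≤ pr A t 2 x y := by
  obtain ⟨z, hz, hy⟩ := mem_biUnion.1 (mem_sdiff.1 h).1
  exact pr_trans (pr_of_O hz) (pr_of_O hy) rfl

theorem pr_of_X {t : ℕ} {x y : Fin n} (h : y ∈ X A t x) : 1 ≤ pr A t 3 x y := by
  obtain ⟨z, hz, hy⟩ := mem_biUnion.1 (mem_sdiff.1 h).1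
  exact pr_trans (pr_of_Q hz) (pr_of_O hy) rfl

/-- no closed walk in consecutive windows -/
theorem Bad.nc (h : Bad A K) {a s b t : ℕ} {i j : Fin n} (h1 : 1 ≤ pr A a s i j)
    (h2 : 1 ≤ pr A b t j i) (hab : a + s ≤ b) (hbt : b + t ≤ K) (hij : i ≠ j) : False :=
  hij (h.no_closed h1 h2 hab hbt)

theorem O_irr {t : ℕ} (x : Fin n) : x ∉ O A t x := fun h => (mem_O.1 h).1 rfl

/-- arcs in different (or equal) slots are never opposite -/
theorem Bad.anti2 (h : Bad A K) {t u : ℕ} (ht : t < K) (hu : u < K) {x y : Fin n}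
    (h1 : y ∈ O A t x) (h2 : x ∈ O A u y) : False := by
  rcases lt_trichotomy t u with htu | htu | htu
  · exact h.nc (pr_of_O h1) (pr_of_O h2) (by omega) (by omega) (mem_O.1 h1).1
  · subst htu
    exact h.anti t x y (mem_O.1 h1).1 (mem_O.1 h1).2 (mem_O.1 h2).2
  · exact h.nc (pr_of_O h2) (pr_of_O h1) (by omega) (by omega) (mem_O.1 h2).1

/-- the number of arcs inside a set -/
theorem Bad.inside (h : Bad A K) {t : ℕ} (ht : t < K) (S : Finset (Fin n)) :
    2 * (∑ x ∈ S, (O A t x ∩ S).card) + S.card ≤ S.card * S.card := by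
  classical
  have e : ∀ x ∈ S, (O A t x ∩ S).card = ∑ y ∈ S, if y ∈ O A t x then 1 else 0 := by
    intro x _
    rw [inter_comm, ← filter_mem_eq_inter, card_filter]
  have h1 : ∑ x ∈ S, (O A t x ∩ S).card = ∑ x ∈ S, ∑ y ∈ S, (if y ∈ O A t x then 1 else 0) :=
    sum_congr rfl e
  have h2 : ∑ x ∈ S, (O A t x ∩ S).card = ∑ x ∈ S, ∑ y ∈ S, (if x ∈ O A t y then 1 else 0) := by
    rw [h1, sum_comm]
  have h3 : ∀ x ∈ S, ∑ y ∈ S, ((if y ∈ O A t x then 1 else 0) + (if x ∈ O A t y then 1 else 0)) +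
      1 ≤ S.card := by
    intro x hx
    rw [← add_sum_erase _ _ hx, if_neg (O_irr x)]
    have h4 : ∑ y ∈ S.erase x, ((if y ∈ O A t x then 1 else 0) +
        (if x ∈ O A t y then 1 else 0)) ≤ ∑ y ∈ S.erase x, 1 := by
      refine sum_le_sum (fun y _ => ?_)
      split_ifs with c1 c2 <;> try omega
      exact (h.anti2 ht ht c1 c2).elim
    rw [sum_const, smul_eq_mul, mul_one, card_erase_of_mem hx] at h4
    have : 0 < S.card := card_pos.2 ⟨x, hx⟩
    omega
  have h5 := sum_le_sum h3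
  rw [sum_add_distrib, sum_const, smul_eq_mul, mul_one, sum_const, smul_eq_mul] at h5
  have h6 : ∑ x ∈ S, ∑ y ∈ S, ((if y ∈ O A t x then 1 else 0) + (if x ∈ O A t y then 1 else 0)) =
      2 * ∑ x ∈ S, (O A t x ∩ S).card := by
    simp only [sum_add_distrib]
    rw [← h1, ← h2]
    ring
  rw [h6] at h5
  exact h5

theorem card_split {t : ℕ} {v y : Fin n} (hy : y ∈ O A t v) :
    (O A (t + 1) y ∩ O A t v).card + (O A (t + 1) y ∩ Q A t v).card = (O A (t + 1) y).card := by
  classical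
  rw [← card_inter_add_card_sdiff (O A (t + 1) y) (O A t v)]
  congr 2
  ext z
  simp only [Q, mem_inter, mem_sdiff, mem_biUnion]
  constructor
  · rintro ⟨h1, -, h2⟩
    exact ⟨h1, h2⟩
  · rintro ⟨h1, h2⟩
    exact ⟨h1, ⟨y, hy, h1⟩, h2⟩

theorem card_le_Q {t : ℕ} {x y : Fin n} (hx : x ∈ O A t y) :
    (O A (t + 1) x).card ≤ (O A (t + 1) x ∩ O A t y).card + (Q A t y).card := by
  classical
  rw [← card_inter_add_card_sdiff (O A (t + 1) x) (O A t y)]
  apply Nat.add_le_add_left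
  apply card_le_card
  intro z hz
  rw [mem_sdiff] at hz
  exact mem_sdiff.2 ⟨mem_biUnion.2 ⟨x, hx, hz.1⟩, hz.2⟩

/-- two-step neighbourhoods are not small -/
theorem Bad.Q_min (h : Bad A K) {t r : ℕ} (hr1 : 1 ≤ r) (ht : t + 1 < K)
    (hr : ∀ u < K, ∀ x, (O A u x).card = r) (v : Fin n) : r + 1 ≤ 2 * (Q A t v).card := by
  have h1 := h.inside (t := t + 1) (by omega) (O A t v)
  have h2 : ∑ x ∈ O A t v, r ≤ ∑ x ∈ O A t v, ((O A (t + 1) x ∩ O A t v).card + (Q A t v).card) := by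
    refine sum_le_sum (fun x hx => ?_)
    have := card_le_Q (A := A) hx
    rw [hr _ ht] at this
    exact this
  rw [sum_add_distrib, sum_const, sum_const, smul_eq_mul, smul_eq_mul, hr t (by omega)] at h2
  rw [hr t (by omega)] at h1
  have h3 : r * (r + 1) ≤ r * (2 * (Q A t v).card) := by nlinarith
  exact Nat.le_of_mul_le_mul_left h3 hr1

/-- the number of arcs from `O` to `Q` -/
theorem Bad.W_ge (h : Bad A K) {t r : ℕ} (ht : t + 1 < K)
    (hr : ∀ u < K, ∀ x, (O A u x).card = r) (v : Fin n) :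
    r * (r + 1) ≤ 2 * ∑ y ∈ O A t v, (O A (t + 1) y ∩ Q A t v).card := by
  have h1 := h.inside (t := t + 1) (by omega) (O A t v)
  have h2 : ∑ y ∈ O A t v, ((O A (t + 1) y ∩ O A t v).card + (O A (t + 1) y ∩ Q A t v).card) =
      ∑ y ∈ O A t v, r := by
    refine sum_congr rfl (fun y hy => ?_)
    rw [card_split hy, hr _ ht]
  rw [sum_add_distrib, sum_const, smul_eq_mul, hr t (by omega)] at h2
  rw [hr t (by omega)] at h1
  nlinarith

theorem card_three {v : Fin n} {S1 S2 S3 : Finset (Fin n)} (h1 : v ∉ S1) (h2 : v ∉ S2)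
    (h3 : v ∉ S3) (h12 : Disjoint S1 S2) (h13 : ∀ u ∈ S1, u ∉ S3) (h23 : ∀ u ∈ S2, u ∉ S3) :
    S1.card + S2.card + S3.card + 1 ≤ n := by
  classical
  have h := card_le_card (subset_univ (insert v (S1 ∪ S2 ∪ S3)))
  rw [card_insert_of_notMem, card_union_of_disjoint, card_union_of_disjoint h12, card_univ,
    Fintype.card_fin] at h
  · exact h
  · rw [disjoint_left]
    intro u hu
    rw [mem_union] at hu
    rcases hu with hu | hu
    · exact h13 u hu
    · exact h23 u hu
  · simp only [mem_union]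
    tauto

theorem Bad.v_notMem_Q (h : Bad A K) {t : ℕ} (ht : t + 1 < K) (v : Fin n) : v ∉ Q A t v := by
  intro hv
  obtain ⟨z, hz, hy⟩ := mem_biUnion.1 (mem_sdiff.1 hv).1
  exact h.anti2 (by omega) ht hz hy

theorem disj_OQ {t : ℕ} (v : Fin n) : Disjoint (O A t v) (Q A t v) := disjoint_sdiff

theorem Bad.v_notMem_X (h : Bad A K) {t : ℕ} (ht : t + 2 < K) (v : Fin n) : v ∉ X A t v := by
  intro hv
  obtain ⟨z, hz, hy⟩ := mem_biUnion.1 (mem_sdiff.1 hv).1
  exact h.nc (pr_of_Q hz) (pr_of_O hy) (by omega) (by omega) (mem_O.1 hy).1.symm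

/-- arcs between two sets in two slots are not opposite -/
theorem Bad.between (h : Bad A K) {t u : ℕ} (ht : t < K) (hu : u < K) (S T : Finset (Fin n)) :
    (∑ x ∈ S, (O A t x ∩ T).card) + ∑ y ∈ T, (O A u y ∩ S).card ≤ S.card * T.card := by
  classical
  have e : ∀ (s : ℕ) (P : Finset (Fin n)) (x : Fin n), (O A s x ∩ P).card =
      ∑ y ∈ P, if y ∈ O A s x then 1 else 0 := by
    intro s P x
    rw [inter_comm, ← filter_mem_eq_inter, card_filter]
  simp only [e]
  rw [sum_comm (s := T), ← sum_add_distrib, ← smul_eq_mul, ← sum_const]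
  refine sum_le_sum (fun x _ => ?_)
  rw [← sum_add_distrib, card_eq_sum_ones]
  refine sum_le_sum (fun y _ => ?_)
  split_ifs with c1 c2 <;> try omega
  exact (h.anti2 ht hu c1 c2).elim

/-- growth in three steps -/
theorem Bad.three_step (h : Bad A K) {t r : ℕ} (ht : t + 2 < K)
    (hr : ∀ u < K, ∀ x, (O A u x).card = r) (v : Fin n) :
    (r : ℝ) * (r + 1) ≤ 2 * ((Q A t v).card : ℝ) * (X A t v).card +
      ((Q A t v).card : ℝ) * (((Q A t v).card : ℝ) - 1) := by
  classical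
  have h1 := h.W_ge (t := t) (by omega) hr v
  have h2 := h.between (t := t + 2) (u := t + 1) (by omega) (by omega) (Q A t v) (O A t v)
  have h3 := h.inside (t := t + 2) (by omega) (Q A t v)
  rw [hr t (by omega)] at h2
  have h4 : ∑ x ∈ Q A t v, r ≤ ∑ x ∈ Q A t v, ((O A (t + 2) x ∩ O A t v).card +
      (O A (t + 2) x ∩ Q A t v).card + (X A t v).card) := by
    refine sum_le_sum (fun x hx => ?_)
    have h5 : (O A (t + 2) x).card ≤ ((O A (t + 2) x ∩ O A t v) ∪
      (O A (t + 2) x ∩ Q A t v) ∪ (X A t v)).card := by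
      apply card_le_card
      intro z hz
      rw [mem_union, mem_union, mem_inter, mem_inter]
      by_cases hz1 : z ∈ O A t v
      · exact Or.inl (Or.inl ⟨hz, hz1⟩)
      by_cases hz2 : z ∈ Q A t v
      · exact Or.inl (Or.inr ⟨hz, hz2⟩)
      · refine Or.inr (mem_sdiff.2 ⟨mem_biUnion.2 ⟨x, hx, hz⟩, ?_⟩)
        rw [mem_union]
        tauto
    rw [hr _ ht] at h5
    have h6 := card_union_le ((O A (t + 2) x ∩ O A t v) ∪ (O A (t + 2) x ∩ Q A t v)) (X A t v)
    have h7 := card_union_le (O A (t + 2) x ∩ O A t v) (O A (t + 2) x ∩ Q A t v)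
    omega
  rw [sum_add_distrib, sum_add_distrib, sum_const, sum_const, smul_eq_mul, smul_eq_mul] at h4
  have h5 : r * (r + 1) + (Q A t v).card ≤ 2 * ((Q A t v).card * (X A t v).card) +
      (Q A t v).card * (Q A t v).card := by
    linarith
  have h6 : (r : ℝ) * (r + 1) + ((Q A t v).card : ℝ) ≤
      2 * (((Q A t v).card : ℝ) * (X A t v).card) +
      ((Q A t v).card : ℝ) * ((Q A t v).card : ℝ) := by exact_mod_cast h5
  linarith

theorem sum_inv (F : Fin n → Finset (Fin n)) :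
    ∑ v, ((univ.filter fun u => v ∈ F u).card : ℝ) = ∑ u, ((F u).card : ℝ) := by
  classical
  have h1 : ∑ v, (univ.filter fun u => v ∈ F u).card = ∑ u, (F u).card := by
    simp only [card_filter]
    rw [sum_comm]
    refine sum_congr rfl (fun u _ => ?_)
    rw [← card_filter, filter_mem_eq_inter, univ_inter]
  exact_mod_cast h1

theorem disj_OQX {t : ℕ} (v : Fin n) : Disjoint (O A t v ∪ Q A t v) (X A t v) := disjoint_sdiff

/-- windows `[0,3)` and `[3,3+s)`, where `F` is reached in the second window -/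
theorem Bad.windows3 (h : Bad A K) (hK : 3 ≤ K) {r : ℕ} (hr : ∀ u < K, ∀ x, (O A u x).card = r)
    {s : ℕ} (hs : 3 + s ≤ K) (F : Fin n → Finset (Fin n))
    (hF : ∀ u, ∀ v ∈ F u, 1 ≤ pr A 3 s u v) (hFi : ∀ v, v ∉ F v) :
    ∑ v, (((Q A 0 v).card : ℝ) + ((X A 0 v).card : ℝ)) + ∑ u, ((F u).card : ℝ) ≤
      n * ((n : ℝ) - 1 - r) := by
  classical
  have G : ∀ v, (O A 0 v ∪ Q A 0 v).card + (X A 0 v).card +
      (univ.filter fun u => v ∈ F u).card + 1 ≤ n := by
    intro v
    have g1 : v ∉ O A 0 v ∪ Q A 0 v := by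
      intro hv
      rcases mem_union.1 hv with hu | hu
      · exact O_irr v hu
      · exact h.v_notMem_Q (by omega) _ hu
    have g3 : v ∉ (univ.filter fun u => v ∈ F u) := fun hv => hFi v (mem_filter.1 hv).2
    apply card_three (v := v) g1 (h.v_notMem_X (by omega) v) g3 (disj_OQX v)
    · intro u hu hu2
      have hu2' := hF u v (mem_filter.1 hu2).2
      rcases mem_union.1 hu with hu | hu
      · exact h.nc (pr_of_O hu) hu2' (by omega) (by omega) (mem_O.1 hu).1
      · refine h.nc (pr_of_Q hu) hu2' (by omega) (by omega) ?_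
        rintro rfl
        exact h.v_notMem_Q (by omega) _ hu
    · intro u hu hu2
      refine h.nc (pr_of_X hu) (hF u v (mem_filter.1 hu2).2) (by omega) (by omega) ?_
      rintro rfl
      exact h.v_notMem_X (by omega) _ hu
  have h1 : ∑ v : Fin n, (((O A 0 v ∪ Q A 0 v).card : ℝ) + ((X A 0 v).card : ℝ) +
      ((univ.filter fun u => v ∈ F u).card : ℝ) + 1) ≤ ∑ v : Fin n, (n : ℝ) :=
    sum_le_sum (fun v _ => by exact_mod_cast G v)
  rw [sum_add_distrib, sum_add_distrib, sum_add_distrib, sum_inv] at h1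
  have h2 : ∀ u, ((O A 0 u ∪ Q A 0 u).card : ℝ) = r + (Q A 0 u).card := by
    intro u
    rw [card_union_of_disjoint (disj_OQ u), hr 0 (by omega)]
    push_cast
    ring
  simp only [h2, sum_add_distrib] at h1
  simp only [sum_const, card_univ, Fintype.card_fin, nsmul_eq_mul, mul_one] at h1
  rw [sum_add_distrib]
  linarith

/-- five matrices, after a suitable rotation -/
theorem Bad.five_half (h : Bad A 5) {r : ℕ} (hn : 1 ≤ n) (hr1 : 1 ≤ r)
    (hr : ∀ u < 5, ∀ x, (O A u x).card = r)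
    (hq : ∑ v, ((Q A 0 v).card : ℝ) ≤ ∑ v, ((Q A 3 v).card : ℝ)) :
    0 < (n : ℝ) - 1 - 2 * r ∧
      12 * (r : ℝ) * (r + 1) ≤ (2 * ((n : ℝ) - 1 - 2 * r) - 1) ^ 2 := by
  classical
  have hn0 : (0 : ℝ) < n := by exact_mod_cast hn
  have hr0 : (1 : ℝ) ≤ r := by exact_mod_cast hr1
  have h1 := h.windows3 (by omega) hr (s := 2) (by omega)
    (fun u => O A 3 u ∪ Q A 3 u) (by
      intro u v hv
      rcases mem_union.1 hv with hv | hv
      · exact h.extend (pr_of_O hv) le_rfl (by omega)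
      · exact pr_of_Q hv) (by
      intro v hv
      rcases mem_union.1 hv with hv | hv
      · exact O_irr v hv
      · exact h.v_notMem_Q (by omega) _ hv)
  have h2 : ∀ u, ((O A 3 u ∪ Q A 3 u).card : ℝ) = r + (Q A 3 u).card := by
    intro u
    rw [card_union_of_disjoint (disj_OQ u), hr 3 (by omega)]
    push_cast
    ring
  simp only [h2] at h1
  rw [sum_add_distrib (f := fun _ => (r : ℝ))] at h1
  simp only [sum_const, card_univ, Fintype.card_fin, nsmul_eq_mul] at h1
  set C : ℝ := 12 * (r : ℝ) * (r + 1) with hC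
  have hC0 : 0 ≤ C := by rw [hC]; positivity
  have h3 : ∀ v : Fin n, (Real.sqrt C + 1) / 2 ≤
      ((Q A 0 v).card : ℝ) + (((Q A 0 v).card : ℝ) + ((X A 0 v).card : ℝ)) := by
    intro v
    have h4 := h.three_step (t := 0) (by omega) hr v
    have h5 := h.Q_min hr1 (t := 0) (by omega) hr v
    have h6 : (1 : ℝ) ≤ ((Q A 0 v).card : ℝ) := by
      have : 1 ≤ (Q A 0 v).card := by omega
      exact_mod_cast this
    set q : ℝ := ((Q A 0 v).card : ℝ) with hqdef
    set x : ℝ := ((X A 0 v).card : ℝ) with hxdef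
    have h7 : Real.sqrt C ≤ 2 * (q + (q + x)) - 1 := by
      have hx0 : 0 ≤ x := by rw [hxdef]; exact Nat.cast_nonneg _
      apply Real.sqrt_le_iff.2
      constructor
      · linarith
      · have h8 : C / 12 ≤ q * (2 * x + q - 1) := by rw [hC]; linarith
        nlinarith [sq_nonneg (3 * q - (2 * x + q - 1))]
    linarith
  have h4 := sum_le_sum (fun v (_ : v ∈ (univ : Finset (Fin n))) => h3 v)
  rw [sum_add_distrib, sum_const, card_univ, Fintype.card_fin, nsmul_eq_mul] at h4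
  have h5 : (n : ℝ) * ((Real.sqrt C + 1) / 2) ≤ n * ((n : ℝ) - 1 - 2 * r) := by linarith
  have h6 := le_of_mul_le_mul_left h5 hn0
  have h7 := Real.sqrt_nonneg C
  refine ⟨by linarith, ?_⟩
  have h8 : Real.sqrt C ≤ 2 * ((n : ℝ) - 1 - 2 * r) - 1 := by linarith
  calc C = Real.sqrt C ^ 2 := (Real.sq_sqrt hC0).symm
    _ ≤ _ := pow_le_pow_left₀ h7 h8 2

/-- `Bad` from the trace -/
theorem Bad.of_trace (h01 : ∀ t i j, A t i j = 0 ∨ A t i j = 1) (hd : ∀ t i, A t i i = 1)
    (ha : ∀ t i j, i ≠ j → A t i j = 1 → A t j i ≠ 1)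
    (htr : Matrix.trace (pr A 0 K) ≤ n) : Bad A K := by
  classical
  have hdiag : ∀ s i, 1 ≤ pr A 0 s i i := by
    intro s i
    induction s with
    | zero => simp [pr]
    | succ s ih =>
      simp only [pr, Matrix.mul_apply]
      calc 1 ≤ pr A 0 s i i * A (0 + s) i i := by rw [hd, mul_one]; exact ih
        _ ≤ _ := single_le_sum (f := fun x => pr A 0 s i x * A (0 + s) x i)
            (fun _ _ => Nat.zero_le _) (mem_univ i)
  refine ⟨h01, hd, ha, ?_⟩
  intro i
  have h1 : ∑ j, pr A 0 K j j ≤ n := htr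
  have h2 : ∑ j ∈ univ.erase i, 1 ≤ ∑ j ∈ univ.erase i, pr A 0 K j j :=
    sum_le_sum (fun j _ => hdiag K j)
  rw [← add_sum_erase _ _ (mem_univ i)] at h1
  rw [sum_const, card_erase_of_mem (mem_univ i), card_univ, Fintype.card_fin, smul_eq_mul,
    mul_one] at h2
  have := hdiag K i
  omega

theorem Bad.trace_eq (h : Bad A K) : Matrix.trace (pr A 0 K) = n := by
  have h1 : ∑ j, pr A 0 K j j = ∑ j : Fin n, 1 := sum_congr rfl (fun j _ => h.tr j)
  have h2 : Matrix.trace (pr A 0 K) = ∑ j, pr A 0 K j j := rfl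
  rw [h2, h1]
  simp

theorem pr_congr {A B : ℕ → Matrix (Fin n) (Fin n) ℕ} {a b : ℕ} : ∀ m : ℕ,
    (∀ s < m, A (a + s) = B (b + s)) → pr A a m = pr B b m := by
  intro m
  induction m with
  | zero => intro _; rfl
  | succ m ih =>
    intro h
    rw [pr, pr, ih (fun s hs => h s (by omega)), h m (by omega)]

/-- rotation -/
theorem Bad.rotate (h : Bad A K) {c : ℕ} (hc : c < K) : Bad (fun t => A ((t + c) % K)) K := by
  apply Bad.of_trace (fun t => h.h01 _) (fun t => h.diag _) (fun t => h.anti _)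
  have e1 : pr (fun t => A ((t + c) % K)) 0 (K - c) = pr A c (K - c) := by
    apply pr_congr
    intro s hs
    show A ((0 + s + c) % K) = A (c + s)
    rw [zero_add, Nat.mod_eq_of_lt (by omega), add_comm]
  have e2 : pr (fun t => A ((t + c) % K)) (K - c) c = pr A 0 c := by
    apply pr_congr
    intro s hs
    show A ((K - c + s + c) % K) = A (0 + s)
    have : K - c + s + c = s + K := by omega
    rw [this, Nat.add_mod_right, Nat.mod_eq_of_lt (by omega), zero_add]
  have e3 : pr (fun t => A ((t + c) % K)) 0 K = pr A c (K - c) * pr A 0 c := by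
    rw [← e1, ← e2]
    have := pr_add (fun t => A ((t + c) % K)) 0 (K - c) c
    rw [Nat.sub_add_cancel hc.le, zero_add] at this
    exact this
  have e4 : pr A 0 K = pr A 0 c * pr A c (K - c) := by
    have := pr_add A 0 c (K - c)
    rw [Nat.add_sub_cancel' hc.le, zero_add] at this
    exact this
  rw [e3, Matrix.trace_mul_comm, ← e4]
  exact h.trace_eq.le

theorem O_congr {A B : ℕ → Matrix (Fin n) (Fin n) ℕ} {t u : ℕ} (h : A t = B u) (x : Fin n) :
    O A t x = O B u x := by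
  unfold O
  rw [h]

theorem Q_congr {A B : ℕ → Matrix (Fin n) (Fin n) ℕ} {t u : ℕ} (h : A t = B u)
    (h' : A (t + 1) = B (u + 1)) (x : Fin n) : Q A t x = Q B u x := by
  classical
  have h1 : O A (t + 1) = O B (u + 1) := funext (O_congr h')
  unfold Q
  rw [O_congr h, h1]

/-- passing to smaller digraphs -/
theorem Bad.mono (h : Bad A K) {B : ℕ → Matrix (Fin n) (Fin n) ℕ}
    (h01 : ∀ t i j, B t i j = 0 ∨ B t i j = 1) (hd : ∀ t i, B t i i = 1)
    (hle : ∀ t i j, B t i j ≤ A t i j) : Bad B K := by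
  have hpr : ∀ s i j, pr B 0 s i j ≤ pr A 0 s i j := by
    intro s
    induction s with
    | zero => intro i j; exact le_rfl
    | succ s ih =>
      intro i j
      simp only [pr, Matrix.mul_apply]
      exact sum_le_sum (fun x _ => Nat.mul_le_mul (ih i x) (hle _ _ _))
  apply Bad.of_trace h01 hd
  · intro t i j hij h1 h2
    have h3 := hle t i j
    have h4 := hle t j i
    have h5 := h.anti t i j hij
    rcases h.h01 t i j with e | e <;> rcases h.h01 t j i with e' | e'
    · omega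
    · omega
    · omega
    · exact h5 e e'
  · exact (sum_le_sum (fun i _ => hpr K i i)).trans h.trace_eq.le

theorem Bad.exact (h : Bad A K) {r : ℕ} (hr : ∀ t < K, ∀ i, r ≤ (O A t i).card) :
    ∃ B : ℕ → Matrix (Fin n) (Fin n) ℕ, Bad B K ∧ ∀ t < K, ∀ i, (O B t i).card = r := by
  classical
  have hsel : ∀ t i, ∃ S : Finset (Fin n), S ⊆ O A t i ∧ (t < K → S.card = r) := by
    intro t i
    by_cases ht : t < K
    · obtain ⟨S, hS, hc⟩ := exists_subset_card_eq (hr t ht i)
      exact ⟨S, hS, fun _ => hc⟩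
    · exact ⟨∅, empty_subset _, fun h => absurd h ht⟩
  choose S hS hSc using hsel
  set B : ℕ → Matrix (Fin n) (Fin n) ℕ :=
    fun t i j => if i = j then 1 else if j ∈ S t i then 1 else 0 with hB
  refine ⟨B, ?_, ?_⟩
  · apply h.mono
    · intro t i j
      simp only [hB]
      split_ifs <;> simp
    · intro t i
      simp [hB]
    · intro t i j
      simp only [hB]
      split_ifs with h1 h2
      · subst h1
        rw [h.diag]
      · rw [(mem_O.1 (hS t i h2)).2]
      · exact Nat.zero_le _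
  · intro t ht i
    rw [← hSc t i ht]
    congr 1
    ext j
    rw [mem_O]
    simp only [hB]
    constructor
    · rintro ⟨h1, h2⟩
      rw [if_neg h1] at h2
      by_contra h3
      rw [if_neg h3] at h2
      exact absurd h2 (by norm_num)
    · intro h1
      have h2 := (mem_O.1 (hS t i h1)).1
      exact ⟨h2, by rw [if_neg h2, if_pos h1]⟩

/-- the reduction for matrices indexed by `Fin K` -/
theorem exists_bad {K : ℕ} (r : ℕ) (A : Fin K → Matrix (Fin n) (Fin n) ℕ)
    (h01 : ∀ k i j, A k i j = 0 ∨ A k i j = 1) (hd : ∀ k i, A k i i = 1)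
    (ha : ∀ k i j, i ≠ j → A k i j = 1 → A k j i ≠ 1)
    (hrow : ∀ k i, r + 1 ≤ ∑ j, A k i j) (hcon : ¬ n < Matrix.trace (List.ofFn A).prod) :
    ∃ B : ℕ → Matrix (Fin n) (Fin n) ℕ, Bad B K ∧ ∀ t < K, ∀ i, (O B t i).card = r := by
  classical
  rw [not_lt] at hcon
  set A' : ℕ → Matrix (Fin n) (Fin n) ℕ := fun t => if h : t < K then A ⟨t, h⟩ else 1 with hA'
  have hprod : (List.ofFn A).prod = pr A' 0 K := by
    rw [pr_eq_ofFn]
    congr 2
    funext k
    simp [hA']
  rw [hprod] at hcon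
  have hbad : Bad A' K := by
    apply Bad.of_trace _ _ _ hcon
    · intro t i j
      simp only [hA']
      split_ifs with h
      · exact h01 _ _ _
      · by_cases hij : i = j
        · right; rw [hij, Matrix.one_apply_eq]
        · left; exact Matrix.one_apply_ne hij
    · intro t i
      simp only [hA']
      split_ifs with h
      · exact hd _ _
      · exact Matrix.one_apply_eq i
    · intro t i j hij
      simp only [hA']
      split_ifs with h
      · exact ha _ _ _ hij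
      · intro h1
        rw [Matrix.one_apply_ne hij] at h1
        exact absurd h1 (by norm_num)
  apply hbad.exact
  intro t ht i
  have h1 := hrow ⟨t, ht⟩ i
  have h2 : ∑ j, A ⟨t, ht⟩ i j = ((O A' t i).card) + 1 := by
    rw [← add_sum_erase _ _ (mem_univ i), hd, add_comm]
    congr 1
    rw [O, card_filter, ← sum_erase (s := univ) (a := i)]
    · refine sum_congr rfl (fun j hj => ?_)
      have hij : i ≠ j := (mem_erase.1 hj).1.symm
      simp only [hA', dif_pos ht]
      rcases h01 ⟨t, ht⟩ i j with e | e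
      · rw [e]; simp
      · rw [e]; simp [hij]
    · simp
  omega

/-- five matrices -/
theorem Bad.five (h : Bad A 5) {r : ℕ} (hn : 1 ≤ n) (hr1 : 1 ≤ r)
    (hr : ∀ u < 5, ∀ x, (O A u x).card = r) :
    0 < (n : ℝ) - 1 - 2 * r ∧
      12 * (r : ℝ) * (r + 1) ≤ (2 * ((n : ℝ) - 1 - 2 * r) - 1) ^ 2 := by
  have hrot : ∀ c < 5, ∀ u < 5, ∀ x, (O (fun t => A ((t + c) % 5)) u x).card = r := by
    intro c _ u _ x
    rw [O_congr (A := fun t => A ((t + c) % 5)) (B := A) (t := u) (u := (u + c) % 5) rfl]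
    exact hr _ (Nat.mod_lt _ (by norm_num)) x
  have hb : ∀ c < 5, Bad (fun t => A ((t + c) % 5)) 5 := fun c hc => h.rotate hc
  by_contra hcon
  have key : ∀ c < 5, ∑ v, ((Q (fun t => A ((t + c) % 5)) 3 v).card : ℝ) <
      ∑ v, ((Q (fun t => A ((t + c) % 5)) 0 v).card : ℝ) := by
    intro c hc
    by_contra h1
    exact hcon ((hb c hc).five_half hn hr1 (hrot c hc) (not_lt.1 h1))
  have k0 := key 0 (by norm_num)
  have k1 := key 1 (by norm_num)
  have k2 := key 2 (by norm_num)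
  have k3 := key 3 (by norm_num)
  have k4 := key 4 (by norm_num)
  have e0 : ∀ x, Q (fun t => A ((t + 0) % 5)) 3 x = Q (fun t => A ((t + 3) % 5)) 0 x :=
    fun x => Q_congr rfl rfl x
  have e1 : ∀ x, Q (fun t => A ((t + 1) % 5)) 3 x = Q (fun t => A ((t + 4) % 5)) 0 x :=
    fun x => Q_congr rfl rfl x
  have e2 : ∀ x, Q (fun t => A ((t + 2) % 5)) 3 x = Q (fun t => A ((t + 0) % 5)) 0 x :=
    fun x => Q_congr rfl rfl x
  have e3 : ∀ x, Q (fun t => A ((t + 3) % 5)) 3 x = Q (fun t => A ((t + 1) % 5)) 0 x :=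
    fun x => Q_congr rfl rfl x
  have e4 : ∀ x, Q (fun t => A ((t + 4) % 5)) 3 x = Q (fun t => A ((t + 2) % 5)) 0 x :=
    fun x => Q_congr rfl rfl x
  simp only [e0, e1, e2, e3, e4] at k0 k1 k2 k3 k4
  linarith

theorem exists_shift {n r m : ℕ} (hm0 : 0 < (n : ℝ) - 1 - 2 * r) (hm : n ≤ 2 * r + 1 + m) :
    ∃ a d : ℕ, m = a + d ∧ 1 ≤ a ∧ (n : ℝ) - 1 - 2 * r = a := by
  have hlt : 2 * r + 1 < n := by
    have : (2 * (r : ℝ) + 1) < n := by linarith
    exact_mod_cast this
  obtain ⟨k, hk⟩ := Nat.exists_eq_add_of_lt hlt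
  refine ⟨k + 1, m - (k + 1), by omega, by omega, ?_⟩
  rw [hk]
  push_cast
  ring

/-- five matrices, in natural numbers -/
theorem Bad.five_nat (h : Bad A 5) {r m : ℕ} (hn : 1 ≤ n) (hr1 : 1 ≤ r)
    (hr : ∀ u < 5, ∀ x, (O A u x).card = r) (hm : n ≤ 2 * r + 1 + m) :
    12 * r * (r + 1) + 4 * m ≤ 4 * m ^ 2 + 1 := by
  obtain ⟨hm0, h1⟩ := h.five hn hr1 hr
  obtain ⟨a, d, hmd, ha, he⟩ := exists_shift hm0 hm
  rw [he] at h1
  have ha0 : (1 : ℝ) ≤ a := by exact_mod_cast ha
  have hd0 : (0 : ℝ) ≤ d := Nat.cast_nonneg _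
  have h6 : 0 ≤ ((a : ℝ) - 1) * d := mul_nonneg (by linarith) hd0
  have h5 : 12 * (r : ℝ) * (r + 1) + 4 * m ≤ 4 * (m : ℝ) ^ 2 + 1 := by
    rw [hmd]
    push_cast
    nlinarith [sq_nonneg (d : ℝ)]
  exact_mod_cast h5

theorem five_trace (n r m : ℕ) (hn : 1 ≤ n) (hr : 1 ≤ r) (hm : n ≤ 2 * r + 1 + m)
    (hc : 4 * m ^ 2 + 1 < 12 * r * (r + 1) + 4 * m)
    (A : Fin 5 → Matrix (Fin n) (Fin n) ℕ)
    (h01 : ∀ k i j, A k i j = 0 ∨ A k i j = 1) (hd : ∀ k i, A k i i = 1)
    (ha : ∀ k i j, i ≠ j → A k i j = 1 → A k j i ≠ 1)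
    (hrow : ∀ k i, r + 1 ≤ ∑ j, A k i j) : n < Matrix.trace (List.ofFn A).prod := by
  by_contra hcon
  obtain ⟨B, hB, hB2⟩ := exists_bad r A h01 hd ha hrow hcon
  have := hB.five_nat hn hr hB2 hm
  omega

end Pool.Agent.Lib.MP_323cd4_co
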