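import Mathlib

/-!
Products of four tournament-like matrices (MP_323cd4_co): the combinatorial part and the trace.
-/

set_option autoImplicit false

namespace Pool.Agent.Lib.MP_323cd4_co.Four

open Finset

variable {V : Type*} [Fintype V] [DecidableEq V]

/-- one lazy step -/
def L (N : V → Finset V) (x : V) : Finset V := insert x (N x)

omit [Fintype V] in
theorem mem_L {N : V → Finset V} {x y : V} : y ∈ L N x ↔ y = x ∨ y ∈ N x := by simp [L]

omit [Fintype V] in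
theorem card_inter_eq (A U : Finset V) : (A ∩ U).card = ∑ z ∈ U, if z ∈ A then 1 else 0 := by
  rw [← Finset.card_filter]
  congr 1
  ext z
  simp [and_comm]

omit [Fintype V] in
/-- at most one direction between two sets -/
theorem sum_cross (N M : V → Finset V) (U S : Finset V)
    (h : ∀ y ∈ U, ∀ a ∈ S, a ∈ N y → y ∉ M a) :
    ∑ y ∈ U, (N y ∩ S).card + ∑ a ∈ S, (M a ∩ U).card ≤ U.card * S.card := by
  have h1 : ∑ a ∈ S, (M a ∩ U).card = ∑ y ∈ U, ∑ a ∈ S, if y ∈ M a then 1 else 0 := by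
    rw [sum_comm]
    exact sum_congr rfl fun a _ => card_inter_eq _ _
  have h2 : ∑ y ∈ U, (N y ∩ S).card = ∑ y ∈ U, ∑ a ∈ S, if a ∈ N y then 1 else 0 :=
    sum_congr rfl fun a _ => card_inter_eq _ _
  rw [h1, h2, ← sum_add_distrib]
  have h3 : ∀ y ∈ U, (∑ a ∈ S, (if a ∈ N y then 1 else 0)) + (∑ a ∈ S, if y ∈ M a then 1 else 0)
      ≤ S.card := by
    intro y hy
    rw [← sum_add_distrib, card_eq_sum_ones]
    refine sum_le_sum fun a ha => ?_
    by_cases h4 : a ∈ N y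
    · have h5 := h y hy a ha h4
      simp [h4, h5]
    · by_cases h5 : y ∈ M a <;> simp [h4, h5]
  calc _ ≤ ∑ y ∈ U, S.card := sum_le_sum h3
    _ = U.card * S.card := by rw [sum_const, smul_eq_mul]

omit [Fintype V] in
/-- an oriented graph on a set has at most half of the ordered pairs -/
theorem sum_inner (N : V → Finset V) (hN : ∀ x y, y ∈ N x → x ∉ N y) (U : Finset V) :
    2 * ∑ y ∈ U, (N y ∩ U).card + U.card ≤ U.card * U.card := by
  have h1 : ∑ a ∈ U, (N a ∩ U).card = ∑ y ∈ U, ∑ a ∈ U, if y ∈ N a then 1 else 0 := by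
    rw [sum_comm]
    exact sum_congr rfl fun a _ => card_inter_eq _ _
  have h2 : ∑ y ∈ U, (N y ∩ U).card = ∑ y ∈ U, ∑ a ∈ U, if a ∈ N y then 1 else 0 :=
    sum_congr rfl fun a _ => card_inter_eq _ _
  have h0 : U.card = ∑ y ∈ U, ∑ a ∈ U, if a = y then 1 else 0 := by
    rw [card_eq_sum_ones]
    refine sum_congr rfl fun y hy => ?_
    rw [sum_ite_eq' U y]
    simp [hy]
  have h3 : ∀ y ∈ U, (∑ a ∈ U, (if a ∈ N y then 1 else 0)) + (∑ a ∈ U, if y ∈ N a then 1 else 0)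
      + (∑ a ∈ U, if a = y then 1 else 0) ≤ U.card := by
    intro y hy
    rw [← sum_add_distrib, ← sum_add_distrib, card_eq_sum_ones]
    refine sum_le_sum fun a ha => ?_
    by_cases h6 : a = y
    · subst h6
      have h7 : a ∉ N a := fun h => hN a a h h
      simp [h7]
    · by_cases h4 : a ∈ N y
      · have h5 := hN y a h4
        simp [h4, h5, h6]
      · by_cases h5 : y ∈ N a <;> simp [h4, h5, h6]
  have h8 := sum_le_sum h3
  rw [sum_add_distrib, sum_add_distrib, ← h1, ← h2, ← h0, sum_const, smul_eq_mul] at h8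
  linarith

/-- two lazy steps -/
def F2 (N1 N2 : V → Finset V) (v : V) : Finset V := (L N1 v).biUnion (L N2)

/-- three lazy steps -/
def F3 (N1 N2 N3 : V → Finset V) (v : V) : Finset V := (F2 N1 N2 v).biUnion (L N3)

omit [Fintype V] in
theorem mem_F2 {N1 N2 : V → Finset V} {v y : V} :
    y ∈ F2 N1 N2 v ↔ ∃ x ∈ L N1 v, y ∈ L N2 x := by simp [F2]

omit [Fintype V] in
theorem mem_F3 {N1 N2 N3 : V → Finset V} {v y : V} :
    y ∈ F3 N1 N2 N3 v ↔ ∃ x ∈ F2 N1 N2 v, y ∈ L N3 x := by simp [F3]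

/-- `N_1, .., N_4` is a counterexample: out-degrees `r`, oriented, no closed lazy walk. -/
structure Bad (r : ℕ) (N1 N2 N3 N4 : V → Finset V) : Prop where
  c1 : ∀ x, (N1 x).card = r
  c2 : ∀ x, (N2 x).card = r
  c3 : ∀ x, (N3 x).card = r
  c4 : ∀ x, (N4 x).card = r
  a1 : ∀ x y, y ∈ N1 x → x ∉ N1 y
  a2 : ∀ x y, y ∈ N2 x → x ∉ N2 y
  a3 : ∀ x y, y ∈ N3 x → x ∉ N3 y
  a4 : ∀ x y, y ∈ N4 x → x ∉ N4 y
  cyc : ∀ x0 x1 x2 x3, x1 ∈ L N1 x0 → x2 ∈ L N2 x1 → x3 ∈ L N3 x2 → x0 ∈ L N4 x3 →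
    x1 = x0 ∧ x2 = x0 ∧ x3 = x0

variable {r : ℕ} {N1 N2 N3 N4 : V → Finset V}

omit [Fintype V] in
theorem Bad.rot (h : Bad r N1 N2 N3 N4) : Bad r N2 N3 N4 N1 where
  c1 := h.c2
  c2 := h.c3
  c3 := h.c4
  c4 := h.c1
  a1 := h.a2
  a2 := h.a3
  a3 := h.a4
  a4 := h.a1
  cyc x0 x1 x2 x3 h0 h1 h2 h3 := by
    obtain ⟨e1, e2, e3⟩ := h.cyc x3 x0 x1 x2 h3 h0 h1 h2
    exact ⟨e2.trans e1.symm, e3.trans e1.symm, e1.symm⟩

omit [Fintype V] in
/-- the local estimate -/
theorem Bad.local (h : Bad r N1 N2 N3 N4) (hr : 1 ≤ r) (v : V) : ∃ u : ℕ,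
    (F2 N1 N2 v).card = 1 + r + u ∧ 1 ≤ u ∧
    u * (2 * r + u + 3) + r * (r + 1) ≤ 2 * (u * (F3 N1 N2 N3 v).card) := by
  set S := N1 v with hS
  set T := F2 N1 N2 v with hT
  set U := T \ insert v S with hU
  have hself : ∀ {N : V → Finset V} {x : V}, x ∈ L N x := fun {N x} => mem_L.2 (Or.inl rfl)
  have hvS : v ∉ S := fun hv => h.a1 v v hv hv
  have hvT : v ∈ T := mem_F2.2 ⟨v, hself, hself⟩
  have hST : S ⊆ T := fun a ha => mem_F2.2 ⟨a, mem_L.2 (Or.inr ha), hself⟩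
  have hins : insert v S ⊆ T := insert_subset hvT hST
  have hcS : S.card = r := h.c1 v
  have hcT : T.card = 1 + r + U.card := by
    have := card_sdiff_add_card_eq_card hins
    rw [card_insert_of_notMem hvS, hcS] at this
    rw [hU]; omega
  -- `v` is not reached from `S` at time two
  have hvN2 : ∀ a ∈ S, v ∉ N2 a := by
    intro a ha hv
    have := (h.cyc v a v v (mem_L.2 (Or.inr ha)) (mem_L.2 (Or.inr hv)) hself hself).1
    exact hvS (this ▸ ha)
  have hN2T : ∀ a ∈ S, N2 a ⊆ T := fun a ha y hy =>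
    mem_F2.2 ⟨a, mem_L.2 (Or.inr ha), mem_L.2 (Or.inr hy)⟩
  have hsplit2 : ∀ a ∈ S, (N2 a ∩ S).card + (N2 a ∩ U).card = r := by
    intro a ha
    rw [← card_union_of_disjoint, ← inter_union_distrib_left, ← h.c2 a]
    · congr 1
      refine inter_eq_left.2 fun y hy => ?_
      by_cases hyS : y ∈ S
      · exact mem_union_left _ hyS
      · refine mem_union_right _ (mem_sdiff.2 ⟨hN2T a ha hy, ?_⟩)
        rw [mem_insert]
        rintro (e | e)
        · exact hvN2 a ha (e ▸ hy)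
        · exact hyS e
    · rw [disjoint_left]
      intro y h1 h2
      exact (mem_sdiff.1 (mem_inter.1 h2).2).2 (mem_insert_of_mem (mem_inter.1 h1).2)
  have hSS := sum_inner N2 h.a2 S
  have hsum2 : ∑ a ∈ S, (N2 a ∩ S).card + ∑ a ∈ S, (N2 a ∩ U).card = r * r := by
    rw [← sum_add_distrib, sum_congr rfl hsplit2, sum_const, hcS, smul_eq_mul]
  have hUU := sum_inner N3 h.a3 U
  have hUS := sum_cross N3 N2 U S (by
    intro y hy a ha h1 h2
    have := (h.cyc a a y a hself (mem_L.2 (Or.inr h2)) (mem_L.2 (Or.inr h1)) hself).2.1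
    exact (mem_sdiff.1 hy).2 (mem_insert_of_mem (this ▸ ha)))
  have hF : ∀ y ∈ U, T.card + r ≤ (F3 N1 N2 N3 v).card + ((N3 y ∩ S).card + (N3 y ∩ U).card) := by
    intro y hy
    have hyT : y ∈ T := (mem_sdiff.1 hy).1
    have hyv : y ≠ v := fun e => (mem_sdiff.1 hy).2 (e ▸ mem_insert_self _ _)
    have hv3 : v ∉ N3 y := by
      intro hv
      obtain ⟨x, hx1, hx2⟩ := mem_F2.1 hyT
      exact hyv (h.cyc v x y v hx1 hx2 (mem_L.2 (Or.inr hv)) hself).2.1
    have h1 : T ∪ N3 y ⊆ F3 N1 N2 N3 v := by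
      intro z hz
      rcases mem_union.1 hz with hz | hz
      · exact mem_F3.2 ⟨z, hz, hself⟩
      · exact mem_F3.2 ⟨y, hyT, mem_L.2 (Or.inr hz)⟩
    have h2 := card_union_add_card_inter T (N3 y)
    have h3 : (T ∩ N3 y).card ≤ (N3 y ∩ S).card + (N3 y ∩ U).card := by
      rw [← card_union_of_disjoint]
      · refine card_le_card fun z hz => ?_
        obtain ⟨hz1, hz2⟩ := mem_inter.1 hz
        by_cases hzS : z ∈ S
        · exact mem_union_left _ (mem_inter.2 ⟨hz2, hzS⟩)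
        · refine mem_union_right _ (mem_inter.2 ⟨hz2, mem_sdiff.2 ⟨hz1, ?_⟩⟩)
          rw [mem_insert]
          rintro (e | e)
          · exact hv3 (e ▸ hz2)
          · exact hzS e
      · rw [disjoint_left]
        intro y h1 h2
        exact (mem_sdiff.1 (mem_inter.1 h2).2).2 (mem_insert_of_mem (mem_inter.1 h1).2)
    have h4 := card_le_card h1
    rw [h.c3 y] at h2
    omega
  have hsumF := sum_le_sum hF
  rw [sum_const, sum_add_distrib, sum_add_distrib, sum_const, smul_eq_mul, smul_eq_mul, hcT] at hsumF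
  rw [hcS] at hSS hUS
  have hSU : ∑ a ∈ S, (N2 a ∩ U).card ≤ r * U.card := by
    calc _ ≤ ∑ a ∈ S, U.card := sum_le_sum fun a _ => card_le_card inter_subset_right
      _ = r * U.card := by rw [sum_const, hcS, smul_eq_mul]
  refine ⟨U.card, hcT, ?_, ?_⟩
  · by_contra hc
    have h0 : U.card = 0 := by omega
    rw [h0, mul_zero] at hSU
    nlinarith
  · nlinarith


/-- double counting -/
theorem sum_card_filter (F : V → Finset V) :
    ∑ v : V, (univ.filter fun y => v ∈ F y).card = ∑ y : V, (F y).card := by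
  have h1 : ∀ v : V, (univ.filter fun y => v ∈ F y).card = ∑ y : V, if v ∈ F y then 1 else 0 :=
    fun v => card_filter _ _
  have h2 : ∀ y : V, (F y).card = ∑ v : V, if v ∈ F y then 1 else 0 := by
    intro y
    rw [← card_filter]
    congr 1
    ext z
    simp
  simp_rw [h1, h2]
  exact sum_comm

theorem Bad.pair (h : Bad r N1 N2 N3 N4) :
    ∑ v : V, (F2 N1 N2 v).card + ∑ v : V, (F2 N3 N4 v).card ≤
      Fintype.card V * (Fintype.card V + 1) := by
  rw [← sum_card_filter (F2 N3 N4), ← sum_add_distrib]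
  have h1 : ∀ v : V, (F2 N1 N2 v).card + (univ.filter fun y => v ∈ F2 N3 N4 y).card ≤
      Fintype.card V + 1 := by
    intro v
    rw [← card_union_add_card_inter]
    refine add_le_add (card_le_univ _) ?_
    refine (card_le_card (t := {v}) fun y hy => ?_).trans (by simp)
    obtain ⟨hy1, hy2⟩ := mem_inter.1 hy
    obtain ⟨x, hx1, hx2⟩ := mem_F2.1 hy1
    obtain ⟨z, hz1, hz2⟩ := mem_F2.1 (mem_filter.1 hy2).2
    exact mem_singleton.2 (h.cyc v x y z hx1 hx2 hz1 hz2).2.1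
  calc _ ≤ ∑ _v : V, (Fintype.card V + 1) := sum_le_sum fun v _ => h1 v
    _ = _ := by rw [sum_const, card_univ, smul_eq_mul]

theorem Bad.three (h : Bad r N1 N2 N3 N4) :
    ∑ v : V, (F3 N1 N2 N3 v).card + Fintype.card V * r ≤ Fintype.card V * Fintype.card V := by
  have h0 : Fintype.card V * r = ∑ v : V, (univ.filter fun y => v ∈ N4 y).card := by
    rw [sum_card_filter, sum_congr rfl fun y _ => h.c4 y, sum_const, card_univ, smul_eq_mul]
  rw [h0, ← sum_add_distrib]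
  have h1 : ∀ v : V, (F3 N1 N2 N3 v).card + (univ.filter fun y => v ∈ N4 y).card ≤
      Fintype.card V := by
    intro v
    rw [← card_union_of_disjoint]
    · exact card_le_univ _
    · rw [disjoint_left]
      intro y hy1 hy2
      obtain ⟨x2, hx2, hx3⟩ := mem_F3.1 hy1
      obtain ⟨x1, hx1, hx2'⟩ := mem_F2.1 hx2
      have h4 := (mem_filter.1 hy2).2
      have := (h.cyc v x1 x2 y hx1 hx2' hx3 (mem_L.2 (Or.inr h4))).2.2
      subst this
      exact h.a4 y y h4 h4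
  calc _ ≤ ∑ _v : V, Fintype.card V := sum_le_sum fun v _ => h1 v
    _ = _ := by rw [sum_const, card_univ, smul_eq_mul]

theorem Bad.final (h : Bad r N1 N2 N3 N4) (hr : 1 ≤ r) (hV : 1 ≤ Fintype.card V)
    (hhalf : 2 * ∑ v : V, (F2 N1 N2 v).card ≤ Fintype.card V * (Fintype.card V + 1)) (w : ℤ)
    (hw : (Fintype.card V : ℤ) = 2 * r + 1 + w) : 4 * r * (r + 1 : ℤ) ≤ 3 * w ^ 2 - 2 * w := by
  choose u hu1 hu2 hu3 using fun v => h.local hr v
  have h3 := h.three
  set n := Fintype.card V with hn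
  have hsu : 2 * ∑ v : V, (u v : ℝ) ≤ n * w := by
    have e1 : ∑ v : V, (F2 N1 N2 v).card = n * (1 + r) + ∑ v : V, u v := by
      rw [sum_congr rfl fun v _ => hu1 v, sum_add_distrib, sum_const, card_univ, smul_eq_mul]
    rw [e1] at hhalf
    have e2 : (2 * ((n : ℝ) * (1 + r) + ∑ v : V, (u v : ℝ))) ≤ n * (n + 1) := by
      exact_mod_cast hhalf
    have e3 : (n : ℝ) = 2 * r + 1 + w := by exact_mod_cast hw
    have e4 : (n : ℝ) * (n + 1) = n * (2 * r + 1 + w + 1) := by rw [← e3]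
    rw [e4] at e2
    linarith
  have hsu2 : (n : ℝ) ≤ ∑ v : V, (u v : ℝ) := by
    have : ∑ _v : V, (1 : ℝ) ≤ ∑ v : V, (u v : ℝ) :=
      sum_le_sum fun v _ => by exact_mod_cast hu2 v
    simpa using this
  have hn0 : (0 : ℝ) < n := by exact_mod_cast hV
  have hw2 : (2 : ℝ) ≤ w := by
    by_contra hc
    rw [not_le] at hc
    nlinarith
  by_contra hcon
  rw [not_le] at hcon
  have hconR : 3 * (w : ℝ) ^ 2 - 2 * w < 4 * r * (r + 1) := by exact_mod_cast hcon
  set R : ℝ := r * (r + 1) with hR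
  set m : ℝ := w / 2 with hm
  have hm1 : 1 ≤ m := by rw [hm]; linarith
  have hm0 : 0 < m := by linarith
  have hR0 : 0 ≤ R := by positivity
  have hcon2 : 3 * m ^ 2 - m < R := by
    rw [hm, hR]; nlinarith
  have hmR : m ^ 2 ≤ R := by nlinarith
  have hsF : ∀ v : V, 2 * (r : ℝ) + 3 + 2 * R / m + u v * (1 - R / m ^ 2) ≤
      2 * ((F3 N1 N2 N3 v).card : ℝ) := by
    intro v
    have hu : (1 : ℝ) ≤ u v := by exact_mod_cast hu2 v
    have hu0 : (0 : ℝ) < u v := by linarith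
    have e1 : (u v : ℝ) * (2 * r + u v + 3) + R ≤ 2 * (u v * ((F3 N1 N2 N3 v).card : ℝ)) := by
      rw [hR]; exact_mod_cast hu3 v
    have e2 : R * (2 * u v / m - (u v) ^ 2 / m ^ 2) ≤ R := by
      have e3 : 2 * (u v : ℝ) / m - (u v) ^ 2 / m ^ 2 = 1 - (u v / m - 1) ^ 2 := by
        field_simp; ring
      rw [e3]
      nlinarith [sq_nonneg ((u v : ℝ) / m - 1)]
    have e4 : (u v : ℝ) * (2 * (r : ℝ) + 3 + 2 * R / m + u v * (1 - R / m ^ 2)) ≤
        u v * (2 * ((F3 N1 N2 N3 v).card : ℝ)) := by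
      have e5 : (u v : ℝ) * (2 * (r : ℝ) + 3 + 2 * R / m + u v * (1 - R / m ^ 2)) =
          (u v : ℝ) * (2 * r + u v + 3) + R * (2 * u v / m - (u v) ^ 2 / m ^ 2) := by
        field_simp; ring
      rw [e5]
      linarith
    exact le_of_mul_le_mul_left e4 hu0
  have hsum := sum_le_sum fun v (_ : v ∈ (univ : Finset V)) => hsF v
  rw [sum_add_distrib, sum_const, card_univ, nsmul_eq_mul, ← sum_mul, ← mul_sum, ← hn] at hsum
  have h3R : ∑ v : V, ((F3 N1 N2 N3 v).card : ℝ) + n * r ≤ n * n := by exact_mod_cast h3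
  have hneg : 1 - R / m ^ 2 ≤ 0 := by
    rw [sub_nonpos, le_div_iff₀ (by positivity)]
    linarith
  have hsu3 : (∑ v : V, (u v : ℝ)) * (1 - R / m ^ 2) ≥ (n * m) * (1 - R / m ^ 2) := by
    refine mul_le_mul_of_nonpos_right ?_ hneg
    rw [hm]; linarith
  have e6 : (n : ℝ) * (2 * r + 3 + 2 * R / m) + (n * m) * (1 - R / m ^ 2) =
      n * (2 * r + 3 + m + R / m) := by
    field_simp; ring
  have e7 : (n : ℝ) * (2 * r + 3 + m + R / m) ≤ n * (2 * (n - r)) := by
    rw [← e6]; nlinarith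
  have e8 := le_of_mul_le_mul_left e7 hn0
  have e9 : (n : ℝ) = 2 * r + 1 + 2 * m := by
    rw [hm]
    have : (n : ℝ) = 2 * r + 1 + w := by exact_mod_cast hw
    rw [this]; ring
  rw [e9] at e8
  have e10 : R / m ≤ 3 * m - 1 := by linarith
  rw [div_le_iff₀ hm0] at e10
  nlinarith

/-- The combinatorial theorem: a counterexample has `4 r (r + 1) ≤ 3 w ^ 2 - 2 w` for
`w = n - 1 - 2 r`. -/
theorem Bad.main (h : Bad r N1 N2 N3 N4) (hr : 1 ≤ r) (hV : 1 ≤ Fintype.card V) (w : ℤ)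
    (hw : (Fintype.card V : ℤ) = 2 * r + 1 + w) : 4 * r * (r + 1 : ℤ) ≤ 3 * w ^ 2 - 2 * w := by
  have h1 := h.pair
  rcases le_total (∑ v : V, (F2 N1 N2 v).card) (∑ v : V, (F2 N3 N4 v).card) with h2 | h2
  · exact h.final hr hV (by linarith) w hw
  · exact h.rot.rot.final hr hV (by linarith) w hw

end Pool.Agent.Lib.MP_323cd4_co.Four
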