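import Mathlib
import Pool.Agent.Lib.MP_323cd4_co.Four

/-!
Products of four tournament-like matrices (MP_323cd4_co): from the trace to the combinatorial part.
-/

set_option autoImplicit false

namespace Pool.Agent.Lib.MP_323cd4_co.Four

open Finset

/-- the diagonal entries of a product of four matrices -/
theorem diag4 {n : ℕ} (A1 A2 A3 A4 : Matrix (Fin n) (Fin n) ℕ) (x : Fin n) :
    (A1 * A2 * A3 * A4) x x = ∑ p : Fin n × Fin n × Fin n,
      A1 x p.1 * A2 p.1 p.2.1 * A3 p.2.1 p.2.2 * A4 p.2.2 x := by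
  simp only [Matrix.mul_apply, Finset.sum_mul, Fintype.sum_prod_type]
  rw [Finset.sum_comm]
  simp_rw [Finset.sum_comm (s := (univ : Finset (Fin n))) (t := (univ : Finset (Fin n)))
    (f := fun x_1 x_2 => A1 x x_2 * A2 x_2 _ * A3 _ x_1 * A4 x_1 x)]
  rw [Finset.sum_comm]

theorem closed4 {n : ℕ} (A1 A2 A3 A4 : Matrix (Fin n) (Fin n) ℕ)
    (d1 : ∀ i, A1 i i = 1) (d2 : ∀ i, A2 i i = 1) (d3 : ∀ i, A3 i i = 1) (d4 : ∀ i, A4 i i = 1)
    (hle : Matrix.trace (A1 * A2 * A3 * A4) ≤ n) (x0 x1 x2 x3 : Fin n)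
    (h1 : A1 x0 x1 = 1) (h2 : A2 x1 x2 = 1) (h3 : A3 x2 x3 = 1) (h4 : A4 x3 x0 = 1) :
    x1 = x0 ∧ x2 = x0 ∧ x3 = x0 := by
  by_contra hcon
  have hge : ∀ x, 1 ≤ (A1 * A2 * A3 * A4) x x := by
    intro x
    rw [diag4]
    have := single_le_sum (f := fun p : Fin n × Fin n × Fin n =>
      A1 x p.1 * A2 p.1 p.2.1 * A3 p.2.1 p.2.2 * A4 p.2.2 x) (fun _ _ => Nat.zero_le _)
      (mem_univ (x, x, x))
    simpa [d1, d2, d3, d4] using this
  have h5 : 2 ≤ (A1 * A2 * A3 * A4) x0 x0 := by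
    rw [diag4]
    have hne : ((x0, x0, x0) : Fin n × Fin n × Fin n) ≠ (x1, x2, x3) := by
      intro e
      simp only [Prod.mk.injEq] at e
      exact hcon ⟨e.1.symm, e.2.1.symm, e.2.2.symm⟩
    have := sum_le_sum_of_subset (f := fun p : Fin n × Fin n × Fin n =>
      A1 x0 p.1 * A2 p.1 p.2.1 * A3 p.2.1 p.2.2 * A4 p.2.2 x0)
      (subset_univ {(x0, x0, x0), (x1, x2, x3)})
    rw [sum_pair hne] at this
    simpa [d1, d2, d3, d4, h1, h2, h3, h4] using this
  have h6 : n < Matrix.trace (A1 * A2 * A3 * A4) := by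
    have h7 : ∑ _x : Fin n, 1 < ∑ x : Fin n, (A1 * A2 * A3 * A4) x x :=
      sum_lt_sum (fun x _ => hge x) ⟨x0, mem_univ _, by omega⟩
    simpa [Matrix.trace] using h7
  omega

/-- out-neighbourhoods of exact size `r` -/
theorem exists_nbhd {n r : ℕ} (A : Matrix (Fin n) (Fin n) ℕ)
    (h01 : ∀ i j, A i j = 0 ∨ A i j = 1) (hd : ∀ i, A i i = 1)
    (hrow : ∀ i, r + 1 ≤ ∑ j, A i j) :
    ∃ N : Fin n → Finset (Fin n), (∀ x, (N x).card = r) ∧ ∀ x y, y ∈ N x → x ≠ y ∧ A x y = 1 := by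
  have h1 : ∀ x, r ≤ (univ.filter fun y => x ≠ y ∧ A x y = 1).card := by
    intro x
    have h2 : ∑ j, A x j ≤ 1 + (univ.filter fun y => x ≠ y ∧ A x y = 1).card := by
      rw [card_filter]
      rw [← add_sum_erase _ _ (mem_univ x), hd,
        ← add_sum_erase univ (fun y => if x ≠ y ∧ A x y = 1 then 1 else 0) (mem_univ x)]
      have h3 : ∑ y ∈ univ.erase x, A x y ≤
          ∑ y ∈ univ.erase x, if x ≠ y ∧ A x y = 1 then 1 else 0 := by
        refine sum_le_sum fun y hy => ?_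
        have hxy : x ≠ y := fun e => (mem_erase.1 hy).1 e.symm
        rcases h01 x y with e | e
        · rw [e]; exact Nat.zero_le _
        · rw [e, if_pos ⟨hxy, rfl⟩]
      simp only [ne_eq, not_true_eq_false, false_and, if_false, zero_add] at h3 ⊢
      exact Nat.add_le_add_left h3 1
    have := hrow x
    omega
  choose N hN1 hN2 using fun x => exists_subset_card_eq (h1 x)
  refine ⟨N, hN2, fun x y hy => ?_⟩
  have := hN1 x hy
  exact (mem_filter.1 this).2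

/-- **Products of four matrices.** -/
theorem trace_four (n r w : ℕ) (hn : 1 ≤ n) (hnw : n ≤ 2 * r + 1 + w)
    (hw : 3 * w ^ 2 < 4 * r * (r + 1) + 2 * w)
    (A : Fin 4 → Matrix (Fin n) (Fin n) ℕ)
    (h01 : ∀ k i j, A k i j = 0 ∨ A k i j = 1)
    (hd : ∀ k i, A k i i = 1)
    (ha : ∀ k i j, i ≠ j → A k i j = 1 → A k j i ≠ 1)
    (hrow : ∀ k i, r + 1 ≤ ∑ j, A k i j) :
    n < Matrix.trace (List.ofFn A).prod := by
  have hprod : (List.ofFn A).prod = A 0 * A 1 * A 2 * A 3 := by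
    simp [List.ofFn_succ, mul_assoc]
  rw [hprod]
  by_contra hcon
  rw [not_lt] at hcon
  have hr : 1 ≤ r := by
    rcases Nat.eq_zero_or_pos r with h0 | h0
    · subst h0
      exfalso
      rcases Nat.eq_zero_or_pos w with h1 | h1
      · subst h1; simp at hw
      · nlinarith
    · exact h0
  choose N hN1 hN2 using fun k => exists_nbhd (A k) (h01 k) (hd k) (hrow k)
  have hL : ∀ k x y, y ∈ L (N k) x → A k x y = 1 := by
    intro k x y hy
    rcases mem_L.1 hy with e | e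
    · rw [e]; exact hd k x
    · exact (hN2 k x y e).2
  have hbad : Bad r (N 0) (N 1) (N 2) (N 3) := by
    refine ⟨hN1 0, hN1 1, hN1 2, hN1 3, ?_, ?_, ?_, ?_, ?_⟩
    · exact fun x y h h' => ha 0 x y (hN2 0 x y h).1 (hN2 0 x y h).2 (hN2 0 y x h').2
    · exact fun x y h h' => ha 1 x y (hN2 1 x y h).1 (hN2 1 x y h).2 (hN2 1 y x h').2
    · exact fun x y h h' => ha 2 x y (hN2 2 x y h).1 (hN2 2 x y h).2 (hN2 2 y x h').2
    · exact fun x y h h' => ha 3 x y (hN2 3 x y h).1 (hN2 3 x y h).2 (hN2 3 y x h').2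
    · intro x0 x1 x2 x3 h1 h2 h3 h4
      exact closed4 (A 0) (A 1) (A 2) (A 3) (hd 0) (hd 1) (hd 2) (hd 3) hcon x0 x1 x2 x3
        (hL 0 _ _ h1) (hL 1 _ _ h2) (hL 2 _ _ h3) (hL 3 _ _ h4)
  have hmain := hbad.main hr (by simpa using hn) ((n : ℤ) - 2 * r - 1) (by
    rw [Fintype.card_fin]; ring)
  have hz : (n : ℤ) - 2 * r - 1 ≤ w := by
    have : (n : ℤ) ≤ 2 * r + 1 + w := by exact_mod_cast hnw
    linarith
  have hw' : 3 * (w : ℤ) ^ 2 < 4 * r * (r + 1) + 2 * w := by exact_mod_cast hw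
  set z : ℤ := (n : ℤ) - 2 * r - 1 with hzdef
  -- `z ≥ 1`
  have hz0 : 0 ≤ z := by
    by_contra hneg
    rw [not_le] at hneg
    -- the out-neighbourhoods do not fit: use the in-set count
    have h1 := sum_inner (N 0) hbad.a1 (univ : Finset (Fin n))
    simp only [inter_univ, card_univ, Fintype.card_fin] at h1
    rw [sum_congr rfl fun y _ => hN1 0 y, sum_const, card_univ, Fintype.card_fin, smul_eq_mul] at h1
    have h2 : (2 * ((n : ℤ) * r) + n) ≤ n * n := by exact_mod_cast h1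
    have h3 : (1 : ℤ) ≤ n := by exact_mod_cast hn
    nlinarith
  rcases le_or_gt z 1 with h1 | h1
  · have hr' : (1 : ℤ) ≤ r := by exact_mod_cast hr
    nlinarith
  · nlinarith


/-- The ratio form: `n ≤ 3.154 r + 1.8` suffices (`2 + 2 / √3 = 3.1547..`). -/
theorem trace_four_ratio (n r : ℕ) (hn : 1 ≤ n) (hr : 1 ≤ r) (hnr : 1000 * n ≤ 3154 * r + 1800)
    (A : Fin 4 → Matrix (Fin n) (Fin n) ℕ)
    (h01 : ∀ k i j, A k i j = 0 ∨ A k i j = 1)
    (hd : ∀ k i, A k i i = 1)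
    (ha : ∀ k i j, i ≠ j → A k i j = 1 → A k j i ≠ 1)
    (hrow : ∀ k i, r + 1 ≤ ∑ j, A k i j) :
    n < Matrix.trace (List.ofFn A).prod := by
  rcases Nat.lt_or_ge (2 * r + 1) n with h | h
  · obtain ⟨w, rfl⟩ := Nat.exists_eq_add_of_le h.le
    refine trace_four _ r w hn le_rfl ?_ A h01 hd ha hrow
    have h1 : 1000 * w ≤ 1154 * r + 800 := by omega
    have h2 : 1000 * (w : ℤ) ≤ 1154 * r + 800 := by exact_mod_cast h1
    have h3 : (1 : ℤ) ≤ r := by exact_mod_cast hr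
    have h4 : (0 : ℤ) ≤ w := by positivity
    have h5 : 3 * (w : ℤ) ^ 2 < 4 * r * (r + 1) + 2 * w := by
      nlinarith [mul_nonneg h4 (sub_nonneg.2 h2), mul_nonneg (sub_nonneg.2 h3) (sub_nonneg.2 h2),
        mul_nonneg (sub_nonneg.2 h3) (sub_nonneg.2 h3)]
    exact_mod_cast h5
  · exact trace_four n r 0 hn (by omega) (by
      have : 0 < r * (r + 1) := by positivity
      nlinarith) A h01 hd ha hrow


/-- The exact length: `⌈n / r⌉ = 4` matrices, for `3 r < n ≤ 3.154 r + 1.8`. -/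
theorem trace_four_ceil (n r : ℕ) (hn : 1 ≤ n) (hr : 1 ≤ r) (h3 : 3 * r < n)
    (hnr : 1000 * n ≤ 3154 * r + 1800) (A : Fin ((n + r - 1) / r) → Matrix (Fin n) (Fin n) ℕ)
    (h01 : ∀ k i j, A k i j = 0 ∨ A k i j = 1)
    (hd : ∀ k i, A k i i = 1)
    (ha : ∀ k i j, i ≠ j → A k i j = 1 → A k j i ≠ 1)
    (hrow : ∀ k i, r + 1 ≤ ∑ j, A k i j) :
    n < Matrix.trace (List.ofFn A).prod := by
  have hk : (n + r - 1) / r = 4 := by
    rw [Nat.div_eq_iff (by omega)]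
    constructor <;> omega
  generalize (n + r - 1) / r = k at A h01 hd ha hrow hk
  subst hk
  exact trace_four_ratio n r hn hr hnr A h01 hd ha hrow

end Pool.Agent.Lib.MP_323cd4_co.Four
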