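import Mathlib
import Pool.Agent.Lib.MP_323cd4_co.Four

/-!
Products of three tournament-like matrices (MP_323cd4_co): the combinatorial part.

If `N_1, N_2, N_3` are out-neighbourhood systems of out-degree `r` on `n` points without closed
lazy walks, then `50 r < 19 (n - 1)`.
-/

set_option autoImplicit false

namespace Pool.Agent.Lib.MP_323cd4_co.Golden

open Finset
open Pool.Agent.Lib.MP_323cd4_co.Four (sum_inner sum_cross)

variable {V : Type*} [Fintype V] [DecidableEq V]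

/-- `N_1, N_2, N_3` have out-degrees `r`, are oriented, and there is no closed lazy walk. -/
structure Tri (r : ℕ) (N1 N2 N3 : V → Finset V) : Prop where
  c1 : ∀ x, (N1 x).card = r
  c2 : ∀ x, (N2 x).card = r
  c3 : ∀ x, (N3 x).card = r
  a1 : ∀ x y, y ∈ N1 x → x ∉ N1 y
  a2 : ∀ x y, y ∈ N2 x → x ∉ N2 y
  a3 : ∀ x y, y ∈ N3 x → x ∉ N3 y
  o12 : ∀ x y, y ∈ N1 x → x ∉ N2 y
  o23 : ∀ x y, y ∈ N2 x → x ∉ N3 y
  o31 : ∀ x y, y ∈ N3 x → x ∉ N1 y
  tri : ∀ x u y, u ∈ N1 x → y ∈ N2 u → x ∉ N3 y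

variable {r : ℕ} {N1 N2 N3 : V → Finset V}

omit [Fintype V] [DecidableEq V] in
theorem Tri.rot (h : Tri r N1 N2 N3) : Tri r N2 N3 N1 where
  c1 := h.c2
  c2 := h.c3
  c3 := h.c1
  a1 := h.a2
  a2 := h.a3
  a3 := h.a1
  o12 := h.o23
  o23 := h.o31
  o31 := h.o12
  tri x u y hu hy hx := h.tri y x u hx hu hy

/-- the points different from `x`, not in `P x` and without `R`-arc to `x` -/
def W (P R : V → Finset V) (x : V) : Finset V := univ.filter fun y => y ≠ x ∧ y ∉ P x ∧ x ∉ R y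

theorem mem_W {P R : V → Finset V} {x y : V} : y ∈ W P R x ↔ y ≠ x ∧ y ∉ P x ∧ x ∉ R y := by
  simp [W]

theorem Tri.split (h : Tri r N1 N2 N3) {x u : V} (hu : u ∈ N1 x) :
    (N2 u ∩ N1 x).card + (N2 u ∩ W N1 N3 x).card = r := by
  have h1 : N2 u ∩ W N1 N3 x = N2 u \ N1 x := by
    ext y
    simp only [mem_inter, mem_W, mem_sdiff]
    constructor
    · rintro ⟨h2, -, h3, -⟩
      exact ⟨h2, h3⟩
    · rintro ⟨h2, h3⟩
      refine ⟨h2, ?_, h3, h.tri x u y hu h2⟩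
      rintro rfl
      exact h.o12 _ _ hu h2
  rw [h1, card_inter_add_card_sdiff, h.c2]

theorem Tri.cardW (h : Tri r N1 N2 N3) (x : V) :
    (W N1 N3 x).card + r + (univ.filter fun y => x ∈ N3 y).card + 1 = Fintype.card V := by
  have h1 : W N1 N3 x = (insert x (N1 x ∪ univ.filter fun y => x ∈ N3 y))ᶜ := by
    ext y
    simp [mem_W]
  have h2 : (insert x (N1 x ∪ univ.filter fun y => x ∈ N3 y)).card =
      r + (univ.filter fun y => x ∈ N3 y).card + 1 := by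
    rw [card_insert_of_notMem, card_union_of_disjoint, h.c1]
    · rw [disjoint_left]
      intro y hy hy'
      exact h.o31 _ _ (mem_filter.1 hy').2 hy
    · simp only [mem_union, mem_filter, mem_univ, true_and, not_or]
      exact ⟨fun e => h.a1 x x e e, fun e => h.a3 x x e e⟩
  have h3 := card_add_card_compl (insert x (N1 x ∪ univ.filter fun y => x ∈ N3 y))
  rw [← h1, h2] at h3
  omega

theorem Tri.zsum (h : Tri r N1 N2 N3) (x : V) :
    (r : ℤ) * (r + 1) ≤ 2 * ∑ u ∈ N1 x, ((N2 u ∩ W N1 N3 x).card : ℤ) := by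
  have h1 := sum_inner N2 h.a2 (N1 x)
  rw [h.c1] at h1
  have h2 : ∑ u ∈ N1 x, ((N2 u ∩ N1 x).card + (N2 u ∩ W N1 N3 x).card) = r * r := by
    rw [sum_congr rfl fun u hu => h.split hu, sum_const, h.c1, smul_eq_mul]
  rw [sum_add_distrib] at h2
  have h3 : (2 : ℤ) * ∑ u ∈ N1 x, ((N2 u ∩ N1 x).card : ℤ) + r ≤ r * r := by exact_mod_cast h1
  have h4 : ∑ u ∈ N1 x, ((N2 u ∩ N1 x).card : ℤ) + ∑ u ∈ N1 x, ((N2 u ∩ W N1 N3 x).card : ℤ) =
      r * r := by exact_mod_cast h2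
  linarith

theorem Tri.wlow (h : Tri r N1 N2 N3) (hr : 1 ≤ r) (x : V) :
    (r : ℤ) + 1 ≤ 2 * ((W N1 N3 x).card : ℤ) := by
  have h1 := h.zsum x
  have h2 : ∑ u ∈ N1 x, ((N2 u ∩ W N1 N3 x).card : ℤ) ≤ ∑ _u ∈ N1 x, ((W N1 N3 x).card : ℤ) :=
    sum_le_sum fun u _ => by exact_mod_cast card_le_card inter_subset_right
  rw [sum_const, h.c1, nsmul_eq_mul] at h2
  have h3 : (1 : ℤ) ≤ r := by exact_mod_cast hr
  by_contra hcon
  rw [not_le] at hcon
  nlinarith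

/-- the key estimate for an arc `x → u` -/
theorem Tri.star (h : Tri r N1 N2 N3) {x u : V} (hu : u ∈ N1 x) :
    ((N2 u ∩ W N1 N3 x).card : ℤ) * (2 * r + 1 - 2 * (W N2 N1 u).card - (N2 u ∩ W N1 N3 x).card) ≤
      2 * ∑ a ∈ N2 u ∩ N1 x,
        (((N2 u ∩ W N1 N3 x).card : ℤ) - (N2 a ∩ (N2 u ∩ W N1 N3 x)).card) := by
  set Z := N2 u ∩ W N1 N3 x with hZ
  set A := N2 u ∩ N1 x with hA
  have hsub : N2 u ⊆ A ∪ Z := by
    intro y hy
    by_cases h1 : y ∈ N1 x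
    · exact mem_union_left _ (mem_inter.2 ⟨hy, h1⟩)
    · refine mem_union_right _ (mem_inter.2 ⟨hy, mem_W.2 ⟨?_, h1, h.tri x u y hu hy⟩⟩)
      rintro rfl
      exact h.o12 _ _ hu hy
  have h1 : ∀ z ∈ Z, (r : ℤ) - (W N2 N1 u).card ≤ (N3 z ∩ A).card + (N3 z ∩ Z).card := by
    intro z hz
    have hz' : z ∈ N2 u := (mem_inter.1 hz).1
    have h2 := h.rot.split hz'
    have h3 : (N3 z ∩ W N2 N1 u).card ≤ (W N2 N1 u).card := card_le_card inter_subset_right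
    have h4 : (N3 z ∩ N2 u).card ≤ (N3 z ∩ A).card + (N3 z ∩ Z).card := by
      refine le_trans (card_le_card ?_) (card_union_le _ _)
      rw [← inter_union_distrib_left]
      exact inter_subset_inter_left hsub
    have h5 : r ≤ (N3 z ∩ A).card + (N3 z ∩ Z).card + (W N2 N1 u).card := by omega
    have h6 : (r : ℤ) ≤ (N3 z ∩ A).card + (N3 z ∩ Z).card + (W N2 N1 u).card := by
      exact_mod_cast h5
    linarith
  have h2 := sum_le_sum h1
  rw [sum_const, nsmul_eq_mul, sum_add_distrib] at h2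
  have h3 := sum_inner N3 h.a3 Z
  have h3' : (2 : ℤ) * ∑ z ∈ Z, ((N3 z ∩ Z).card : ℤ) + Z.card ≤ Z.card * Z.card := by
    exact_mod_cast h3
  have h4 := sum_cross N3 N2 Z A fun y _ a _ ha hy => h.o23 _ _ hy ha
  have h4' : ∑ z ∈ Z, ((N3 z ∩ A).card : ℤ) + ∑ a ∈ A, ((N2 a ∩ Z).card : ℤ) ≤
      Z.card * A.card := by exact_mod_cast h4
  rw [sum_sub_distrib, sum_const, nsmul_eq_mul]
  linarith


/-- one point `z`: arcs from the points with `z` to the points without `z` -/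
theorem Tri.cut (h : Tri r N1 N2 N3) (x z : V) :
    2 * ∑ u ∈ (N1 x).filter (fun a => z ∈ N2 a),
        ((N2 u ∩ (N1 x).filter fun a => z ∉ N2 a).card : ℤ) ≤
      2 * ∑ a ∈ (N1 x).filter (fun a => z ∉ N2 a), ((N2 a ∩ W N1 N3 x).card : ℤ) -
        (((N1 x).filter fun a => z ∉ N2 a).card : ℤ) ^ 2 := by
  set P := (N1 x).filter (fun a => z ∈ N2 a) with hP
  set Q := (N1 x).filter (fun a => z ∉ N2 a) with hQ
  have hPQ : P.card + Q.card = r := by
    rw [hP, hQ, card_filter_add_card_filter_not, h.c1]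
  have h1 := sum_cross N2 N2 P Q fun y _ a _ ha => h.a2 _ _ ha
  have h2 := sum_inner N2 h.a2 Q
  have h3 : ∀ a ∈ Q, (r : ℤ) - (N2 a ∩ W N1 N3 x).card = (N2 a ∩ P).card + (N2 a ∩ Q).card := by
    intro a ha
    have h4 := h.split (mem_filter.1 ha).1
    have h5 : (N2 a ∩ N1 x).card = (N2 a ∩ P).card + (N2 a ∩ Q).card := by
      rw [← card_union_of_disjoint, ← inter_union_distrib_left, hP, hQ, filter_union_filter_not_eq]
      exact disjoint_of_subset_left inter_subset_right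
        (disjoint_of_subset_right inter_subset_right (disjoint_filter_filter_not _ _ _))
    have h6 : ((N2 a ∩ N1 x).card : ℤ) + (N2 a ∩ W N1 N3 x).card = r := by exact_mod_cast h4
    have h7 : ((N2 a ∩ N1 x).card : ℤ) = (N2 a ∩ P).card + (N2 a ∩ Q).card := by exact_mod_cast h5
    linarith
  have h4 := sum_congr rfl h3
  rw [sum_sub_distrib, sum_const, nsmul_eq_mul, sum_add_distrib] at h4
  have h1' : ∑ u ∈ P, ((N2 u ∩ Q).card : ℤ) + ∑ a ∈ Q, ((N2 a ∩ P).card : ℤ) ≤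
      P.card * Q.card := by exact_mod_cast h1
  have h2' : (2 : ℤ) * ∑ a ∈ Q, ((N2 a ∩ Q).card : ℤ) + Q.card ≤ Q.card * Q.card := by
    exact_mod_cast h2
  have hPQ' : (P.card : ℤ) = r - Q.card := by
    have : (P.card : ℤ) + Q.card = r := by exact_mod_cast hPQ
    linarith
  rw [hPQ'] at h1'
  have h5 : (0 : ℤ) ≤ Q.card := by positivity
  nlinarith

theorem Tri.bsum (N1 N2 N3 : V → Finset V) (x : V) :
    ∑ u ∈ N1 x, ∑ a ∈ N2 u ∩ N1 x,
        (((N2 u ∩ W N1 N3 x).card : ℤ) - (N2 a ∩ (N2 u ∩ W N1 N3 x)).card) =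
      ∑ z ∈ W N1 N3 x, ∑ u ∈ (N1 x).filter (fun a => z ∈ N2 a),
        ((N2 u ∩ (N1 x).filter fun a => z ∉ N2 a).card : ℤ) := by
  have h1 : ∀ u a : V, (((N2 u ∩ W N1 N3 x).card : ℤ) - (N2 a ∩ (N2 u ∩ W N1 N3 x)).card) =
      ∑ z ∈ W N1 N3 x, if z ∈ N2 u ∧ z ∉ N2 a then (1 : ℤ) else 0 := by
    intro u a
    have e1 := card_inter_add_card_sdiff (N2 u ∩ W N1 N3 x) (N2 a)
    rw [inter_comm] at e1
    have e2 : ((N2 a ∩ (N2 u ∩ W N1 N3 x)).card : ℤ) + ((N2 u ∩ W N1 N3 x) \ N2 a).card =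
      (N2 u ∩ W N1 N3 x).card := by exact_mod_cast e1
    have e3 : ((N2 u ∩ W N1 N3 x) \ N2 a) =
        (W N1 N3 x).filter fun z => z ∈ N2 u ∧ z ∉ N2 a := by
      ext z
      simp only [mem_sdiff, mem_inter, mem_filter]
      tauto
    rw [← sum_filter, sum_const, nsmul_eq_mul, mul_one, ← e3]
    linarith
  have h2 : ∀ u z : V, ((N2 u ∩ (N1 x).filter fun a => z ∉ N2 a).card : ℤ) =
      ∑ a ∈ N2 u ∩ N1 x, if z ∉ N2 a then (1 : ℤ) else 0 := by
    intro u z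
    rw [← sum_filter, sum_const, nsmul_eq_mul, mul_one]
    congr 2
    ext a
    simp only [mem_inter, mem_filter]
    tauto
  simp_rw [h1, h2]
  have h3 : ∀ u ∈ N1 x, ∑ a ∈ N2 u ∩ N1 x, ∑ z ∈ W N1 N3 x,
      (if z ∈ N2 u ∧ z ∉ N2 a then (1 : ℤ) else 0) =
      ∑ z ∈ W N1 N3 x, if z ∈ N2 u then ∑ a ∈ N2 u ∩ N1 x, (if z ∉ N2 a then (1 : ℤ) else 0)
        else 0 := by
    intro u _
    rw [sum_comm]
    refine sum_congr rfl fun z _ => ?_
    by_cases hz : z ∈ N2 u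
    · simp only [hz, true_and, if_true]
    · simp [hz]
  rw [sum_congr rfl h3, sum_comm]
  refine sum_congr rfl fun z _ => ?_
  rw [← sum_filter]

/-- the sum over the points `a ∈ N_1 x` and `z ∈ W x` with `z ∉ N_2 a` -/
theorem Tri.msum (N1 N2 N3 : V → Finset V) (x : V) (g : V → ℤ) :
    ∑ z ∈ W N1 N3 x, ∑ a ∈ (N1 x).filter (fun a => z ∉ N2 a), g a =
      ∑ a ∈ N1 x, g a * ((W N1 N3 x).card - (N2 a ∩ W N1 N3 x).card) := by
  have h1 : ∀ z ∈ W N1 N3 x, ∑ a ∈ (N1 x).filter (fun a => z ∉ N2 a), g a =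
      ∑ a ∈ N1 x, if z ∉ N2 a then g a else 0 := fun z _ => by rw [sum_filter]
  rw [sum_congr rfl h1, sum_comm]
  refine sum_congr rfl fun a _ => ?_
  rw [← sum_filter, sum_const, nsmul_eq_mul, mul_comm]
  congr 1
  have e1 := card_inter_add_card_sdiff (W N1 N3 x) (N2 a)
  rw [inter_comm] at e1
  have e2 : ((N2 a ∩ W N1 N3 x).card : ℤ) + (W N1 N3 x \ N2 a).card = (W N1 N3 x).card := by
    exact_mod_cast e1
  have e3 : (W N1 N3 x).filter (fun z => z ∉ N2 a) = W N1 N3 x \ N2 a := by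
    ext z
    simp only [mem_sdiff, mem_filter]
  rw [e3]
  linarith

theorem Tri.starstar (h : Tri r N1 N2 N3) (x : V) :
    ∑ u ∈ N1 x, (144 * (((N2 u ∩ W N1 N3 x).card : ℤ) * ((N2 u ∩ W N1 N3 x).card + 2 * r + 1
      - 2 * (W N1 N3 x).card - 2 * (W N2 N1 u).card)) +
      24 * r * ((W N1 N3 x).card - (N2 u ∩ W N1 N3 x).card)) ≤ r ^ 2 * (W N1 N3 x).card := by
  have h1 := sum_le_sum fun u (hu : u ∈ N1 x) => h.star hu
  rw [← mul_sum, Tri.bsum N1 N2 N3 x] at h1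
  have h2 := sum_le_sum fun z (_ : z ∈ W N1 N3 x) => h.cut x z
  rw [← mul_sum, sum_sub_distrib, ← mul_sum, Tri.msum N1 N2 N3 x] at h2
  have h3 : ∀ z ∈ W N1 N3 x, 24 * (r : ℤ) * ∑ a ∈ (N1 x).filter (fun a => z ∉ N2 a), (1 : ℤ)
      - r ^ 2 ≤ 144 * (((N1 x).filter fun a => z ∉ N2 a).card : ℤ) ^ 2 := by
    intro z _
    rw [sum_const, nsmul_eq_mul, mul_one]
    nlinarith [sq_nonneg (12 * (((N1 x).filter fun a => z ∉ N2 a).card : ℤ) - r)]
  have h4 := sum_le_sum h3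
  rw [sum_sub_distrib, ← mul_sum, ← mul_sum, Tri.msum N1 N2 N3 x, sum_const, nsmul_eq_mul] at h4
  simp only [one_mul] at h4
  have h5 : ∑ u ∈ N1 x, (144 * (((N2 u ∩ W N1 N3 x).card : ℤ) * ((N2 u ∩ W N1 N3 x).card +
      2 * r + 1 - 2 * (W N1 N3 x).card - 2 * (W N2 N1 u).card)) +
      24 * r * ((W N1 N3 x).card - (N2 u ∩ W N1 N3 x).card)) =
      144 * ∑ u ∈ N1 x, ((N2 u ∩ W N1 N3 x).card : ℤ) *
        (2 * r + 1 - 2 * (W N2 N1 u).card - (N2 u ∩ W N1 N3 x).card) -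
      288 * ∑ a ∈ N1 x, ((N2 a ∩ W N1 N3 x).card : ℤ) *
        ((W N1 N3 x).card - (N2 a ∩ W N1 N3 x).card) +
      24 * r * ∑ a ∈ N1 x, (((W N1 N3 x).card : ℤ) - (N2 a ∩ W N1 N3 x).card) := by
    rw [mul_sum, mul_sum, mul_sum, ← sum_sub_distrib, ← sum_add_distrib]
    refine sum_congr rfl fun u _ => ?_
    ring
  rw [h5]
  linarith

/-- the excess at `x` -/
def t (r : ℕ) (P R : V → Finset V) (x : V) : ℤ := 2 * (W P R x).card - (r + 1)

theorem Tri.t_nonneg (h : Tri r N1 N2 N3) (hr : 1 ≤ r) (x : V) : 0 ≤ t r N1 N3 x := by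
  have := h.wlow hr x
  unfold t
  linarith

theorem Tri.main1 (h : Tri r N1 N2 N3) (hr : 1 ≤ r) (T : ℤ) (hT : 0 ≤ T) (hTr : 25 * T ≤ 7 * r)
    (x : V) :
    ((r : ℤ) + 1) * (142 * r ^ 2 - 144 * r - 288 * r * T) -
        t r N1 N3 x * (242 * r ^ 2 + 288 * r) ≤
      144 * ∑ u ∈ N1 x, (t r N2 N1 u - T) * (2 * (r + 1) + (t r N2 N1 u - T)) := by
  have hr' : (1 : ℤ) ≤ r := by exact_mod_cast hr
  have ht0 := h.t_nonneg hr x
  rcases le_or_gt 0 (480 * (r : ℤ) - 576 * (t r N1 N3 x + T)) with h0 | h0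
  · have h1 := h.starstar x
    have h2 := h.zsum x
    have h3 : ∀ u ∈ N1 x, ((N2 u ∩ W N1 N3 x).card : ℤ) * (480 * r - 576 * (t r N1 N3 x + T)) +
        96 * r * (W N1 N3 x).card -
        144 * ((r + 1) ^ 2 + (t r N2 N1 u - T) * (2 * (r + 1) + (t r N2 N1 u - T))) ≤
        4 * (144 * (((N2 u ∩ W N1 N3 x).card : ℤ) * ((N2 u ∩ W N1 N3 x).card + 2 * r + 1
          - 2 * (W N1 N3 x).card - 2 * (W N2 N1 u).card)) +
          24 * r * ((W N1 N3 x).card - (N2 u ∩ W N1 N3 x).card)) := by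
      intro u _
      have h4 : 0 ≤ (2 * ((N2 u ∩ W N1 N3 x).card : ℤ) - (r + 1 + (t r N2 N1 u - T))) ^ 2 :=
        sq_nonneg _
      unfold t at *
      linarith
    have h5 := sum_le_sum h3
    rw [← mul_sum, sum_sub_distrib, sum_add_distrib, ← sum_mul, sum_const, h.c1, nsmul_eq_mul,
      ← mul_sum, sum_add_distrib, sum_const, h.c1, nsmul_eq_mul] at h5
    have h6 : (r : ℤ) * (r + 1) * (240 * r - 288 * (t r N1 N3 x + T)) ≤
        (∑ u ∈ N1 x, ((N2 u ∩ W N1 N3 x).card : ℤ)) * (480 * r - 576 * (t r N1 N3 x + T)) := by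
      nlinarith
    have h7 : 2 * ((W N1 N3 x).card : ℤ) = t r N1 N3 x + r + 1 := by
      unfold t
      ring
    nlinarith
  · have h1 : ∀ u ∈ N1 x, -(T * (2 * (r + 1) - T)) ≤
        (t r N2 N1 u - T) * (2 * (r + 1) + (t r N2 N1 u - T)) := by
      intro u _
      have h2 := h.rot.t_nonneg hr u
      nlinarith
    have h2 := sum_le_sum h1
    rw [sum_const, h.c1, nsmul_eq_mul] at h2
    have h3 : (5 * (r : ℤ) - 6 * T) * (242 * r ^ 2 + 288 * r) ≤
        6 * t r N1 N3 x * (242 * r ^ 2 + 288 * r) := by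
      refine mul_le_mul_of_nonneg_right (by linarith) (by positivity)
    have hD : (0 : ℤ) ≤ 7 * r - 25 * T := by linarith
    have h5 : 6 * (142 * (r : ℤ) ^ 2 - 2 * r - 144 - 144 * T ^ 2) ≤
        (5 * (r : ℤ) - 6 * T) * (242 * r + 288) := by
      nlinarith [mul_nonneg hT hD, sq_nonneg (7 * (r : ℤ) - 25 * T), sq_nonneg T,
        mul_nonneg (by linarith : (0 : ℤ) ≤ r) hD]
    have h4 : 6 * ((r : ℤ) * (142 * r ^ 2 - 2 * r - 144 - 144 * T ^ 2)) ≤
        r * ((5 * (r : ℤ) - 6 * T) * (242 * r + 288)) := by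
      have := mul_le_mul_of_nonneg_left h5 (by linarith : (0 : ℤ) ≤ r)
      linarith
    nlinarith

theorem sum_in_eq (N : V → Finset V) (g : V → ℤ) :
    ∑ x, ∑ u ∈ N x, g u = ∑ u, ((univ.filter fun y => u ∈ N y).card : ℤ) * g u := by
  have h1 : ∀ x, ∑ u ∈ N x, g u = ∑ u, if u ∈ N x then g u else 0 := by
    intro x
    rw [← sum_filter]
    refine sum_congr ?_ fun _ _ => rfl
    ext u
    simp
  simp_rw [h1]
  rw [sum_comm]
  refine sum_congr rfl fun u _ => ?_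
  rw [← sum_filter, sum_const, nsmul_eq_mul]

theorem Tri.tsum (h : Tri r N1 N2 N3) : ∑ x, t r N1 N3 x =
    Fintype.card V * (2 * Fintype.card V - 3 - 5 * r) := by
  have h1 : ∀ x, t r N1 N3 x = (2 * Fintype.card V - 3 - 3 * r) -
      2 * ((univ.filter fun y => x ∈ N3 y).card : ℤ) := by
    intro x
    have h2 := h.cardW x
    have h3 : ((W N1 N3 x).card : ℤ) + r + (univ.filter fun y => x ∈ N3 y).card + 1 =
      Fintype.card V := by exact_mod_cast h2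
    unfold t
    linarith
  have h2 := sum_in_eq N3 (fun _ => 1)
  simp only [sum_const, h.c3, mul_one, nsmul_eq_mul, card_univ] at h2
  simp_rw [h1]
  rw [sum_sub_distrib, ← mul_sum, ← h2, sum_const, card_univ, nsmul_eq_mul]
  ring

/-- **The combinatorial inequality.** -/
theorem Tri.main (h : Tri r N1 N2 N3) (hr : 1 ≤ r) (hV : 1 ≤ Fintype.card V) :
    2633 * (r : ℤ) + 1350 < 1000 * Fintype.card V := by
  by_contra hcon
  rw [not_lt] at hcon
  have hr' : (1 : ℤ) ≤ r := by exact_mod_cast hr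
  have hV' : (1 : ℤ) ≤ Fintype.card V := by exact_mod_cast hV
  obtain ⟨n, hn⟩ : ∃ n : ℤ, n = Fintype.card V := ⟨_, rfl⟩
  obtain ⟨T, hT⟩ : ∃ T : ℤ, T = 2 * n - 3 - 5 * r := ⟨_, rfl⟩
  have hs := h.tsum
  have hs' := h.rot.tsum
  rw [← hn, ← hT] at hs hs'
  rw [← hn] at hV' hcon
  have hT1 : 1000 * T + 300 ≤ 266 * r := by linarith
  have hT0 : 0 ≤ T := by
    have h1 : 0 ≤ ∑ x, t r N1 N3 x := sum_nonneg fun x _ => h.t_nonneg hr x
    rw [hs] at h1
    by_contra hcon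
    rw [not_le] at hcon
    nlinarith
  have h1 := sum_le_sum fun x (_ : x ∈ (univ : Finset V)) =>
    h.main1 hr T hT0 (by linarith) x
  rw [← mul_sum, sum_in_eq N1 fun u => (t r N2 N1 u - T) * (2 * (r + 1) + (t r N2 N1 u - T))] at h1
  have h2 : ∀ u, 2 * (((univ.filter fun y => u ∈ N1 y).card : ℤ) *
      ((t r N2 N1 u - T) * (2 * (r + 1) + (t r N2 N1 u - T)))) * 4 ≤
      (16 * r * (r + 1) - 3 * T ^ 2) * (t r N2 N1 u - T) + T ^ 3 := by
    intro u
    have h3 := h.rot.cardW u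
    have h4 : ((W N2 N1 u).card : ℤ) + r + (univ.filter fun y => u ∈ N1 y).card + 1 = n := by
      rw [hn]
      exact_mod_cast h3
    have h5 : 2 * ((univ.filter fun y => u ∈ N1 y).card : ℤ) = 2 * r - (t r N2 N1 u - T) := by
      rw [hT]
      unfold t
      linarith
    have h6 : 2 * (((univ.filter fun y => u ∈ N1 y).card : ℤ) *
      ((t r N2 N1 u - T) * (2 * (r + 1) + (t r N2 N1 u - T)))) =
      (2 * r - (t r N2 N1 u - T)) *
        ((t r N2 N1 u - T) * (2 * (r + 1) + (t r N2 N1 u - T))) := by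
      rw [← h5]
      ring
    rw [h6]
    have h7 := h.rot.t_nonneg hr u
    obtain ⟨s, hs⟩ : ∃ s, s = t r N2 N1 u - T := ⟨_, rfl⟩
    rw [← hs]
    have h8 : 0 ≤ (s + T) * (2 * s - T) ^ 2 := mul_nonneg (by linarith) (sq_nonneg _)
    nlinarith [sq_nonneg s]
  have h3 := sum_le_sum fun u (_ : u ∈ (univ : Finset V)) => h2 u
  rw [← sum_mul, ← mul_sum, sum_add_distrib, ← mul_sum, sum_sub_distrib, hs', sum_const,
    card_univ, nsmul_eq_mul, ← hn, sum_const, card_univ, nsmul_eq_mul, ← hn] at h3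
  rw [sum_sub_distrib, ← sum_mul _ (fun x => t r N1 N3 x), hs, sum_const, card_univ,
    nsmul_eq_mul, ← hn] at h1
  have h5 : n * ((((r : ℤ) + 1) * (142 * r ^ 2 - 144 * r - 288 * r * T)) -
      T * (242 * r ^ 2 + 288 * r)) ≤ n * (18 * T ^ 3) := by
    nlinarith
  have h6 := le_of_mul_le_mul_left h5 (by linarith)
  obtain ⟨U, hU⟩ : ∃ U : ℤ, U = 266 * r - 300 - 1000 * T := ⟨_, rfl⟩
  have hU0 : 0 ≤ U := by linarith
  have h7 : 18821096 * (((r : ℤ) + 1) * (142 * r ^ 2 - 144 * r - 288 * r * T) -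
      T * (242 * r ^ 2 + 288 * r) - 18 * T ^ 3) =
      142 * U ^ 3 + (285020 * T + 127268) * U ^ 2 +
        (144040000 * T ^ 2 + 129192544 * T + 27831936) * U +
        681220272 * T ^ 3 + 1924544000 * T ^ 2 + 2917099200 * T + 729460800 := by
    rw [hU]
    ring
  have h8 : 0 < 142 * U ^ 3 + (285020 * T + 127268) * U ^ 2 +
        (144040000 * T ^ 2 + 129192544 * T + 27831936) * U +
        681220272 * T ^ 3 + 1924544000 * T ^ 2 + 2917099200 * T + 729460800 := by positivity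
  linarith

end Pool.Agent.Lib.MP_323cd4_co.Golden
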