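import Mathlib
import Pool.Agent.Lib.MP_323cd4_co.Golden
import Pool.Agent.Lib.MP_323cd4_co.FourTrace

/-!
Products of three tournament-like matrices (MP_323cd4_co): from the trace to the combinatorial
part.
-/

set_option autoImplicit false

namespace Pool.Agent.Lib.MP_323cd4_co.Golden

open Finset
open Pool.Agent.Lib.MP_323cd4_co.Four (exists_nbhd sum_inner)

/-- the diagonal entries of a product of three matrices -/
theorem diag3 {n : ℕ} (A1 A2 A3 : Matrix (Fin n) (Fin n) ℕ) (x : Fin n) :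
    (A1 * A2 * A3) x x = ∑ p : Fin n × Fin n, A1 x p.1 * A2 p.1 p.2 * A3 p.2 x := by
  simp only [Matrix.mul_apply, Finset.sum_mul, Fintype.sum_prod_type]
  rw [Finset.sum_comm]

theorem closed3 {n : ℕ} (A1 A2 A3 : Matrix (Fin n) (Fin n) ℕ)
    (d1 : ∀ i, A1 i i = 1) (d2 : ∀ i, A2 i i = 1) (d3 : ∀ i, A3 i i = 1)
    (hle : Matrix.trace (A1 * A2 * A3) ≤ n) (x0 x1 x2 : Fin n)
    (h1 : A1 x0 x1 = 1) (h2 : A2 x1 x2 = 1) (h3 : A3 x2 x0 = 1) :
    x1 = x0 ∧ x2 = x0 := by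
  by_contra hcon
  have hge : ∀ x, 1 ≤ (A1 * A2 * A3) x x := by
    intro x
    rw [diag3]
    have := single_le_sum (f := fun p : Fin n × Fin n =>
      A1 x p.1 * A2 p.1 p.2 * A3 p.2 x) (fun _ _ => Nat.zero_le _) (mem_univ (x, x))
    simpa [d1, d2, d3] using this
  have h5 : 2 ≤ (A1 * A2 * A3) x0 x0 := by
    rw [diag3]
    have hne : ((x0, x0) : Fin n × Fin n) ≠ (x1, x2) := by
      intro e
      simp only [Prod.mk.injEq] at e
      exact hcon ⟨e.1.symm, e.2.symm⟩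
    have := sum_le_sum_of_subset (f := fun p : Fin n × Fin n =>
      A1 x0 p.1 * A2 p.1 p.2 * A3 p.2 x0) (subset_univ {(x0, x0), (x1, x2)})
    rw [sum_pair hne] at this
    simpa [d1, d2, d3, h1, h2, h3] using this
  have h6 : n < Matrix.trace (A1 * A2 * A3) := by
    have h7 : ∑ _x : Fin n, 1 < ∑ x : Fin n, (A1 * A2 * A3) x x :=
      sum_lt_sum (fun x _ => hge x) ⟨x0, mem_univ _, by omega⟩
    simpa [Matrix.trace] using h7
  omega

/-- **Products of three matrices.** -/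
theorem trace_three (n r : ℕ) (hn : 1 ≤ n) (hr : 1 ≤ r)
    (hnr : 1000 * n ≤ 2633 * r + 1350)
    (A : Fin 3 → Matrix (Fin n) (Fin n) ℕ)
    (h01 : ∀ k i j, A k i j = 0 ∨ A k i j = 1)
    (hd : ∀ k i, A k i i = 1)
    (ha : ∀ k i j, i ≠ j → A k i j = 1 → A k j i ≠ 1)
    (hrow : ∀ k i, r + 1 ≤ ∑ j, A k i j) :
    n < Matrix.trace (List.ofFn A).prod := by
  have hprod : (List.ofFn A).prod = A 0 * A 1 * A 2 := by
    simp [List.ofFn_succ, mul_assoc]
  rw [hprod]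
  by_contra hcon
  rw [not_lt] at hcon
  choose N hN1 hN2 using fun k => exists_nbhd (A k) (h01 k) (hd k) (hrow k)
  have hcl := fun x0 x1 x2 h1 h2 h3 => closed3 (A 0) (A 1) (A 2) (hd 0) (hd 1) (hd 2) hcon
    x0 x1 x2 h1 h2 h3
  have hbad : Tri r (N 0) (N 1) (N 2) := by
    refine ⟨hN1 0, hN1 1, hN1 2, ?_, ?_, ?_, ?_, ?_, ?_, ?_⟩
    · exact fun x y h h' => ha 0 x y (hN2 0 x y h).1 (hN2 0 x y h).2 (hN2 0 y x h').2
    · exact fun x y h h' => ha 1 x y (hN2 1 x y h).1 (hN2 1 x y h).2 (hN2 1 y x h').2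
    · exact fun x y h h' => ha 2 x y (hN2 2 x y h).1 (hN2 2 x y h).2 (hN2 2 y x h').2
    · intro x y h h'
      exact (hN2 0 x y h).1 (hcl x y x (hN2 0 x y h).2 (hN2 1 y x h').2 (hd 2 x)).1.symm
    · intro x y h h'
      exact (hN2 1 x y h).1 (hcl x x y (hd 0 x) (hN2 1 x y h).2 (hN2 2 y x h').2).2.symm
    · intro x y h h'
      exact (hN2 2 x y h).1 (hcl y x x (hN2 0 y x h').2 (hd 1 x) (hN2 2 x y h).2).1
    · intro x u y hu hy hx
      exact (hN2 0 x u hu).1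
        (hcl x u y (hN2 0 x u hu).2 (hN2 1 u y hy).2 (hN2 2 y x hx).2).1.symm
  have := hbad.main hr (by simpa using hn)
  rw [Fintype.card_fin] at this
  omega

/-- **The exact length `⌈n / r⌉`**, when it is `3` and `r` is large. -/
theorem trace_ceil (n r : ℕ) (hn : 1 ≤ n) (hr : 1 ≤ r)
    (hnr : 1000 * n ≤ 2633 * r + 1350)
    (A : Fin ((n + r - 1) / r) → Matrix (Fin n) (Fin n) ℕ)
    (h01 : ∀ k i j, A k i j = 0 ∨ A k i j = 1)
    (hd : ∀ k i, A k i i = 1)
    (ha : ∀ k i j, i ≠ j → A k i j = 1 → A k j i ≠ 1)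
    (hrow : ∀ k i, r + 1 ≤ ∑ j, A k i j) :
    n < Matrix.trace (List.ofFn A).prod := by
  -- there is at least one matrix
  have hpos : 0 < (n + r - 1) / r := Nat.div_pos (by omega) (by omega)
  -- hence `2 r + 1 ≤ n`
  have hlow : 2 * r + 1 ≤ n := by
    obtain ⟨N, hN1, hN2⟩ := exists_nbhd (A ⟨0, hpos⟩) (h01 _) (hd _) (hrow _)
    have h1 := sum_inner N (fun x y h h' => ha _ x y (hN2 x y h).1 (hN2 x y h).2 (hN2 y x h').2)
      (univ : Finset (Fin n))
    simp only [inter_univ, card_univ, Fintype.card_fin, hN1, sum_const, smul_eq_mul] at h1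
    have h2 : n * (2 * r + 1) ≤ n * n := by linarith
    exact Nat.le_of_mul_le_mul_left h2 (by omega)
  have hhigh : n ≤ 3 * r := by omega
  have hk : (n + r - 1) / r = 3 := by
    have h1 : n + r - 1 = n - 2 * r - 1 + 3 * r := by omega
    rw [h1, Nat.add_mul_div_right _ _ (by omega), Nat.div_eq_of_lt (by omega)]
  revert A
  rw [hk]
  intro A h01 hd ha hrow
  exact trace_three n r hn hr hnr A h01 hd ha hrow

end Pool.Agent.Lib.MP_323cd4_co.Golden
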