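import Mathlib

/-!
Kemperman's theorem on products with a uniquely represented element.
-/

set_option autoImplicit false

namespace Pool.Agent.Lib.MP_323cd4_co

open Finset
open scoped Pointwise

variable {G : Type*} [Group G] [DecidableEq G]

/-- the properties kept by the transformation -/
def KP (N : ℕ) (C : Finset G) (p : Finset G × Finset G) : Prop :=
  1 ∈ p.1 ∧ 1 ∈ p.2 ∧ (∀ a ∈ p.1, ∀ b ∈ p.2, a * b = 1 → a = 1) ∧
    (∀ a ∈ p.1, ∀ b ∈ p.2, a * b ∈ C) ∧ N ≤ #p.1 + #p.2

theorem card_inter_inv (U : Finset G) (x : G) :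
    #(U ∩ U.image (· * x⁻¹)) = #(U ∩ U.image (· * x)) := by
  have h1 : (U ∩ U.image (· * x⁻¹)).image (· * x) = U ∩ U.image (· * x) := by
    ext y
    simp only [mem_image, mem_inter]
    constructor
    · rintro ⟨z, ⟨hz, w, hw, rfl⟩, rfl⟩
      refine ⟨by simpa using hw, w * x⁻¹, hz, rfl⟩
    · rintro ⟨hy, w, hw, rfl⟩
      exact ⟨w, ⟨hw, w * x, hy, by simp⟩, rfl⟩
  rw [← h1, card_image_of_injective _ (mul_left_injective x)]

theorem card_inter_inv' (V : Finset G) (x : G) :
    #(V ∩ V.image (x⁻¹ * ·)) = #(V ∩ V.image (x * ·)) := by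
  have h1 : (V ∩ V.image (x⁻¹ * ·)).image (x * ·) = V ∩ V.image (x * ·) := by
    ext y
    simp only [mem_image, mem_inter]
    constructor
    · rintro ⟨z, ⟨hz, w, hw, rfl⟩, rfl⟩
      refine ⟨by simpa using hw, x⁻¹ * w, hz, rfl⟩
    · rintro ⟨hy, w, hw, rfl⟩
      exact ⟨w, ⟨hw, x * w, hy, by simp⟩, rfl⟩
  rw [← h1, card_image_of_injective _ (mul_right_injective x)]

/-- **Kemperman's theorem** for a product in which `1` has only the trivial representation. -/
theorem kemperman (A B : Finset G) (hA : 1 ∈ A) (hB : 1 ∈ B)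
    (hu : ∀ a ∈ A, ∀ b ∈ B, a * b = 1 → a = 1) : #A + #B ≤ #(A * B) + 1 := by
  classical
  set C := A * B with hC
  have sub1 : ∀ U V : Finset G, 1 ∈ V → (∀ a ∈ U, ∀ b ∈ V, a * b ∈ C) → U ⊆ C := by
    intro U V h1 h a ha
    simpa using h a ha 1 h1
  have sub2 : ∀ U V : Finset G, 1 ∈ U → (∀ a ∈ U, ∀ b ∈ V, a * b ∈ C) → V ⊆ C := by
    intro U V h1 h b hb
    simpa using h 1 h1 b hb
  set T := (C.powerset ×ˢ C.powerset).filter (KP (#A + #B) C) with hTdef
  have memT : ∀ p : Finset G × Finset G, KP (#A + #B) C p → p ∈ T := by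
    intro p hp
    rw [hTdef, mem_filter, mem_product, mem_powerset, mem_powerset]
    exact ⟨⟨sub1 _ _ hp.2.1 hp.2.2.2.1, sub2 _ _ hp.1 hp.2.2.2.1⟩, hp⟩
  have hT : T.Nonempty := ⟨(A, B), memT _ ⟨hA, hB, hu, fun a ha b hb => mul_mem_mul ha hb, le_rfl⟩⟩
  obtain ⟨⟨U, V⟩, hUV, hmax⟩ := T.exists_max_image (fun p => (#p.1 + #p.2) * (#C + 1) + #p.1) hT
  have hP : KP (#A + #B) C (U, V) := (mem_filter.1 hUV).2
  obtain ⟨h1, h2, h3, h4, h5⟩ := hP
  simp only at h1 h2 h3 h4 h5 hmax
  have hUC : U ⊆ C := sub1 U V h2 h4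
  have hVC : V ⊆ C := sub2 U V h1 h4
  have key : ∀ x ∈ U, x ∈ V → x = 1 := by
    intro x hxU hxV
    by_contra hx1
    set U1 := U ∪ U.image (· * x) with hU1
    set V1 := V ∩ V.image (x⁻¹ * ·) with hV1
    set U2 := U ∩ U.image (· * x⁻¹) with hU2
    set V2 := V ∪ V.image (x * ·) with hV2
    have c1 : #U1 + #U2 = 2 * #U := by
      rw [hU1, hU2, card_inter_inv, card_union_add_card_inter,
        card_image_of_injective _ (mul_left_injective x)]
      omega
    have c2 : #V1 + #V2 = 2 * #V := by
      rw [hV1, hV2, card_inter_inv', add_comm, card_union_add_card_inter,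
        card_image_of_injective _ (mul_right_injective x)]
      omega
    have hxinvV : x⁻¹ ∉ V := fun h => hx1 (h3 x hxU x⁻¹ h (by simp))
    have hxinvU : x⁻¹ ∉ U := fun h => by
      have := h3 x⁻¹ h x hxV (by simp)
      exact hx1 (by simpa using this)
    have lt1 : #U < #U1 := by
      refine card_lt_card ⟨subset_union_left, fun hsub => ?_⟩
      have hsub' : U.image (· * x) ⊆ U := subset_union_right.trans hsub
      have heq : U.image (· * x) = U :=
        eq_of_subset_of_card_le hsub' (by
          rw [card_image_of_injective _ (mul_left_injective x)])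
      have h1' : (1 : G) ∈ U.image (· * x) := by rw [heq]; exact h1
      obtain ⟨u, hu', he⟩ := mem_image.1 h1'
      have hu1 : u = 1 := h3 u hu' x hxV he
      rw [hu1, one_mul] at he
      exact hx1 he
    rcases le_or_gt (#U + #V) (#U1 + #V1) with hc | hc
    · have hK : KP (#A + #B) C (U1, V1) := by
        refine ⟨mem_union_left _ h1, mem_inter.2 ⟨h2, mem_image.2 ⟨x, hxV, by simp⟩⟩, ?_, ?_,
          h5.trans hc⟩
        · intro a ha b hb hab
          obtain ⟨hb1, hb2⟩ := mem_inter.1 hb
          rcases mem_union.1 ha with ha | ha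
          · exact h3 a ha b hb1 hab
          · obtain ⟨u, hu', rfl⟩ := mem_image.1 ha
            obtain ⟨v, hv, rfl⟩ := mem_image.1 hb2
            have e : u * v = 1 := by simpa [mul_assoc] using hab
            have hu1 := h3 u hu' v hv e
            rw [hu1, one_mul] at e
            rw [e, mul_one] at hb1
            exact absurd hb1 hxinvV
        · intro a ha b hb
          obtain ⟨hb1, hb2⟩ := mem_inter.1 hb
          rcases mem_union.1 ha with ha | ha
          · exact h4 a ha b hb1
          · obtain ⟨u, hu', rfl⟩ := mem_image.1 ha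
            obtain ⟨v, hv, rfl⟩ := mem_image.1 hb2
            have := h4 u hu' v hv
            simpa [mul_assoc] using this
      have hm := hmax (U1, V1) (memT _ hK)
      simp only at hm
      have := Nat.mul_le_mul_right (#C + 1) hc
      omega
    · have hc' : #U + #V + 1 ≤ #U2 + #V2 := by omega
      have hK : KP (#A + #B) C (U2, V2) := by
        refine ⟨mem_inter.2 ⟨h1, mem_image.2 ⟨x, hxU, by simp⟩⟩, mem_union_left _ h2, ?_, ?_,
          h5.trans (by simp only; omega)⟩
        · intro a ha b hb hab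
          obtain ⟨ha1, ha2⟩ := mem_inter.1 ha
          rcases mem_union.1 hb with hb | hb
          · exact h3 a ha1 b hb hab
          · obtain ⟨u, hu', rfl⟩ := mem_image.1 ha2
            obtain ⟨v, hv, rfl⟩ := mem_image.1 hb
            have e : u * v = 1 := by simpa [mul_assoc] using hab
            have hu1 := h3 u hu' v hv e
            rw [hu1, one_mul] at ha1
            exact absurd ha1 hxinvU
        · intro a ha b hb
          obtain ⟨ha1, ha2⟩ := mem_inter.1 ha
          rcases mem_union.1 hb with hb | hb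
          · exact h4 a ha1 b hb
          · obtain ⟨u, hu', rfl⟩ := mem_image.1 ha2
            obtain ⟨v, hv, rfl⟩ := mem_image.1 hb
            have := h4 u hu' v hv
            simpa [mul_assoc] using this
      have hm := hmax (U2, V2) (memT _ hK)
      simp only at hm
      have h6 := Nat.mul_le_mul_right (#C + 1) hc'
      have h7 : #U ≤ #C := card_le_card hUC
      have h8 : (#U + #V + 1) * (#C + 1) = (#U + #V) * (#C + 1) + (#C + 1) := by ring
      omega
  have hint : #(U ∩ V) ≤ 1 := by
    rw [card_le_one]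
    intro a ha b hb
    rw [key a (mem_inter.1 ha).1 (mem_inter.1 ha).2, key b (mem_inter.1 hb).1 (mem_inter.1 hb).2]
  have hun : #(U ∪ V) ≤ #C := card_le_card (union_subset hUC hVC)
  have := card_union_add_card_inter U V
  omega

end Pool.Agent.Lib.MP_323cd4_co
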