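import Mathlib
import Pool.Agent.Lib.MP_323cd4_co.Kemperman

/-!
Growth of sets in digraphs with many automorphisms.
-/

set_option autoImplicit false

namespace Pool.Agent.Lib.MP_323cd4_co

open Finset
open scoped Pointwise

variable {X : Type*} [Fintype X] [DecidableEq X]

/-- the automorphism group of a relation -/
def autGroup (S : X → X → Prop) : Subgroup (Equiv.Perm X) where
  carrier := {σ | ∀ a b, S (σ a) (σ b) ↔ S a b}
  mul_mem' := by
    intro σ τ hσ hτ a b
    rw [Equiv.Perm.mul_apply, Equiv.Perm.mul_apply, hσ, hτ]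
  one_mem' := by
    intro a b
    simp
  inv_mem' := by
    intro σ hσ a b
    have := hσ (σ⁻¹ a) (σ⁻¹ b)
    simpa using this.symm

omit [Fintype X] [DecidableEq X] in
theorem mem_autGroup (S : X → X → Prop) (σ : Equiv.Perm X) :
    σ ∈ autGroup S ↔ ∀ a b, S (σ a) (σ b) ↔ S a b := Iff.rfl

open Classical in
/-- the number of group elements which send `x` into `Z` -/
theorem card_lift (H : Subgroup (Equiv.Perm X)) (x : X) (Z : Finset X) :
    #(univ.filter (fun g : H => (g : Equiv.Perm X) x ∈ Z)) =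
      #(univ.filter (fun g : H => (g : Equiv.Perm X) x = x)) *
        #(Z.filter (fun z => ∃ g : H, (g : Equiv.Perm X) x = z)) := by
  classical
  set L : Finset H := univ.filter (fun g : H => (g : Equiv.Perm X) x ∈ Z) with hL
  have h1 : #L = ∑ z ∈ Z, #(L.filter (fun g : H => (g : Equiv.Perm X) x = z)) :=
    card_eq_sum_card_fiberwise (fun g hg => by simpa [hL] using hg)
  rw [h1, ← sum_filter_add_sum_filter_not Z (fun z => ∃ g : H, (g : Equiv.Perm X) x = z)]
  have h2 : ∑ z ∈ Z with ¬ (∃ g : H, (g : Equiv.Perm X) x = z),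
      #(L.filter (fun g : H => (g : Equiv.Perm X) x = z)) = 0 := by
    refine sum_eq_zero (fun z hz => ?_)
    rw [card_eq_zero, filter_eq_empty_iff]
    intro g _ hg
    exact (mem_filter.1 hz).2 ⟨g, hg⟩
  have h3 : ∀ z ∈ Z.filter (fun z => ∃ g : H, (g : Equiv.Perm X) x = z),
      #(L.filter (fun g : H => (g : Equiv.Perm X) x = z)) =
        #(univ.filter (fun g : H => (g : Equiv.Perm X) x = x)) := by
    intro z hz
    obtain ⟨hzZ, k, hk⟩ := mem_filter.1 hz
    symm
    refine card_bij (fun (g : H) _ => k * g) ?_ ?_ ?_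
    · intro g hg
      have hg' : (g : Equiv.Perm X) x = x := (mem_filter.1 hg).2
      have e : ((k * g : H) : Equiv.Perm X) x = z := by
        rw [Subgroup.coe_mul, Equiv.Perm.mul_apply, hg', hk]
      exact mem_filter.2 ⟨mem_filter.2 ⟨mem_univ _, by rw [e]; exact hzZ⟩, e⟩
    · intro a _ b _ hab
      exact mul_left_cancel hab
    · intro g hg
      have hg' : (g : Equiv.Perm X) x = z := (mem_filter.1 hg).2
      refine ⟨k⁻¹ * g, mem_filter.2 ⟨mem_univ _, ?_⟩, by simp⟩
      rw [Subgroup.coe_mul, Equiv.Perm.mul_apply, hg', ← hk]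
      simp
  rw [h2, add_zero, sum_congr rfl h3, sum_const, smul_eq_mul, mul_comm]

open Classical in
/-- If no element of `F` other than `x` has an arc to `x`, then `F` grows by the number of
out-neighbours of `x` that are images of `x` under automorphisms. -/
theorem growth (S : X → X → Prop) (x : X) (F Y : Finset X) (hx : x ∈ F)
    (hF : ∀ y ∈ F, S y x → y = x) (hFY : F ⊆ Y) (hSY : ∀ y ∈ F, ∀ z, S y z → z ∈ Y) :
    #F + #(univ.filter (fun z => z ≠ x ∧ S x z ∧
      ∃ σ : Equiv.Perm X, (∀ a b, S (σ a) (σ b) ↔ S a b) ∧ σ x = z)) ≤ #Y := by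
  classical
  set H := autGroup S with hH
  set D := univ.filter (fun z => z ≠ x ∧ S x z ∧
      ∃ σ : Equiv.Perm X, (∀ a b, S (σ a) (σ b) ↔ S a b) ∧ σ x = z) with hD
  set O : X → Prop := fun z => ∃ g : H, (g : Equiv.Perm X) x = z with hO
  set h := #(univ.filter (fun g : H => (g : Equiv.Perm X) x = x)) with hh
  have hpos : 0 < h := by
    rw [hh, card_pos]
    exact ⟨1, by simp⟩
  set LF := univ.filter (fun g : H => (g : Equiv.Perm X) x ∈ F) with hLF
  set LS := univ.filter (fun g : H => (g : Equiv.Perm X) x = x) with hLS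
  set LY := univ.filter (fun g : H => (g : Equiv.Perm X) x ∈ Y) with hLY
  set LB := univ.filter (fun g : H => (g : Equiv.Perm X) x ∈ insert x D) with hLB
  have cF : #LF = h * #(F.filter O) := card_lift H x F
  have cY : #LY = h * #(Y.filter O) := card_lift H x Y
  have cB : #LB = h * #((insert x D).filter O) := card_lift H x _
  have hxD : x ∉ D := by simp [hD]
  have cD : (insert x D).filter O = insert x D := by
    rw [filter_eq_self]
    intro z hz
    rcases mem_insert.1 hz with rfl | hz
    · exact ⟨1, by simp⟩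
    · obtain ⟨_, _, _, σ, hσ, hσx⟩ := mem_filter.1 hz
      exact ⟨⟨σ, hσ⟩, hσx⟩
  rw [cD, card_insert_of_notMem hxD] at cB
  have hsub : LS ⊆ LF := by
    intro g hg
    have : (g : Equiv.Perm X) x = x := (mem_filter.1 hg).2
    exact mem_filter.2 ⟨mem_univ _, by rw [this]; exact hx⟩
  have h1LS : (1 : H) ∈ LS := by simp [hLS]
  have h1not : (1 : H) ∉ LF \ LS := fun hc => (mem_sdiff.1 hc).2 h1LS
  have cA : #(insert 1 (LF \ LS)) = #LF - h + 1 := by
    rw [card_insert_of_notMem h1not, card_sdiff_of_subset hsub]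
  have hle : h ≤ #LF := card_le_card hsub
  have hB1 : (1 : H) ∈ LB := by simp [hLB]
  have hkem := kemperman (insert (1 : H) (LF \ LS)) LB (mem_insert_self _ _) hB1 (by
    intro a ha b hb hab
    rcases mem_insert.1 ha with ha | ha
    · exact ha
    exfalso
    obtain ⟨ha1, ha2⟩ := mem_sdiff.1 ha
    have haF : (a : Equiv.Perm X) x ∈ F := (mem_filter.1 ha1).2
    have hax : (a : Equiv.Perm X) x ≠ x := fun hc => ha2 (mem_filter.2 ⟨mem_univ _, hc⟩)
    have hba : (b : Equiv.Perm X) = (a : Equiv.Perm X)⁻¹ := by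
      have : b = a⁻¹ := by
        rw [eq_inv_iff_mul_eq_one]
        have h9 := congrArg (fun t => a⁻¹ * t * a) hab
        simpa [mul_assoc] using h9
      rw [this]
      rfl
    have hbx : (b : Equiv.Perm X) x ∈ insert x D := (mem_filter.1 hb).2
    rcases mem_insert.1 hbx with hbx | hbx
    · apply hax
      have h8 := congrArg (a : Equiv.Perm X) hbx
      rw [hba] at h8
      simpa using h8.symm
    · obtain ⟨_, _, hS, _⟩ := mem_filter.1 hbx
      have hSa := (a.2 x ((b : Equiv.Perm X) x)).2 hS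
      rw [hba] at hSa
      have hSa' : S ((a : Equiv.Perm X) x) x := by simpa using hSa
      exact hax (hF _ haF hSa'))
  have hmul : insert (1 : H) (LF \ LS) * LB ⊆ LY := by
    intro g hg
    obtain ⟨a, ha, b, hb, rfl⟩ := mem_mul.1 hg
    have haF : (a : Equiv.Perm X) x ∈ F := by
      rcases mem_insert.1 ha with rfl | ha
      · simpa using hx
      · exact (mem_filter.1 (mem_sdiff.1 ha).1).2
    have hbx : (b : Equiv.Perm X) x ∈ insert x D := (mem_filter.1 hb).2
    refine mem_filter.2 ⟨mem_univ _, ?_⟩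
    rw [Subgroup.coe_mul, Equiv.Perm.mul_apply]
    rcases mem_insert.1 hbx with hbx | hbx
    · rw [hbx]
      exact hFY haF
    · obtain ⟨_, _, hS, _⟩ := mem_filter.1 hbx
      exact hSY _ haF _ ((a.2 x ((b : Equiv.Perm X) x)).2 hS)
  have hmulc : #(insert (1 : H) (LF \ LS) * LB) ≤ #LY := card_le_card hmul
  rw [cA, cB] at hkem
  have hmain : h * (#(F.filter O) + #D) ≤ h * #(Y.filter O) := by
    have e1 : #LF - h + 1 + h * (#D + 1) ≤ #LY + 1 := hkem.trans (by omega)
    have e2 : h * (#D + 1) = h * #D + h := by ring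
    have e3 : h * (#(F.filter O) + #D) = h * #(F.filter O) + h * #D := by ring
    rw [e3, ← cF, ← cY]
    omega
  have hmain2 : #(F.filter O) + #D ≤ #(Y.filter O) := Nat.le_of_mul_le_mul_left hmain hpos
  have hF2 := card_filter_add_card_filter_not (s := F) O
  have hY2 := card_filter_add_card_filter_not (s := Y) O
  have hFY2 : #(F.filter (fun z => ¬ O z)) ≤ #(Y.filter (fun z => ¬ O z)) :=
    card_le_card (filter_subset_filter _ hFY)
  omega

end Pool.Agent.Lib.MP_323cd4_co
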