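import Mathlib
import Pool.Agent.Lib.MP_323cd4_co.GoldenTrace
import Pool.Agent.Lib.MP_323cd4_co.Exact

/-!
Products of at least `n / r` tournament-like matrices (MP_323cd4_co): the range where three
matrices suffice, and the range where four matrices suffice.
-/

set_option autoImplicit false

namespace Pool.Agent.Lib.MP_323cd4_co.Joint

open Finset
open Pool.Agent.Lib.MP_323cd4_co (Golden.trace_three Four.trace_four_ratio)

/-- Four matrices, both bounds. -/
theorem trace_four' (n r : ℕ) (hn : 1 ≤ n) (hr : 1 ≤ r)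
    (hnr : 1000 * n ≤ 3230 * r + 1000 ∨ 1000 * n ≤ 3154 * r + 1800)
    (A : Fin 4 → Matrix (Fin n) (Fin n) ℕ)
    (h01 : ∀ k i j, A k i j = 0 ∨ A k i j = 1)
    (hd : ∀ k i, A k i i = 1)
    (ha : ∀ k i j, i ≠ j → A k i j = 1 → A k j i ≠ 1)
    (hrow : ∀ k i, r + 1 ≤ ∑ j, A k i j) :
    n < Matrix.trace (List.ofFn A).prod := by
  rcases hnr with h | h
  · have hA : ∀ k, Exact.Adm (A k) r := fun k => ⟨h01 k, hd k, ha k, hrow k⟩
    have h2 : (List.ofFn A).prod = A 0 * A 1 * A 2 * A 3 := by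
      simp [List.ofFn_succ, Matrix.mul_assoc]
    rw [h2]
    exact Exact.four_fine hn hr _ _ _ _ (hA 0) (hA 1) (hA 2) (hA 3) (by omega)
  · exact Four.trace_four_ratio n r hn hr h A h01 hd ha hrow

/-- A longer product has a larger trace. -/
theorem trace_long {n a b : ℕ} (A : Fin (a + b) → Matrix (Fin n) (Fin n) ℕ)
    (hd : ∀ k i, A k i i = 1)
    (h : n < Matrix.trace (List.ofFn fun i : Fin a => A (Fin.castAdd b i)).prod) :
    n < Matrix.trace (List.ofFn A).prod := by
  rw [List.ofFn_add, List.prod_append]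
  refine lt_of_lt_of_le h (Exact.trace_le _ _ ?_)
  refine Exact.diag_list _ ?_
  intro M hM
  rw [List.mem_ofFn] at hM
  obtain ⟨j, rfl⟩ := hM
  exact hd _

/-- **At least `n / r` matrices.** -/
theorem main (n r K : ℕ) (hn : 1 ≤ n) (hr : 1 ≤ r) (hK : n ≤ K * r)
    (h : 1000 * n ≤ 2633 * r + 1350 ∨
      (4 ≤ K ∧ (1000 * n ≤ 3230 * r + 1000 ∨ 1000 * n ≤ 3154 * r + 1800)))
    (A : Fin K → Matrix (Fin n) (Fin n) ℕ)
    (h01 : ∀ k i j, A k i j = 0 ∨ A k i j = 1)
    (hd : ∀ k i, A k i i = 1)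
    (ha : ∀ k i j, i ≠ j → A k i j = 1 → A k j i ≠ 1)
    (hrow : ∀ k i, r + 1 ≤ ∑ j, A k i j) :
    n < Matrix.trace (List.ofFn A).prod := by
  rcases h with h | ⟨h4, h⟩
  · have hK0 : 0 < K := by
      rcases Nat.eq_zero_or_pos K with h0 | h0
      · rw [h0, zero_mul] at hK
        omega
      · exact h0
    have hfirst := Exact.two_lt hn (A ⟨0, hK0⟩) (h01 _) (hd _) (ha _) (hrow _)
    have hK3 : 3 ≤ K := by
      by_contra hc
      have : K * r ≤ 2 * r := Nat.mul_le_mul_right r (by omega)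
      omega
    obtain ⟨m, rfl⟩ := Nat.exists_eq_add_of_le hK3
    exact trace_long A hd (Golden.trace_three n r hn hr h _ (fun _ => h01 _) (fun _ => hd _)
      (fun _ => ha _) (fun _ => hrow _))
  · obtain ⟨m, rfl⟩ := Nat.exists_eq_add_of_le h4
    exact trace_long A hd (trace_four' n r hn hr h _ (fun _ => h01 _) (fun _ => hd _)
      (fun _ => ha _) (fun _ => hrow _))

end Pool.Agent.Lib.MP_323cd4_co.Joint
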