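import Mathlib
import Pool.Agent.Lib.MP_323cd4_co.Linear
import Pool.Agent.Lib.MP_323cd4_co.Growth

/-!
Products of matrices of digraphs with many automorphisms.
-/

set_option autoImplicit false

namespace Pool.Agent.Lib.MP_323cd4_co

open Finset Matrix

variable {n : ℕ}

/-- Some subdigraph `S` of the digraph of `M` has at least `d` arcs from `x` to other vertices
that are images of `x` under automorphisms of `S`. -/
def GoodAt (M : Matrix (Fin n) (Fin n) ℕ) (d : ℕ) (x : Fin n) : Prop :=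
  ∃ S : Fin n → Fin n → Prop, (∀ a b, S a b → M a b = 1) ∧
    d ≤ Set.ncard {z | z ≠ x ∧ S x z ∧
      ∃ σ : Equiv.Perm (Fin n), (∀ a b, S (σ a) (σ b) ↔ S a b) ∧ σ x = z}

/-- the vertices that can be reached from `x` with the first `m` matrices -/
def reach (A : ℕ → Matrix (Fin n) (Fin n) ℕ) (x : Fin n) (m : ℕ) : Finset (Fin n) :=
  univ.filter (fun y => 1 ≤ pr A 0 m x y)

variable {A : ℕ → Matrix (Fin n) (Fin n) ℕ} {K : ℕ} {x : Fin n}

theorem mem_reach {m : ℕ} {y : Fin n} : y ∈ reach A x m ↔ 1 ≤ pr A 0 m x y := by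
  simp [reach]

theorem step (m : ℕ) {y z : Fin n} (h : 1 ≤ pr A 0 m x y) (h2 : A m y z = 1) :
    1 ≤ pr A 0 (m + 1) x z := by
  rw [pr, zero_add, Matrix.mul_apply]
  calc 1 ≤ pr A 0 m x y * A m y z := by rw [h2, mul_one]; exact h
    _ ≤ _ := single_le_sum (f := fun u => pr A 0 m x u * A m u z)
        (fun _ _ => Nat.zero_le _) (mem_univ y)

theorem diag_mono (hd : ∀ t i, A t i i = 1) (x : Fin n) : Monotone (fun s => pr A 0 s x x) := by
  refine monotone_nat_of_le_succ (fun s => ?_)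
  rw [pr, zero_add, Matrix.mul_apply]
  calc pr A 0 s x x = pr A 0 s x x * A s x x := by rw [hd, mul_one]
    _ ≤ _ := single_le_sum (f := fun u => pr A 0 s x u * A s u x)
        (fun _ _ => Nat.zero_le _) (mem_univ x)

theorem self_mem_reach (hd : ∀ t i, A t i i = 1) (x : Fin n) (m : ℕ) : x ∈ reach A x m := by
  rw [mem_reach]
  have := diag_mono hd x (Nat.zero_le m)
  simpa [pr] using this

theorem closed (hd : ∀ t i, A t i i = 1) (hK : pr A 0 K x x ≤ 1) {m : ℕ} (hm : m < K) {y : Fin n}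
    (h : 1 ≤ pr A 0 m x y) (h2 : A m y x = 1) : y = x := by
  by_contra hne
  have h1 : pr A 0 (m + 1) x x ≤ pr A 0 K x x := diag_mono hd x hm
  have h3 : ∑ u ∈ ({x, y} : Finset (Fin n)), pr A 0 m x u * A m u x ≤ pr A 0 (m + 1) x x := by
    rw [pr, zero_add, Matrix.mul_apply]
    exact sum_le_sum_of_subset (subset_univ _)
  have hx : 1 ≤ pr A 0 m x x := mem_reach.1 (self_mem_reach hd x m)
  rw [sum_pair (fun e => hne e.symm), hd, h2, mul_one, mul_one] at h3
  omega

theorem reach_growth (hd : ∀ t i, A t i i = 1) (hK : pr A 0 K x x ≤ 1) {m d : ℕ} (hm : m < K)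
    (hg : GoodAt (A m) d x) : #(reach A x m) + d ≤ #(reach A x (m + 1)) := by
  classical
  obtain ⟨S, hS, hcard⟩ := hg
  have h1 := growth S x (reach A x m) (reach A x (m + 1)) (self_mem_reach hd x m)
    (fun y hy hyx => closed hd hK hm (mem_reach.1 hy) (hS _ _ hyx))
    (fun y hy => mem_reach.2 (step m (mem_reach.1 hy) (hd _ _)))
    (fun y hy z hyz => mem_reach.2 (step m (mem_reach.1 hy) (hS _ _ hyz)))
  have h2 : Set.ncard {z | z ≠ x ∧ S x z ∧
      ∃ σ : Equiv.Perm (Fin n), (∀ a b, S (σ a) (σ b) ↔ S a b) ∧ σ x = z} =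
      #(univ.filter (fun z => z ≠ x ∧ S x z ∧
        ∃ σ : Equiv.Perm (Fin n), (∀ a b, S (σ a) (σ b) ↔ S a b) ∧ σ x = z)) := by
    rw [← Set.ncard_coe_finset]
    congr 1
    ext z
    simp
  rw [h2] at hcard
  refine le_trans (Nat.add_le_add_left ?_ _) h1
  convert hcard

theorem row_card (M : Matrix (Fin n) (Fin n) ℕ) (h01 : ∀ i j, M i j = 0 ∨ M i j = 1) (x : Fin n) :
    ∑ j, M x j = #(univ.filter (fun j => M x j = 1)) := by
  rw [card_filter]
  refine sum_congr rfl (fun j _ => ?_)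
  rcases h01 x j with e | e <;> simp [e]

theorem col_card (M : Matrix (Fin n) (Fin n) ℕ) (h01 : ∀ i j, M i j = 0 ∨ M i j = 1) (x : Fin n) :
    ∑ j, M j x = #(univ.filter (fun j => M j x = 1)) := by
  rw [card_filter]
  refine sum_congr rfl (fun j _ => ?_)
  rcases h01 j x with e | e <;> simp [e]

theorem reach_card (h01 : ∀ t i j, A t i j = 0 ∨ A t i j = 1) (hd : ∀ t i, A t i i = 1)
    (hK : pr A 0 K x x ≤ 1) (r : ℕ → ℕ) (hrow : ∀ t < K, ∀ i, r t + 1 ≤ ∑ j, A t i j) (m : ℕ)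
    (hm : m ≤ K) (hg : ∀ i, 0 < i → i < m → GoodAt (A i) (r i) x) :
    1 + ∑ i ∈ range m, r i ≤ #(reach A x m) := by
  induction m with
  | zero =>
    rw [range_zero, sum_empty, add_zero, Nat.one_le_iff_ne_zero, ← Nat.pos_iff_ne_zero, card_pos]
    exact ⟨x, self_mem_reach hd x 0⟩
  | succ m ih =>
    rcases Nat.eq_zero_or_pos m with rfl | hpos
    · have h1 := hrow 0 (by omega) x
      rw [row_card (A 0) (h01 0)] at h1
      have h2 : #(univ.filter (fun j => A 0 x j = 1)) ≤ #(reach A x (0 + 1)) := by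
        refine card_le_card (fun j hj => ?_)
        exact mem_reach.2 (step 0 (y := x) (by simp [pr]) (mem_filter.1 hj).2)
      rw [range_one, sum_singleton]
      omega
    · have h1 := ih (by omega) (fun i hi1 hi2 => hg i hi1 (by omega))
      have h2 := reach_growth hd hK (by omega : m < K) (hg m hpos (by omega))
      rw [sum_range_succ]
      omega

/-- all matrices but the first are good -/
theorem diag_bound (h01 : ∀ t i j, A t i j = 0 ∨ A t i j = 1) (hd : ∀ t i, A t i i = 1)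
    (r : ℕ → ℕ) (hrow : ∀ t < K, ∀ i, r t + 1 ≤ ∑ j, A t i j)
    (hn : n ≤ ∑ i ∈ range K, r i) (hg : ∀ i, 0 < i → i < K → GoodAt (A i) (r i) x) :
    2 ≤ pr A 0 K x x := by
  by_contra hlt
  have h1 := reach_card h01 hd (by omega : pr A 0 K x x ≤ 1) r hrow K le_rfl hg
  have h2 : #(reach A x K) ≤ n := by
    have := card_le_univ (reach A x K)
    simpa using this
  omega

/-- all matrices but the first and the last are good -/
theorem trace_bound' (h01 : ∀ t i j, A t i j = 0 ∨ A t i j = 1) (hd : ∀ t i, A t i i = 1)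
    (hn1 : 1 ≤ n) (r : ℕ → ℕ) (hrow : ∀ t < K, ∀ i, r t + 1 ≤ ∑ j, A t i j)
    (hn : n ≤ ∑ i ∈ range K, r i)
    (hg : ∀ x : Fin n, ∀ i, 0 < i → i + 1 < K → GoodAt (A i) (r i) x) :
    n < Matrix.trace (pr A 0 K) := by
  obtain ⟨m, rfl⟩ : ∃ m, K = m + 1 := by
    rcases Nat.eq_zero_or_pos K with rfl | h
    · simp at hn; omega
    · exact ⟨K - 1, by omega⟩
  -- a vertex with large in-degree in the last matrix
  obtain ⟨x, hx⟩ : ∃ x : Fin n, r m + 1 ≤ ∑ j, A m j x := by
    by_contra hcon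
    push Not at hcon
    have h1 : ∑ x : Fin n, ∑ j, A m j x < ∑ x : Fin n, (r m + 1) := by
      have : Nonempty (Fin n) := ⟨⟨0, by omega⟩⟩
      exact sum_lt_sum_of_nonempty univ_nonempty (fun x _ => hcon x)
    rw [sum_comm] at h1
    have h2 : ∑ x : Fin n, (r m + 1) ≤ ∑ x : Fin n, ∑ j, A m x j :=
      sum_le_sum (fun x _ => hrow m (by omega) x)
    omega
  have hx2 : 2 ≤ pr A 0 (m + 1) x x := by
    by_contra hlt
    have hK : pr A 0 (m + 1) x x ≤ 1 := by omega
    have h1 := reach_card h01 hd hK r hrow m (by omega) (fun i hi1 hi2 => hg x i hi1 (by omega))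
    rw [col_card (A m) (h01 m)] at hx
    have h3 : #(reach A x m ∩ univ.filter (fun j => A m j x = 1)) ≤ 1 := by
      rw [card_le_one]
      intro a ha b hb
      have ea : a = x := closed hd hK (by omega : m < m + 1) (mem_reach.1 (mem_inter.1 ha).1)
        (mem_filter.1 (mem_inter.1 ha).2).2
      have eb : b = x := closed hd hK (by omega : m < m + 1) (mem_reach.1 (mem_inter.1 hb).1)
        (mem_filter.1 (mem_inter.1 hb).2).2
      rw [ea, eb]
    have h4 := card_union_add_card_inter (reach A x m) (univ.filter (fun j => A m j x = 1))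
    have h5 : #(reach A x m ∪ univ.filter (fun j => A m j x = 1)) ≤ n := by
      have := card_le_univ (reach A x m ∪ univ.filter (fun j => A m j x = 1))
      simpa using this
    rw [sum_range_succ] at hn
    omega
  have h6 : ∑ j ∈ univ.erase x, 1 ≤ ∑ j ∈ univ.erase x, pr A 0 (m + 1) j j :=
    sum_le_sum (fun j _ => mem_reach.1 (self_mem_reach hd j (m + 1)))
  rw [sum_const, card_erase_of_mem (mem_univ x), card_univ, Fintype.card_fin, smul_eq_mul,
    mul_one] at h6
  have h7 : Matrix.trace (pr A 0 (m + 1)) = pr A 0 (m + 1) x x +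
      ∑ j ∈ univ.erase x, pr A 0 (m + 1) j j := by
    rw [add_sum_erase univ (fun j => pr A 0 (m + 1) j j) (mem_univ x)]
    rfl
  omega

theorem goodAt_of_transitive (M : Matrix (Fin n) (Fin n) ℕ)
    (h01 : ∀ i j, M i j = 0 ∨ M i j = 1) (hd : ∀ i, M i i = 1) (d : ℕ)
    (hrow : ∀ i, d + 1 ≤ ∑ j, M i j)
    (ht : ∀ i j, ∃ σ : Equiv.Perm (Fin n), σ i = j ∧ ∀ a b, M (σ a) (σ b) = M a b) (x : Fin n) :
    GoodAt M d x := by
  refine ⟨fun a b => M a b = 1, fun a b h => h, ?_⟩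
  have h1 := hrow x
  rw [row_card M h01] at h1
  have h2 : {z | z ≠ x ∧ M x z = 1 ∧
      ∃ σ : Equiv.Perm (Fin n), (∀ a b, M (σ a) (σ b) = 1 ↔ M a b = 1) ∧ σ x = z} =
      ((univ.filter (fun j => M x j = 1)).erase x : Finset (Fin n)) := by
    ext z
    simp only [ne_eq, Set.mem_ofPred_eq, coe_erase, coe_filter, mem_univ, true_and, Set.mem_sdiff,
      Set.mem_singleton_iff]
    constructor
    · rintro ⟨h, h', _⟩
      exact ⟨h', h⟩
    · rintro ⟨h, h'⟩
      obtain ⟨σ, hσ, hσ2⟩ := ht x z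
      exact ⟨h', h, σ, fun a b => by rw [hσ2], hσ⟩
  change d ≤ Set.ncard {z | z ≠ x ∧ M x z = 1 ∧
      ∃ σ : Equiv.Perm (Fin n), (∀ a b, M (σ a) (σ b) = 1 ↔ M a b = 1) ∧ σ x = z}
  rw [h2, Set.ncard_coe_finset, card_erase_of_mem (by simp [hd])]
  omega

/-- from `Fin K` to `ℕ` -/
theorem final (n K : ℕ) (hn : 1 ≤ n) (r : Fin K → ℕ) (hr : n ≤ ∑ k, r k)
    (A : Fin K → Matrix (Fin n) (Fin n) ℕ)
    (h01 : ∀ k i j, A k i j = 0 ∨ A k i j = 1) (hd : ∀ k i, A k i i = 1)
    (hrow : ∀ k i, r k + 1 ≤ ∑ j, A k i j) :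
    ((∀ k : Fin K, 0 < k.1 → k.1 + 1 < K → ∀ x, GoodAt (A k) (r k) x) →
      n < Matrix.trace (List.ofFn A).prod) ∧
    (∀ x, (∀ k : Fin K, 0 < k.1 → GoodAt (A k) (r k) x) → 2 ≤ (List.ofFn A).prod x x) := by
  set A' : ℕ → Matrix (Fin n) (Fin n) ℕ := fun t => if h : t < K then A ⟨t, h⟩ else 1 with hA'
  set r' : ℕ → ℕ := fun t => if h : t < K then r ⟨t, h⟩ else 0 with hr'
  have hprod : (List.ofFn A).prod = pr A' 0 K := by
    rw [pr_eq_ofFn]
    congr 2
    funext k
    simp [hA']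
  have hA01 : ∀ t i j, A' t i j = 0 ∨ A' t i j = 1 := by
    intro t i j
    simp only [hA']
    split_ifs with h
    · exact h01 _ _ _
    · by_cases hij : i = j
      · right; rw [hij, Matrix.one_apply_eq]
      · left; exact Matrix.one_apply_ne hij
  have hAd : ∀ t i, A' t i i = 1 := by
    intro t i
    simp only [hA']
    split_ifs with h
    · exact hd _ _
    · exact Matrix.one_apply_eq i
  have hrow' : ∀ t < K, ∀ i, r' t + 1 ≤ ∑ j, A' t i j := by
    intro t ht i
    simp only [hA', hr', dif_pos ht]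
    exact hrow _ _
  have hr2 : n ≤ ∑ i ∈ range K, r' i := by
    rw [← Fin.sum_univ_eq_sum_range]
    refine hr.trans (le_of_eq (Fintype.sum_congr _ _ (fun k => by simp [hr'])))
  rw [hprod]
  constructor
  · intro hg
    refine trace_bound' hA01 hAd hn r' hrow' hr2 (fun x i hi1 hi2 => ?_)
    have hi : i < K := by omega
    simp only [hA', hr', dif_pos hi]
    exact hg ⟨i, hi⟩ hi1 hi2 x
  · intro x hg
    refine diag_bound hA01 hAd r' hrow' hr2 (fun i hi1 hi => ?_)
    simp only [hA', hr', dif_pos hi]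
    exact hg ⟨i, hi⟩ hi1

theorem ofFn_rotate {α : Type*} {K : ℕ} (hK : 0 < K) (f : Fin K → α) (m : ℕ) :
    List.ofFn (fun k : Fin K => f ⟨(k.1 + m) % K, Nat.mod_lt _ hK⟩) = (List.ofFn f).rotate m := by
  refine List.ext_getElem (by simp) (fun i h1 h2 => ?_)
  rw [List.getElem_rotate]
  simp

theorem trace_rotate (l : List (Matrix (Fin n) (Fin n) ℕ)) (m : ℕ) (hm : m ≤ l.length) :
    Matrix.trace (l.rotate m).prod = Matrix.trace l.prod := by
  rw [List.rotate_eq_drop_append_take hm, List.prod_append, Matrix.trace_mul_comm,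
    ← List.prod_append, List.take_append_drop]

/-- position `p` may be moved to the end -/
theorem final_rotated (n K : ℕ) (hn : 1 ≤ n) (r : Fin K → ℕ) (hr : n ≤ ∑ k, r k)
    (A : Fin K → Matrix (Fin n) (Fin n) ℕ)
    (h01 : ∀ k i j, A k i j = 0 ∨ A k i j = 1) (hd : ∀ k i, A k i i = 1)
    (hrow : ∀ k i, r k + 1 ≤ ∑ j, A k i j) (p : Fin K) :
    ((∀ k : Fin K, k ≠ p → k.1 ≠ (p.1 + 1) % K → ∀ x, GoodAt (A k) (r k) x) →
      n < Matrix.trace (List.ofFn A).prod) ∧
    ((∀ k : Fin K, k.1 ≠ (p.1 + 1) % K → ∀ x, GoodAt (A k) (r k) x) →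
      2 * n ≤ Matrix.trace (List.ofFn A).prod) := by
  have hK : 0 < K := by have := p.2; omega
  have hp := p.2
  set e : Fin K → Fin K := fun k => ⟨(k.1 + (p.1 + 1)) % K, Nat.mod_lt _ hK⟩ with he
  have e1 : ∀ k : Fin K, k.1 + 1 < K → e k ≠ p := by
    intro k hk hc
    have h1 : (k.1 + (p.1 + 1)) % K = p.1 := congrArg Fin.val hc
    rcases Nat.lt_or_ge (k.1 + (p.1 + 1)) K with h | h
    · rw [Nat.mod_eq_of_lt h] at h1
      omega
    · rw [Nat.mod_eq_sub_mod h, Nat.mod_eq_of_lt (by omega)] at h1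
      omega
  have e2 : ∀ k : Fin K, 0 < k.1 → (e k).1 ≠ (p.1 + 1) % K := by
    intro k hk hc
    have h1 : (k.1 + (p.1 + 1)) % K = (p.1 + 1) % K := hc
    have h2 : k.1 < K := k.2
    rcases Nat.lt_or_ge (p.1 + 1) K with h3 | h3
    · rw [Nat.mod_eq_of_lt h3] at h1
      rcases Nat.lt_or_ge (k.1 + (p.1 + 1)) K with h | h
      · rw [Nat.mod_eq_of_lt h] at h1
        omega
      · rw [Nat.mod_eq_sub_mod h, Nat.mod_eq_of_lt (by omega)] at h1
        omega
    · have h4 : p.1 + 1 = K := by omega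
      rw [h4, Nat.mod_self, Nat.add_mod_right, Nat.mod_eq_of_lt h2] at h1
      omega
  have hrot : List.ofFn (fun k => A (e k)) = (List.ofFn A).rotate (p.1 + 1) :=
    ofFn_rotate hK A (p.1 + 1)
  have hrotr : List.ofFn (fun k => r (e k)) = (List.ofFn r).rotate (p.1 + 1) :=
    ofFn_rotate hK r (p.1 + 1)
  have htr : Matrix.trace (List.ofFn (fun k => A (e k))).prod = Matrix.trace (List.ofFn A).prod := by
    rw [hrot]
    exact trace_rotate _ _ (by simp)
  have hsum : n ≤ ∑ k, r (e k) := by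
    rw [← List.sum_ofFn, hrotr, (List.rotate_perm _ _).sum_eq, List.sum_ofFn]
    exact hr
  obtain ⟨f1, f2⟩ := final n K hn (fun k => r (e k)) hsum (fun k => A (e k))
    (fun k => h01 _) (fun k => hd _) (fun k => hrow _)
  rw [htr] at f1
  refine ⟨fun h => f1 (fun k hk1 hk2 => h _ (e1 k hk2) (e2 k hk1)), fun h => ?_⟩
  rw [← htr]
  have f3 := fun x => f2 x (fun k hk1 => h _ (e2 k hk1) x)
  calc 2 * n = ∑ _x : Fin n, 2 := by simp [mul_comm]
    _ ≤ ∑ x, (List.ofFn (fun k => A (e k))).prod x x := sum_le_sum (fun x _ => f3 x)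
    _ = _ := rfl

end Pool.Agent.Lib.MP_323cd4_co
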