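import Mathlib
import Pool.Agent.Lib.MP_323cd4_co.Transitive

/-!
Products of matrices of digraphs with many automorphisms, with two arbitrary factors.
-/

set_option autoImplicit false

namespace Pool.Agent.Lib.MP_323cd4_co

open Finset Matrix

variable {n : ℕ} {A : ℕ → Matrix (Fin n) (Fin n) ℕ} {K : ℕ}

theorem pr_shift (A : ℕ → Matrix (Fin n) (Fin n) ℕ) (j m : ℕ) :
    pr (fun t => A (j + t)) 0 m = pr A j m := by
  induction m with
  | zero => rfl
  | succ m ih => rw [pr, pr, ih, zero_add]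

theorem pr_split (A : ℕ → Matrix (Fin n) (Fin n) ℕ) {j : ℕ} (hj : j ≤ K) (x y : Fin n) :
    pr A 0 K x y = ∑ u, pr A 0 j x u * pr A j (K - j) u y := by
  have hK : K = j + (K - j) := by omega
  conv_lhs => rw [hK, pr_add, zero_add]
  rw [Matrix.mul_apply]

theorem two_exceptions (h01 : ∀ t i j, A t i j = 0 ∨ A t i j = 1) (hd : ∀ t i, A t i i = 1)
    (hn1 : 1 ≤ n) (r : ℕ → ℕ) (hrow : ∀ t < K, ∀ i, r t + 1 ≤ ∑ j, A t i j)
    (hn : n ≤ ∑ i ∈ range K, r i) (j : ℕ) (hj : j < K)
    (hg : ∀ x : Fin n, ∀ i, 0 < i → i ≠ j → i < K → GoodAt (A i) (r i) x) :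
    n < Matrix.trace (pr A 0 K) := by
  classical
  by_contra hcon
  rw [not_lt] at hcon
  have hpos : ∀ x : Fin n, 1 ≤ pr A 0 K x x := fun x => mem_reach.1 (self_mem_reach hd x K)
  have hone : ∀ x : Fin n, pr A 0 K x x ≤ 1 := by
    intro x
    have h1 : ∑ y, pr A 0 K y y ≤ n := hcon
    have h2 : ∑ y ∈ univ.erase x, 1 ≤ ∑ y ∈ univ.erase x, pr A 0 K y y :=
      sum_le_sum (fun y _ => hpos y)
    rw [← add_sum_erase _ _ (mem_univ x)] at h1
    rw [sum_const, card_erase_of_mem (mem_univ x), card_univ, Fintype.card_fin, smul_eq_mul,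
      mul_one] at h2
    have := hpos x
    omega
  set B : ℕ → Matrix (Fin n) (Fin n) ℕ := fun t => A (j + t) with hB
  have hBd : ∀ t i, B t i i = 1 := fun t i => hd _ i
  have hB01 : ∀ t i k, B t i k = 0 ∨ B t i k = 1 := fun t i k => h01 _ i k
  -- first window
  have hF : ∀ x : Fin n, 1 + ∑ i ∈ range j, r i ≤ #(reach A x j) := by
    intro x
    refine reach_card (K := K) h01 hd (hone x) r hrow j hj.le (fun i hi1 hi2 => ?_)
    exact hg x i hi1 (by omega) (by omega)
  -- second window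
  have hGone : ∀ y : Fin n, pr B 0 (K - j) y y ≤ 1 := by
    intro y
    rw [pr_shift]
    have h1 := hone y
    rw [pr_split A hj.le y y] at h1
    have h2 : pr A 0 j y y * pr A j (K - j) y y ≤ ∑ u, pr A 0 j y u * pr A j (K - j) u y :=
      single_le_sum (f := fun u => pr A 0 j y u * pr A j (K - j) u y)
        (fun _ _ => Nat.zero_le _) (mem_univ y)
    have h3 : 1 ≤ pr A 0 j y y := mem_reach.1 (self_mem_reach hd y j)
    calc pr A j (K - j) y y = 1 * pr A j (K - j) y y := (one_mul _).symm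
      _ ≤ pr A 0 j y y * pr A j (K - j) y y := Nat.mul_le_mul_right _ h3
      _ ≤ 1 := h2.trans h1
  have hG : ∀ y : Fin n, 1 + ∑ i ∈ range (K - j), r (j + i) ≤ #(reach B y (K - j)) := by
    intro y
    refine reach_card (K := K - j) hB01 hBd (hGone y) (fun t => r (j + t))
      (fun t ht i => hrow _ (by omega) i) (K - j) le_rfl (fun i hi1 hi2 => ?_)
    exact hg y (j + i) (by omega) (by omega) (by omega)
  obtain ⟨x, hx⟩ : ∃ x : Fin n, 1 + ∑ i ∈ range (K - j), r (j + i) ≤
      #(univ.filter (fun y => x ∈ reach B y (K - j))) := by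
    by_contra hc
    push Not at hc
    have : Nonempty (Fin n) := ⟨⟨0, by omega⟩⟩
    have h1 : ∑ x : Fin n, #(univ.filter (fun y => x ∈ reach B y (K - j))) <
        ∑ x : Fin n, (1 + ∑ i ∈ range (K - j), r (j + i)) :=
      sum_lt_sum_of_nonempty univ_nonempty (fun x _ => hc x)
    have h2 : ∑ x : Fin n, (1 + ∑ i ∈ range (K - j), r (j + i)) ≤
        ∑ y : Fin n, #(reach B y (K - j)) := sum_le_sum (fun y _ => hG y)
    have h3 : ∑ x : Fin n, #(univ.filter (fun y => x ∈ reach B y (K - j))) =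
        ∑ y : Fin n, #(reach B y (K - j)) := by
      have e1 : ∀ x : Fin n, #(univ.filter (fun y => x ∈ reach B y (K - j))) =
          ∑ y : Fin n, if x ∈ reach B y (K - j) then 1 else 0 := fun x => by rw [card_filter]
      have e2 : ∀ y : Fin n, #(reach B y (K - j)) =
          ∑ x : Fin n, if x ∈ reach B y (K - j) then 1 else 0 := fun y => by
        rw [← card_filter, filter_mem_eq_inter, univ_inter]
      rw [sum_congr rfl (fun x _ => e1 x), sum_congr rfl (fun y _ => e2 y), sum_comm]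
    omega
  have hinter : #(reach A x j ∩ univ.filter (fun y => x ∈ reach B y (K - j))) ≤ 1 := by
    have key : ∀ y ∈ reach A x j ∩ univ.filter (fun y => x ∈ reach B y (K - j)), y = x := by
      intro y hy
      obtain ⟨hy1, hy2⟩ := mem_inter.1 hy
      have hy3 : 1 ≤ pr A j (K - j) y x := by
        have := mem_reach.1 (mem_filter.1 hy2).2
        rwa [pr_shift] at this
      have hy4 : 1 ≤ pr A 0 j x y := mem_reach.1 hy1
      by_contra hne
      have h1 := hone x
      rw [pr_split A hj.le x x] at h1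
      have h2 : ∑ u ∈ ({x, y} : Finset (Fin n)), pr A 0 j x u * pr A j (K - j) u x ≤
          ∑ u, pr A 0 j x u * pr A j (K - j) u x := sum_le_sum_of_subset (subset_univ _)
      rw [sum_pair (fun e => hne e.symm)] at h2
      have h3 : 1 ≤ pr A 0 j x x := mem_reach.1 (self_mem_reach hd x j)
      have h4 : 1 ≤ pr A j (K - j) x x := by
        have := mem_reach.1 (self_mem_reach (A := B) hBd x (K - j))
        rwa [pr_shift] at this
      have h5 : 1 ≤ pr A 0 j x x * pr A j (K - j) x x := Nat.mul_le_mul h3 h4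
      have h6 : 1 ≤ pr A 0 j x y * pr A j (K - j) y x := Nat.mul_le_mul hy4 hy3
      omega
    rw [card_le_one]
    intro a ha b hb
    rw [key a ha, key b hb]
  have hun := card_union_add_card_inter (reach A x j)
    (univ.filter (fun y => x ∈ reach B y (K - j)))
  have hle : #(reach A x j ∪ univ.filter (fun y => x ∈ reach B y (K - j))) ≤ n := by
    have := card_le_univ (reach A x j ∪ univ.filter (fun y => x ∈ reach B y (K - j)))
    simpa using this
  have hsum : ∑ i ∈ range K, r i = ∑ i ∈ range j, r i + ∑ i ∈ range (K - j), r (j + i) := by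
    have hK : K = j + (K - j) := by omega
    conv_lhs => rw [hK]
    exact sum_range_add _ _ _
  have := hF x
  omega

/-- from `Fin K` to `ℕ` -/
theorem final_first (n K : ℕ) (hn : 1 ≤ n) (r : Fin K → ℕ) (hr : n ≤ ∑ k, r k)
    (A : Fin K → Matrix (Fin n) (Fin n) ℕ)
    (h01 : ∀ k i j, A k i j = 0 ∨ A k i j = 1) (hd : ∀ k i, A k i i = 1)
    (hrow : ∀ k i, r k + 1 ≤ ∑ j, A k i j) (j : Fin K)
    (hg : ∀ k : Fin K, 0 < k.1 → k ≠ j → ∀ x, GoodAt (A k) (r k) x) :
    n < Matrix.trace (List.ofFn A).prod := by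
  set A' : ℕ → Matrix (Fin n) (Fin n) ℕ := fun t => if h : t < K then A ⟨t, h⟩ else 1 with hA'
  set r' : ℕ → ℕ := fun t => if h : t < K then r ⟨t, h⟩ else 0 with hr'
  have hprod : (List.ofFn A).prod = pr A' 0 K := by
    rw [pr_eq_ofFn]
    congr 2
    funext k
    simp [hA']
  have hA01 : ∀ t i j, A' t i j = 0 ∨ A' t i j = 1 := by
    intro t i j
    simp only [hA']
    split_ifs with h
    · exact h01 _ _ _
    · by_cases hij : i = j
      · right; rw [hij, Matrix.one_apply_eq]
      · left; exact Matrix.one_apply_ne hij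
  have hAd : ∀ t i, A' t i i = 1 := by
    intro t i
    simp only [hA']
    split_ifs with h
    · exact hd _ _
    · exact Matrix.one_apply_eq i
  have hrow' : ∀ t < K, ∀ i, r' t + 1 ≤ ∑ j, A' t i j := by
    intro t ht i
    simp only [hA', hr', dif_pos ht]
    exact hrow _ _
  have hr2 : n ≤ ∑ i ∈ range K, r' i := by
    rw [← Fin.sum_univ_eq_sum_range]
    refine hr.trans (le_of_eq (Fintype.sum_congr _ _ (fun k => by simp [hr'])))
  rw [hprod]
  refine two_exceptions hA01 hAd hn r' hrow' hr2 j.1 j.2 (fun x i hi1 hi2 hi => ?_)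
  simp only [hA', hr', dif_pos hi]
  exact hg ⟨i, hi⟩ hi1 (fun hc => hi2 (congrArg Fin.val hc)) x

/-- at most two matrices are arbitrary -/
theorem final_two (n K : ℕ) (hn : 1 ≤ n) (r : Fin K → ℕ) (hr : n ≤ ∑ k, r k)
    (A : Fin K → Matrix (Fin n) (Fin n) ℕ)
    (h01 : ∀ k i j, A k i j = 0 ∨ A k i j = 1) (hd : ∀ k i, A k i i = 1)
    (hrow : ∀ k i, r k + 1 ≤ ∑ j, A k i j) (p q : Fin K)
    (hg : ∀ k : Fin K, k ≠ p → k ≠ q → ∀ x, GoodAt (A k) (r k) x) :
    n < Matrix.trace (List.ofFn A).prod := by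
  have hK : 0 < K := by have := p.2; omega
  have hp := p.2
  set e : Fin K → Fin K := fun k => ⟨(k.1 + p.1) % K, Nat.mod_lt _ hK⟩ with he
  have einj : Function.Injective e := by
    intro a b hab
    have h1 : (a.1 + p.1) % K = (b.1 + p.1) % K := congrArg Fin.val hab
    have h2 : a.1 ≡ b.1 [MOD K] := Nat.ModEq.add_right_cancel' p.1 h1
    exact Fin.ext (Nat.ModEq.eq_of_lt_of_lt h2 a.2 b.2)
  obtain ⟨j, hj⟩ := (Finite.injective_iff_surjective.1 einj) q
  have e0 : e ⟨0, hK⟩ = p := by
    apply Fin.ext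
    simp only [he, zero_add]
    exact Nat.mod_eq_of_lt hp
  have hrot : List.ofFn (fun k => A (e k)) = (List.ofFn A).rotate p.1 := ofFn_rotate hK A p.1
  have hrotr : List.ofFn (fun k => r (e k)) = (List.ofFn r).rotate p.1 := ofFn_rotate hK r p.1
  have htr : Matrix.trace (List.ofFn (fun k => A (e k))).prod = Matrix.trace (List.ofFn A).prod := by
    rw [hrot]
    exact trace_rotate _ _ (by simp)
  have hsum : n ≤ ∑ k, r (e k) := by
    rw [← List.sum_ofFn, hrotr, (List.rotate_perm _ _).sum_eq, List.sum_ofFn]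
    exact hr
  rw [← htr]
  refine final_first n K hn (fun k => r (e k)) hsum (fun k => A (e k))
    (fun k => h01 _) (fun k => hd _) (fun k => hrow _) j (fun k hk1 hk2 => hg _ ?_ ?_)
  · intro hc
    rw [← e0] at hc
    have := congrArg Fin.val (einj hc)
    simp at this
    omega
  · intro hc
    rw [← hj] at hc
    exact hk2 (einj hc)

end Pool.Agent.Lib.MP_323cd4_co
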